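import Pool.Agent.Helper56.FU.Defs

/-!
# The radius `N ^ (-499/1000)` is admissible, explicit version
-/

set_option autoImplicit false

namespace FU

/-- the bound for `x * sz` -/
def big : ℕ := 10 ^ 100000

theorem big_le_rpow {N : ℝ} (hN : (big : ℝ) ≤ N) : (10 : ℝ) ^ 100 ≤ N ^ (1 / 1000 : ℝ) := by
  have h0 : (0 : ℝ) ≤ (10 : ℝ) ^ 100 := by positivity
  have h1 : ((10 : ℝ) ^ 100) ^ (1000 : ℕ) ≤ N := by
    refine le_trans (le_of_eq ?_) hN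
    rw [big, Nat.cast_pow, ← pow_mul]
    norm_num only
  have h2 : (((10 : ℝ) ^ 100) ^ (1000 : ℕ)) ^ (1 / 1000 : ℝ) ≤ N ^ (1 / 1000 : ℝ) :=
    Real.rpow_le_rpow (by positivity) h1 (by norm_num)
  have h3 : (((10 : ℝ) ^ 100) ^ (1000 : ℕ)) ^ (1 / 1000 : ℝ) = (10 : ℝ) ^ 100 := by
    rw [← Real.rpow_natCast ((10 : ℝ) ^ 100) 1000, ← Real.rpow_mul h0]
    norm_num
  rw [h3] at h2
  exact h2

theorem adm_explicit {N : ℝ} (hN : (big : ℝ) ≤ N) : Adm N (N ^ (-(499 / 1000) : ℝ)) := by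
  have hy := big_le_rpow hN
  have hN1 : (1 : ℝ) ≤ N := by
    refine le_trans ?_ hN
    have : 1 ≤ big := Nat.one_le_pow _ _ (by norm_num)
    exact_mod_cast this
  have hN0 : 0 < N := by linarith
  have h6 : 6000 * N ≤ N ^ (1001 / 1000 : ℝ) := by
    rw [show (1001 / 1000 : ℝ) = 1 / 1000 + 1 by norm_num, Real.rpow_add hN0, Real.rpow_one]
    exact mul_le_mul_of_nonneg_right (le_trans (by norm_num) hy) hN0.le
  have h7 : (6000 * N) ^ (1 / rr) ≤ N ^ (499 / 1000 - 1 / 2000 : ℝ) := by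
    have hr : 1 / rr = (100 / 201 : ℝ) := by unfold rr; norm_num
    rw [hr]
    calc (6000 * N) ^ (100 / 201 : ℝ) ≤ (N ^ (1001 / 1000 : ℝ)) ^ (100 / 201 : ℝ) :=
          Real.rpow_le_rpow (by positivity) h6 (by norm_num)
      _ = N ^ (1001 / 1000 * (100 / 201) : ℝ) := by rw [← Real.rpow_mul hN0.le]
      _ ≤ N ^ (499 / 1000 - 1 / 2000 : ℝ) := Real.rpow_le_rpow_of_exponent_le hN1 (by norm_num)
  have h8 : (10 : ℝ) ^ 50 ≤ N ^ (1 / 2000 : ℝ) := by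
    have h9 : (N ^ (1 / 2000 : ℝ)) ^ 2 = N ^ (1 / 1000 : ℝ) := by
      rw [← Real.rpow_natCast, ← Real.rpow_mul hN0.le]
      norm_num
    have h10 : ((10 : ℝ) ^ 50) ^ 2 ≤ (N ^ (1 / 2000 : ℝ)) ^ 2 := by
      rw [h9]
      refine le_trans (le_of_eq ?_) hy
      rw [← pow_mul]
    exact le_of_sq_le_sq h10 (by positivity)
  have h11 : N ^ (-(499 / 1000) : ℝ) ≤ ((10 : ℝ) ^ 50)⁻¹ := by
    calc N ^ (-(499 / 1000) : ℝ) ≤ N ^ (-(1 / 2000) : ℝ) :=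
          Real.rpow_le_rpow_of_exponent_le hN1 (by norm_num)
      _ = (N ^ (1 / 2000 : ℝ))⁻¹ := by rw [Real.rpow_neg hN0.le]
      _ ≤ ((10 : ℝ) ^ 50)⁻¹ := inv_anti₀ (by positivity) h8
  have h12 : N ^ (-(499 / 1000) : ℝ) * N ^ (499 / 1000 - 1 / 2000 : ℝ) ≤ ((10 : ℝ) ^ 50)⁻¹ := by
    calc N ^ (-(499 / 1000) : ℝ) * N ^ (499 / 1000 - 1 / 2000 : ℝ) = N ^ (-(1 / 2000) : ℝ) := by
          rw [← Real.rpow_add hN0]
          congr 1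
          ring
      _ = (N ^ (1 / 2000 : ℝ))⁻¹ := by rw [Real.rpow_neg hN0.le]
      _ ≤ ((10 : ℝ) ^ 50)⁻¹ := inv_anti₀ (by positivity) h8
  have h0 : 0 < N ^ (-(499 / 1000) : ℝ) := Real.rpow_pos_of_pos hN0 _
  refine ⟨h0, hN0.le, ?_⟩
  calc N ^ (-(499 / 1000) : ℝ) * (1 + (6000 * N) ^ (1 / rr))
      = N ^ (-(499 / 1000) : ℝ) + N ^ (-(499 / 1000) : ℝ) * (6000 * N) ^ (1 / rr) := by ring
    _ ≤ N ^ (-(499 / 1000) : ℝ) + N ^ (-(499 / 1000) : ℝ) * N ^ (499 / 1000 - 1 / 2000 : ℝ) := by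
        gcongr
    _ ≤ ((10 : ℝ) ^ 50)⁻¹ + ((10 : ℝ) ^ 50)⁻¹ := add_le_add h11 h12
    _ ≤ 1 / 100000 := by norm_num

end FU
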