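import Pool.Agent.Helper56.FU.Defs

/-!
# FU-A01 The ratio `q` and the probability `p`

TO PROVE (in place).  All by structural induction on the forest (or directly from the definitions).

* `q_pos`, `q_le_one`: `q (cons c r) = q r / (1 + x q c)`, denominator `≥ 1`.
* `neg_log_q_cons`: `Real.log_div`.
* `p_le`: `p = R / (1 + R) ≤ R`, `R = x * q ≥ 0`.  `p_le'`: `R ≤ x ≤ 73/10` and `R / (1 + R)` is increasing,
  `(73/10) / (83/10) ≤ 8/9`.
* `J_eq`: `I (cons c r) = (I c + x J c) I r = I c (1 + x q c) I r`, `J (cons c r) = I c J r = I c q r I r`.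
-/

set_option autoImplicit false

namespace FU

theorem q_pos {x : ℝ} (hx : 0 < x) (F : Fo) : 0 < q x F := by
  induction F with
  | nil => exact one_pos
  | cons c r ihc ihr =>
    change 0 < q x r / (1 + x * q x c)
    have := mul_pos hx ihc
    positivity

theorem q_le_one {x : ℝ} (hx : 0 < x) (F : Fo) : q x F ≤ 1 := by
  induction F with
  | nil => exact le_rfl
  | cons c r _ ihr =>
    change q x r / (1 + x * q x c) ≤ 1
    have h1 := mul_pos hx (q_pos hx c)
    rw [div_le_one (by linarith)]
    linarith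

theorem neg_log_q_nonneg {x : ℝ} (hx : 0 < x) (F : Fo) : 0 ≤ -Real.log (q x F) :=
  neg_nonneg.2 (Real.log_nonpos (q_pos hx F).le (q_le_one hx F))

theorem neg_log_q_cons {x : ℝ} (hx : 0 < x) (c r : Fo) :
    -Real.log (q x (.cons c r)) = Real.log (1 + x * q x c) + -Real.log (q x r) := by
  change -Real.log (q x r / (1 + x * q x c)) = _
  have h1 := mul_pos hx (q_pos hx c)
  rw [Real.log_div (q_pos hx r).ne' (by positivity)]
  ring

theorem p_pos {x : ℝ} (hx : 0 < x) (c : Fo) : 0 < p x c := by
  have h1 := mul_pos hx (q_pos hx c)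
  unfold p
  positivity

theorem p_le {x : ℝ} (hx : 0 < x) (c : Fo) : p x c ≤ x * q x c := by
  have h1 := mul_pos hx (q_pos hx c)
  unfold p
  exact div_le_self h1.le (by linarith)

theorem p_le' {x : ℝ} (hx : 0 < x) (hx1 : x ≤ 73 / 10) (c : Fo) : p x c ≤ 8 / 9 := by
  have h1 := mul_pos hx (q_pos hx c)
  have h2 : x * q x c ≤ x := mul_le_of_le_one_right hx.le (q_le_one hx c)
  unfold p
  rw [div_le_div_iff₀ (by linarith) (by norm_num)]
  linarith

theorem I_pos {x : ℝ} (hx : 0 < x) (F : Fo) : 0 < I x F ∧ 0 < J x F := by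
  induction F with
  | nil => exact ⟨by simp, by simp⟩
  | cons c r ihc ihr =>
    rw [I_cons, J_cons]
    have h1 := ihc.1
    have h2 := ihc.2
    have h3 := ihr.1
    have h4 := ihr.2
    exact ⟨by positivity, by positivity⟩

theorem J_eq {x : ℝ} (hx : 0 < x) (F : Fo) : J x F = q x F * I x F := by
  induction F with
  | nil =>
    change (1 : ℝ) = 1 * 1
    norm_num
  | cons c r ihc ihr =>
    rw [I_cons, J_cons]
    change _ = q x r / (1 + x * q x c) * _
    have h1 := mul_pos hx (q_pos hx c)
    have h2 : (1 + x * q x c) ≠ 0 := by positivity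
    rw [ihc, ihr]
    field_simp

end FU
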