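import Pool.Agent.Helper56.FU.Defs

/-!
# FU-G01 Independent sets: basic facts

TO PROVE (in place).  `ind G` is the finset of the finsets `S` with `∀ a ∈ S, ∀ b ∈ S, ¬ G.Adj a b` (classical decidability).

* `Z_eq_sum`: group the sum by the cardinality (`Finset.sum_fiberwise_of_maps_to` or `Finset.sum_comm`).
* `coeff_Z`: from `Z_eq_sum` with `z = X` or directly.
* `cf_pos`: a maximum independent set (`alp`) has subsets of every cardinality `k ≤ alp`, all independent.
* `cf_zero_of_lt`: no independent set has more than `alp` vertices.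
* `exists_max`: `Finset.exists_mem_eq_sup`.
* `ZD_le`: `S.card ≤ Fintype.card V` is not enough; use: `∑ S, S.card x^S.card = ∑ v, ∑ S ∋ v, x^S.card` and for fixed `v` the map
  `S ↦ S.erase v` is injective on the independent sets containing `v`, with independent values, so
  `∑ S ∋ v, x^S.card ≤ x * Z G x`.
* `ZD_deriv`: derivative of the polynomial `Z G X` (`Polynomial.derivative_X_pow`).
-/

set_option autoImplicit false

namespace FU

variable {V : Type*} [Fintype V] [DecidableEq V]

theorem mem_ind (G : SimpleGraph V) (S : Finset V) : S ∈ ind G ↔ ∀ a ∈ S, ∀ b ∈ S, ¬ G.Adj a b := by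
  classical
  unfold ind
  rw [Finset.mem_filter]
  exact ⟨fun h => h.2, fun h => ⟨Finset.mem_univ _, h⟩⟩

private theorem Ind_mono (G : SimpleGraph V) {S T : Finset V} (hT : T ∈ ind G) (h : S ⊆ T) :
    S ∈ ind G := by
  rw [mem_ind] at hT ⊢
  exact fun a ha b hb => hT a (h ha) b (h hb)

theorem map_Z {R R' : Type*} [CommSemiring R] [CommSemiring R'] (G : SimpleGraph V) (f : R →+* R') (z : R) :
    f (Z G z) = Z G (f z) := by
  unfold Z
  rw [map_sum]
  exact Finset.sum_congr rfl fun S _ => map_pow f z _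

theorem coeff_Z (G : SimpleGraph V) (k : ℕ) : (Z G (Polynomial.X : Polynomial ℝ)).coeff k = cf G k := by
  classical
  unfold Z cf
  rw [Polynomial.finsetSum_coeff, Finset.card_filter]
  push_cast
  refine Finset.sum_congr rfl fun S _ => ?_
  rw [Polynomial.coeff_X_pow]
  by_cases h : k = S.card
  · rw [if_pos h, if_pos h.symm]
  · rw [if_neg h, if_neg (fun h' => h h'.symm)]

theorem exists_max (G : SimpleGraph V) : ∃ A ∈ ind G, A.card = alp G := by
  classical
  have hne : (ind G).Nonempty := ⟨∅, (mem_ind G ∅).2 fun a ha => absurd ha (Finset.notMem_empty a)⟩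
  obtain ⟨A, hA, hA'⟩ := Finset.exists_mem_eq_sup (ind G) hne Finset.card
  exact ⟨A, hA, hA'.symm⟩

theorem le_alp (G : SimpleGraph V) {S : Finset V} (hS : S ∈ ind G) : S.card ≤ alp G :=
  Finset.le_sup (f := Finset.card) hS

theorem cf_pos (G : SimpleGraph V) {k : ℕ} (hk : k ≤ alp G) : 0 < cf G k := by
  classical
  obtain ⟨A, hA, hA'⟩ := exists_max G
  obtain ⟨T, hT, hTk⟩ := Finset.exists_subset_card_eq (s := A) (n := k) (by omega)
  unfold cf
  rw [Finset.card_pos]
  exact ⟨T, Finset.mem_filter.2 ⟨Ind_mono G hA hT, hTk⟩⟩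

theorem cf_zero_of_lt (G : SimpleGraph V) {k : ℕ} (hk : alp G < k) : cf G k = 0 := by
  classical
  unfold cf
  rw [Finset.card_eq_zero, Finset.filter_eq_empty_iff]
  intro S hS hSk
  have := le_alp G hS
  omega

theorem Z_pos (G : SimpleGraph V) {x : ℝ} (hx : 0 < x) : 0 < Z G x := by
  classical
  unfold Z
  refine Finset.sum_pos (fun S _ => pow_pos hx _) ?_
  exact ⟨∅, (mem_ind G ∅).2 fun a ha => absurd ha (Finset.notMem_empty a)⟩

theorem ZD_le (G : SimpleGraph V) {x : ℝ} (hx : 0 < x) : ZD G x ≤ x * Fintype.card V * Z G x := by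
  classical
  have h1 : ZD G x = ∑ v : V, ∑ S ∈ (ind G).filter (fun S => v ∈ S), x ^ S.card := by
    unfold ZD
    have h2 : ∀ S ∈ ind G, (S.card : ℝ) * x ^ S.card =
        ∑ v : V, if v ∈ S then x ^ S.card else 0 := by
      intro S _
      rw [Finset.sum_ite_mem, Finset.univ_inter, Finset.sum_const, nsmul_eq_mul]
    rw [Finset.sum_congr rfl h2, Finset.sum_comm]
    refine Finset.sum_congr rfl fun v _ => ?_
    rw [Finset.sum_filter]
  have h3 : ∀ v : V, ∑ S ∈ (ind G).filter (fun S => v ∈ S), x ^ S.card ≤ x * Z G x := by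
    intro v
    have h4 : ∑ S ∈ (ind G).filter (fun S => v ∈ S), x ^ S.card =
        ∑ T ∈ ((ind G).filter (fun S => v ∈ S)).image (fun S => S.erase v), x * x ^ T.card := by
      rw [Finset.sum_image]
      · refine Finset.sum_congr rfl fun S hS => ?_
        rw [Finset.mem_filter] at hS
        rw [← pow_succ', Finset.card_erase_add_one hS.2]
      · intro S hS T hT hST
        have hS' := (Finset.mem_filter.1 hS).2
        have hT' := (Finset.mem_filter.1 hT).2
        have h5 : S.erase v = T.erase v := hST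
        rw [← Finset.insert_erase hS', ← Finset.insert_erase hT', h5]
    rw [h4, ← Finset.mul_sum]
    refine mul_le_mul_of_nonneg_left ?_ hx.le
    unfold Z
    refine Finset.sum_le_sum_of_subset_of_nonneg ?_ fun T _ _ => (pow_pos hx _).le
    intro T hT
    rw [Finset.mem_image] at hT
    obtain ⟨S, hS, rfl⟩ := hT
    exact Ind_mono G (Finset.mem_filter.1 hS).1 (Finset.erase_subset v S)
  rw [h1]
  calc ∑ v : V, ∑ S ∈ (ind G).filter (fun S => v ∈ S), x ^ S.card
      ≤ ∑ _v : V, x * Z G x := Finset.sum_le_sum fun v _ => h3 v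
    _ = x * Fintype.card V * Z G x := by
      rw [Finset.sum_const, nsmul_eq_mul, Finset.card_univ]
      ring

theorem ZD_deriv (G : SimpleGraph V) (x : ℝ) :
    ZD G x = x * (Polynomial.derivative (Z G (Polynomial.X : Polynomial ℝ))).eval x := by
  classical
  unfold ZD Z
  rw [Polynomial.derivative_sum, Polynomial.eval_finsetSum, Finset.mul_sum]
  refine Finset.sum_congr rfl fun S _ => ?_
  rw [Polynomial.derivative_X_pow]
  simp only [Polynomial.eval_mul, Polynomial.eval_pow, Polynomial.eval_X,
    Polynomial.eval_C]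
  rcases Nat.eq_zero_or_pos S.card with h | h
  · rw [h]
    simp
  · obtain ⟨m, hm⟩ : ∃ m, S.card = m + 1 := ⟨S.card - 1, by omega⟩
    rw [hm]
    simp only [Nat.add_sub_cancel]
    push_cast
    ring

end FU
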