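import Mathlib

/-!
# FU-G02 Leaves, edges and colourings of forests

TO PROVE (in place).

* `exists_leaf`: the induced subgraph on `s` is acyclic (`SimpleGraph.IsAcyclic.induce`).  If `s` has one element this is trivial.
  Otherwise the type `s` is nontrivial; the complete graph on it is connected, so the induced subgraph is contained in a tree `T`
  (`SimpleGraph.Connected.exists_isTree_le_of_le_of_isAcyclic`), which has a vertex of degree one
  (`SimpleGraph.IsTree.exists_vert_degree_one_of_nontrivial`); this vertex has at most one neighbour in `s`.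
* `card_edges`: `G ≤ T` with a tree `T` on `V` (if `V` is nonempty), which has `card V - 1` edges
  (`SimpleGraph.IsTree.card_edgeFinset`); the pairs `(b, a)`, `b ∉ A`, `a ∈ A`, `G.Adj b a` correspond injectively to
  edges `s(b, a)`.
* `exists_color`: `SimpleGraph.IsAcyclic.colorable_two` / `isBipartite` gives a colouring with two colours; take for `A` the
  larger colour class.
-/

set_option autoImplicit false

namespace FU

variable {V : Type*} [Fintype V] [DecidableEq V]

theorem exists_leaf {G : SimpleGraph V} (hG : G.IsAcyclic) {s : Finset V} (hs : s.Nonempty) :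
    ∃ v ∈ s, ∀ a ∈ s, ∀ b ∈ s, G.Adj v a → G.Adj v b → a = b := by
  classical
  rcases Nat.lt_or_ge 1 s.card with h1 | h1
  · have : Nontrivial (s : Set V) := by
      obtain ⟨a, ha, b, hb, hab⟩ := Finset.one_lt_card.1 h1
      exact ⟨⟨a, ha⟩, ⟨b, hb⟩, fun h => hab (congrArg Subtype.val h)⟩
    have hH : (G.induce (s : Set V)).IsAcyclic := hG.induce _
    obtain ⟨T, hT1, -, hT2⟩ := (SimpleGraph.connected_top (V := (s : Set V))
      ).exists_isTree_le_of_le_of_isAcyclic le_top hH
    obtain ⟨v, hv⟩ := hT2.exists_vert_degree_one_of_nontrivial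
    rw [SimpleGraph.degree_eq_one_iff_existsUnique_adj] at hv
    refine ⟨v.1, v.2, fun a ha b hb hva hvb => ?_⟩
    have h2 : T.Adj v ⟨a, ha⟩ := hT1 (show (G.induce (s : Set V)).Adj v ⟨a, ha⟩ from hva)
    have h3 : T.Adj v ⟨b, hb⟩ := hT1 (show (G.induce (s : Set V)).Adj v ⟨b, hb⟩ from hvb)
    exact congrArg Subtype.val (hv.unique h2 h3)
  · obtain ⟨v, hv⟩ := hs
    exact ⟨v, hv, fun a ha b hb _ _ => Finset.card_le_one.1 h1 a ha b hb⟩

open Classical in
theorem card_edges {G : SimpleGraph V} (hG : G.IsAcyclic) (A : Finset V) :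
    ∑ b ∈ Aᶜ, (A.filter fun a => G.Adj b a).card ≤ Fintype.card V := by
  rcases isEmpty_or_nonempty V with hV | hV
  · have : (Aᶜ : Finset V) = ∅ := Finset.eq_empty_of_isEmpty _
    rw [this, Finset.sum_empty]
    exact Nat.zero_le _
  · obtain ⟨T, hT1, -, hT2⟩ := (SimpleGraph.connected_top (V := V)
      ).exists_isTree_le_of_le_of_isAcyclic le_top hG
    have h1 := hT2.card_edgeFinset
    rw [← Finset.card_sigma]
    have h2 : (Aᶜ.sigma fun b => A.filter fun a => G.Adj b a).card ≤ T.edgeFinset.card := by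
      refine Finset.card_le_card_of_injOn (fun p => s(p.1, p.2)) ?_ ?_
      · rintro ⟨b, a⟩ hp
        simp only [Finset.coe_sigma, Set.mem_sigma_iff, Finset.mem_coe, Finset.mem_filter] at hp
        simp only [Finset.mem_coe, SimpleGraph.mem_edgeFinset, SimpleGraph.mem_edgeSet]
        exact hT1 hp.2.2
      · rintro ⟨b, a⟩ hp ⟨b', a'⟩ hp' h
        simp only [Finset.coe_sigma, Set.mem_sigma_iff, Finset.mem_coe, Finset.mem_filter,
          Finset.mem_compl] at hp hp'
        simp only [Sym2.eq_iff] at h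
        rcases h with ⟨rfl, rfl⟩ | ⟨h3, h4⟩
        · rfl
        · exact absurd (h3 ▸ hp'.2.1) hp.1
    omega

theorem exists_color {G : SimpleGraph V} (hG : G.IsAcyclic) :
    ∃ A : Finset V, (∀ a ∈ A, ∀ b ∈ A, ¬ G.Adj a b) ∧ (∀ a ∈ Aᶜ, ∀ b ∈ Aᶜ, ¬ G.Adj a b) ∧
      (Aᶜ : Finset V).card ≤ A.card := by
  classical
  obtain ⟨C⟩ := hG.colorable_two
  set A : Finset V := Finset.univ.filter fun v => C v = 0 with hA
  have h0 : ∀ a ∈ A, ∀ b ∈ A, ¬ G.Adj a b := by
    intro a ha b hb h
    exact C.valid h ((Finset.mem_filter.1 ha).2.trans (Finset.mem_filter.1 hb).2.symm)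
  have h1 : ∀ a ∈ Aᶜ, ∀ b ∈ Aᶜ, ¬ G.Adj a b := by
    intro a ha b hb h
    have ha' : C a ≠ 0 := fun h2 => (Finset.mem_compl.1 ha)
      (Finset.mem_filter.2 ⟨Finset.mem_univ a, h2⟩)
    have hb' : C b ≠ 0 := fun h2 => (Finset.mem_compl.1 hb)
      (Finset.mem_filter.2 ⟨Finset.mem_univ b, h2⟩)
    have h2 := C.valid h
    rw [Ne, Fin.ext_iff] at ha' hb' h2
    have h3 := (C a).2
    have h4 := (C b).2
    simp only [Fin.val_zero] at ha' hb'
    omega
  rcases le_total (Aᶜ : Finset V).card A.card with h2 | h2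
  · exact ⟨A, h0, h1, h2⟩
  · refine ⟨Aᶜ, h1, ?_, ?_⟩
    · rw [compl_compl]
      exact h0
    · rw [compl_compl]
      exact h2

end FU
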