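import Pool.Agent.Helper56.FU.LF
import Pool.Agent.Helper56.FU.Leaf

/-!
# FU-G04 Every forest is represented by a labelled rooted forest

TO PROVE (in place).

* `ins_*`: structural induction: if the label `u` occurs in `F` exactly once (`labs F` has no duplicates, `u ∈ labs F`) and
  `w ∉ labs F`, then `labs (ins w u F)` is a permutation of `w :: labs F` (if `u ∉ labs F` then `ins w u F = F`), the roots do not
  change, and `E (ins w u F) a b ↔ E F a b ∨ (a = w ∧ b = u) ∨ (a = u ∧ b = w)`.
* `exists_LF`: induction on the cardinality of `s`.  `s = ∅`: `nil`.  Otherwise take `w ∈ s` from `exists_leaf` and `F'` for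
  `s.erase w`.  If `w` has no neighbour in `s.erase w` take `cons w nil F'`; otherwise its only neighbour is `u` and take `ins w u F'`.
-/

set_option autoImplicit false

namespace FU

variable {V : Type*} [DecidableEq V]

private theorem LFex_aux1 (p q e r x : Prop) :
    (p ∨ q ∨ (e ∨ x) ∨ r) ↔ (p ∨ q ∨ e ∨ r) ∨ x := by
  tauto

private theorem LFex_aux2 (p q e r x : Prop) :
    (p ∨ q ∨ e ∨ (r ∨ x)) ↔ (p ∨ q ∨ e ∨ r) ∨ x := by
  tauto

theorem LF.ins_of_notMem {w u : V} {F : LF V} (hu : u ∉ F.labs) : F.ins w u = F := by
  induction F with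
  | nil => rfl
  | cons v c r ihc ihr =>
    simp only [LF.labs_cons, List.mem_cons, List.mem_append, not_or] at hu
    rw [LF.ins, if_neg (Ne.symm hu.1), ihc hu.2.1, ihr hu.2.2]

theorem LF.ins_spec {w u : V} {F : LF V} (hF : F.labs.Nodup) (hu : u ∈ F.labs) (hw : w ∉ F.labs) :
    (F.ins w u).labs.Perm (w :: F.labs) ∧ (F.ins w u).rts = F.rts ∧
      ∀ a b, (F.ins w u).E a b ↔ F.E a b ∨ (a = w ∧ b = u) ∨ (a = u ∧ b = w) := by
  induction F with
  | nil => simp at hu
  | cons v c r ihc ihr =>
    simp only [LF.labs_cons, List.mem_cons, List.mem_append, not_or] at hu hw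
    rw [LF.labs_cons, List.nodup_cons, List.nodup_append] at hF
    obtain ⟨hF1, hFc, hFr, hF2⟩ := hF
    simp only [List.mem_append, not_or] at hF1
    by_cases hvu : v = u
    · subst hvu
      rw [LF.ins, if_pos rfl, LF.ins_of_notMem hF1.1, LF.ins_of_notMem hF1.2]
      refine ⟨?_, rfl, fun a b => ?_⟩
      · simp only [LF.labs_cons, LF.labs_nil, List.nil_append, List.cons_append]
        exact List.Perm.swap w v _
      · simp only [LF.E_cons, LF.rts_cons, LF.rts_nil, LF.E_nil, List.mem_cons, List.not_mem_nil,
          and_false, false_or]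
        constructor
        · rintro (⟨h1, h2 | h2⟩ | ⟨h1, h2 | h2⟩ | h | h)
          · exact Or.inr (Or.inr ⟨h1, h2⟩)
          · exact Or.inl (Or.inl ⟨h1, h2⟩)
          · exact Or.inr (Or.inl ⟨h2, h1⟩)
          · exact Or.inl (Or.inr (Or.inl ⟨h1, h2⟩))
          · exact Or.inl (Or.inr (Or.inr (Or.inl h)))
          · exact Or.inl (Or.inr (Or.inr (Or.inr h)))
        · rintro ((⟨h1, h2⟩ | ⟨h1, h2⟩ | h | h) | ⟨h1, h2⟩ | ⟨h1, h2⟩)
          · exact Or.inl ⟨h1, Or.inr h2⟩
          · exact Or.inr (Or.inl ⟨h1, Or.inr h2⟩)
          · exact Or.inr (Or.inr (Or.inl h))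
          · exact Or.inr (Or.inr (Or.inr h))
          · exact Or.inr (Or.inl ⟨h2, Or.inl h1⟩)
          · exact Or.inl ⟨h1, Or.inl h2⟩
    · rw [LF.ins, if_neg hvu]
      rcases hu with hu | hu | hu
      · exact absurd hu.symm hvu
      · have hur : u ∉ r.labs := fun h => hF2 u hu u h rfl
        obtain ⟨h1, h2, h3⟩ := ihc hFc hu hw.2.1
        rw [LF.ins_of_notMem hur]
        refine ⟨?_, rfl, fun a b => ?_⟩
        · simp only [LF.labs_cons]
          refine ((h1.append_right r.labs).cons v).trans ?_
          rw [List.cons_append]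
          exact List.Perm.swap w v _
        · rw [LF.E_cons, LF.E_cons, h2, h3]
          exact LFex_aux1 _ _ _ _ _
      · have huc : u ∉ c.labs := fun h => hF2 u h u hu rfl
        obtain ⟨h1, h2, h3⟩ := ihr hFr hu hw.2.2
        rw [LF.ins_of_notMem huc]
        refine ⟨?_, ?_, fun a b => ?_⟩
        · simp only [LF.labs_cons]
          refine ((h1.append_left c.labs).cons v).trans ?_
          refine (List.Perm.cons v List.perm_middle).trans ?_
          exact List.Perm.swap w v _
        · rw [LF.rts_cons, LF.rts_cons, h2]
        · rw [LF.E_cons, LF.E_cons, h3]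
          exact LFex_aux2 _ _ _ _ _

theorem LF.exists_LF [Fintype V] {G : SimpleGraph V} (hG : G.IsAcyclic) (s : Finset V) :
    ∃ F : LF V, F.labs.Nodup ∧ F.labs.toFinset = s ∧ ∀ a ∈ s, ∀ b ∈ s, (G.Adj a b ↔ F.E a b) := by
  induction hn : s.card generalizing s with
  | zero =>
    rw [Finset.card_eq_zero] at hn
    subst hn
    exact ⟨.nil, List.nodup_nil, rfl, fun a ha => absurd ha (Finset.notMem_empty a)⟩
  | succ n ih =>
    have hs : s.Nonempty := by
      rw [← Finset.card_pos]
      omega
    obtain ⟨w, hw, hleaf⟩ := exists_leaf hG hs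
    obtain ⟨F, hF1, hF2, hF3⟩ := ih (s.erase w) (by rw [Finset.card_erase_of_mem hw]; omega)
    have hmem : ∀ a, a ∈ F.labs ↔ a ∈ s.erase w := by
      intro a
      rw [← hF2, List.mem_toFinset]
    have hwF : w ∉ F.labs := fun h => Finset.notMem_erase w s ((hmem w).1 h)
    by_cases hnb : ∃ u ∈ s.erase w, G.Adj w u
    · obtain ⟨u, hu, hwu⟩ := hnb
      obtain ⟨h1, h2, h3⟩ := LF.ins_spec hF1 ((hmem u).2 hu) hwF
      have huw : u ≠ w := Finset.ne_of_mem_erase hu
      refine ⟨F.ins w u, ?_, ?_, fun a ha b hb => ?_⟩
      · rw [h1.nodup_iff, List.nodup_cons]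
        exact ⟨hwF, hF1⟩
      · rw [List.toFinset_eq_of_perm _ _ h1, List.toFinset_cons, hF2]
        exact Finset.insert_erase hw
      · rw [h3]
        by_cases haw : a = w
        · subst haw
          by_cases hba : b = a
          · subst hba
            constructor
            · intro h
              exact absurd h (G.irrefl)
            · rintro (h | ⟨-, h⟩ | ⟨h, -⟩)
              · exact absurd (LF.mem_labs_of_E h).1 hwF
              · exact absurd h.symm huw
              · exact absurd h.symm huw
          · constructor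
            · intro h
              exact Or.inr (Or.inl ⟨rfl, hleaf b hb u (Finset.mem_of_mem_erase hu) h hwu⟩)
            · rintro (h | ⟨-, h⟩ | ⟨h, -⟩)
              · exact absurd (LF.mem_labs_of_E h).1 hwF
              · rw [h]
                exact hwu
              · exact absurd h.symm huw
        · by_cases hbw : b = w
          · subst hbw
            constructor
            · intro h
              exact Or.inr (Or.inr ⟨hleaf a ha u (Finset.mem_of_mem_erase hu) h.symm hwu, rfl⟩)
            · rintro (h | ⟨h, -⟩ | ⟨h, -⟩)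
              · exact absurd (LF.mem_labs_of_E h).2 hwF
              · exact absurd h haw
              · rw [h]
                exact hwu.symm
          · rw [hF3 a (Finset.mem_erase.2 ⟨haw, ha⟩) b (Finset.mem_erase.2 ⟨hbw, hb⟩)]
            constructor
            · exact Or.inl
            · rintro (h | ⟨h, -⟩ | ⟨-, h⟩)
              · exact h
              · exact absurd h haw
              · exact absurd h hbw
    · push Not at hnb
      refine ⟨.cons w .nil F, ?_, ?_, fun a ha b hb => ?_⟩
      · rw [LF.labs_cons, LF.labs_nil, List.nil_append, List.nodup_cons]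
        exact ⟨hwF, hF1⟩
      · rw [LF.labs_cons, LF.labs_nil, List.nil_append, List.toFinset_cons, hF2]
        exact Finset.insert_erase hw
      · have hE : (LF.cons w .nil F).E a b ↔ F.E a b := by
          simp [LF.E_cons]
        rw [hE]
        by_cases haw : a = w
        · subst haw
          constructor
          · intro h
            have hba : b ≠ a := fun h' => by
              rw [h'] at h
              exact G.irrefl h
            exact absurd h (hnb b (Finset.mem_erase.2 ⟨hba, hb⟩))
          · intro h
            exact absurd (LF.mem_labs_of_E h).1 hwF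
        · by_cases hbw : b = w
          · subst hbw
            constructor
            · intro h
              exact absurd h.symm (hnb a (Finset.mem_erase.2 ⟨haw, ha⟩))
            · intro h
              exact absurd (LF.mem_labs_of_E h).2 hwF
          · exact hF3 a (Finset.mem_erase.2 ⟨haw, ha⟩) b (Finset.mem_erase.2 ⟨hbw, hb⟩)

end FU
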