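import Pool.Agent.Helper56.FU.LFsum
import Pool.Agent.Helper56.FU.LFex
import Pool.Agent.Helper56.FU.Ind

/-!
# FU-G05 The independence polynomial of a forest is `I`

TO PROVE (in place).  `LF.exists_LF` with `s = univ`; `labs.toFinset = univ`, so `ind G` is the filtered powerset of `LF.sum_eq`; the number of
labels is `card V` (`List.toFinset_card_of_nodup`, `LF.sz_toFo`).
-/

set_option autoImplicit false

namespace FU

variable {V : Type*} [Fintype V] [DecidableEq V]

theorem exists_Fo {G : SimpleGraph V} (hG : G.IsAcyclic) :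
    ∃ F : Fo, F.sz = Fintype.card V ∧
      Z G (Polynomial.X : Polynomial ℝ) = I (Polynomial.X : Polynomial ℝ) F := by
  classical
  obtain ⟨F, hF, hs, hE⟩ := LF.exists_LF hG Finset.univ
  refine ⟨F.toFo, ?_, ?_⟩
  · rw [LF.sz_toFo, ← List.toFinset_card_of_nodup hF, hs, Finset.card_univ]
  · rw [← (LF.sum_eq (Polynomial.X : Polynomial ℝ) F hF).1]
    unfold Z
    refine Finset.sum_congr ?_ fun _ _ => rfl
    ext S
    simp only [mem_ind, Finset.mem_filter, Finset.mem_powerset]
    constructor
    · intro h
      refine ⟨?_, fun a ha b hb hab => h a ha b hb ?_⟩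
      · rw [hs]
        exact Finset.subset_univ S
      · exact (hE a (Finset.mem_univ _) b (Finset.mem_univ _)).2 hab
    · rintro ⟨_, h⟩ a ha b hb hab
      exact h a ha b hb ((hE a (Finset.mem_univ _) b (Finset.mem_univ _)).1 hab)

end FU
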