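import Mathlib

/-!
# FU-B01 A lemma of complex analysis

`h u = f u - f (-u)` is holomorphic on the ball `B` of radius `U`, odd, `‖h u‖ ≤ 2 K ‖u‖^2`; hence
`h u = o(u^2)` at `0` and the Schwarz lemma of order three applies.
-/

set_option autoImplicit false

namespace FU

open Filter Topology Metric

theorem im_le {f : ℂ → ℂ} {K U : ℝ} (hU : 0 < U) (hK : 0 ≤ K)
    (hf : DifferentiableOn ℂ f (Metric.ball 0 U)) (hq : ∀ u ∈ Metric.ball (0 : ℂ) U, ‖f u‖ ≤ K * ‖u‖ ^ 2)
    (hc : ∀ u ∈ Metric.ball (0 : ℂ) U, f ((starRingEnd ℂ) u) = (starRingEnd ℂ) (f u)) {θ : ℝ}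
    (hθ : |θ| < U) : |(f ((θ : ℂ) * Complex.I)).im| ≤ K * |θ| ^ 3 / U := by
  set h : ℂ → ℂ := fun u => f u - f (-u) with hh
  have hneg : ∀ u ∈ ball (0 : ℂ) U, -u ∈ ball (0 : ℂ) U := by
    intro u hu; simpa using hu
  have hd : DifferentiableOn ℂ h (ball 0 U) :=
    hf.sub (hf.comp (differentiableOn_neg _) hneg)
  have h0 : h 0 = 0 := by simp [hh]
  have hb : ∀ u ∈ ball (0 : ℂ) U, ‖h u‖ ≤ 2 * K * ‖u‖ ^ 2 := by
    intro u hu
    have h1 := hq u hu
    have h2 := hq (-u) (hneg u hu)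
    rw [norm_neg] at h2
    calc ‖h u‖ ≤ ‖f u‖ + ‖f (-u)‖ := norm_sub_le _ _
      _ ≤ 2 * K * ‖u‖ ^ 2 := by linarith
  have hball : ball (0 : ℂ) U ∈ 𝓝 (0 : ℂ) := ball_mem_nhds _ hU
  have hodd : ∀ u, h (-u) = - h u := by intro u; simp [hh]
  -- first and second divided differences
  set h1 : ℂ → ℂ := dslope h 0 with hh1
  have hd1 : DifferentiableOn ℂ h1 (ball 0 U) := (Complex.differentiableOn_dslope hball).2 hd
  have e1 : ∀ u, h u = u * h1 u := by
    intro u
    have := sub_smul_dslope h 0 u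
    simp only [sub_zero, smul_eq_mul, h0] at this
    exact this.symm
  have c1 : ContinuousAt h1 0 := (hd1.differentiableAt hball).continuousAt
  have h10 : h1 0 = 0 := by
    have hle : ∀ u ∈ ball (0 : ℂ) U, u ≠ 0 → ‖h1 u‖ ≤ 2 * K * ‖u‖ := by
      intro u hu hu0
      have hb' := hb u hu
      rw [e1 u, norm_mul] at hb'
      have hpos : 0 < ‖u‖ := norm_pos_iff.2 hu0
      have : ‖u‖ * ‖h1 u‖ ≤ ‖u‖ * (2 * K * ‖u‖) := by nlinarith
      exact le_of_mul_le_mul_left this hpos
    have ht : Tendsto h1 (𝓝[≠] 0) (𝓝 0) := by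
      apply squeeze_zero_norm' (a := fun u : ℂ => 2 * K * ‖u‖)
      · filter_upwards [self_mem_nhdsWithin, nhdsWithin_le_nhds hball] with u hu hu'
        exact hle u hu' hu
      · have : Tendsto (fun u : ℂ => 2 * K * ‖u‖) (𝓝 0) (𝓝 (2 * K * ‖(0 : ℂ)‖)) :=
          (continuous_const.mul continuous_norm).tendsto 0
        simp only [norm_zero, mul_zero] at this
        exact this.mono_left nhdsWithin_le_nhds
    exact tendsto_nhds_unique (c1.tendsto.mono_left nhdsWithin_le_nhds) ht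
  set h2 : ℂ → ℂ := dslope h1 0 with hh2
  have hd2 : DifferentiableOn ℂ h2 (ball 0 U) := (Complex.differentiableOn_dslope hball).2 hd1
  have e2 : ∀ u, h u = u ^ 2 * h2 u := by
    intro u
    have := sub_smul_dslope h1 0 u
    simp only [sub_zero, smul_eq_mul, h10] at this
    rw [e1 u, ← this]; ring
  have c2 : ContinuousAt h2 0 := (hd2.differentiableAt hball).continuousAt
  have o2 : ∀ u, u ≠ 0 → h2 (-u) = - h2 u := by
    intro u hu
    have ha := e2 (-u)
    rw [hodd, e2 u, neg_sq] at ha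
    have hu2 : u ^ 2 ≠ 0 := pow_ne_zero _ hu
    have : u ^ 2 * (- h2 u) = u ^ 2 * h2 (-u) := by rw [← ha]; ring
    exact (mul_left_cancel₀ hu2 this).symm
  have h20 : h2 0 = 0 := by
    have t1 : Tendsto h2 (𝓝[≠] 0) (𝓝 (h2 0)) := c2.tendsto.mono_left nhdsWithin_le_nhds
    have t2 : Tendsto (fun u => h2 (-u)) (𝓝[≠] 0) (𝓝 (h2 0)) := by
      have hc' : ContinuousAt (fun u => h2 (-u)) 0 := by
        apply ContinuousAt.comp (g := h2) (f := fun u : ℂ => -u)
        · simpa using c2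
        · exact continuous_neg.continuousAt
      have := hc'.tendsto
      simp only [neg_zero] at this
      exact this.mono_left nhdsWithin_le_nhds
    have t3 : Tendsto (fun u => h2 (-u)) (𝓝[≠] 0) (𝓝 (- h2 0)) := by
      refine (t1.neg).congr' ?_
      filter_upwards [self_mem_nhdsWithin] with u hu
      exact (o2 u hu).symm
    have := tendsto_nhds_unique t2 t3
    have h3 : (2 : ℂ) * h2 0 = 0 := by linear_combination this
    simpa using h3
  have hlo : (fun w => h w - h 0) =o[𝓝 0] fun w : ℂ => ‖w - 0‖ ^ 2 := by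
    have ho : h2 =o[𝓝 0] fun _ : ℂ => (1 : ℝ) := by
      rw [Asymptotics.isLittleO_one_iff]
      have := c2.tendsto
      rwa [h20] at this
    have hO : (fun w : ℂ => w ^ 2) =O[𝓝 0] fun w : ℂ => ‖w - 0‖ ^ 2 := by
      refine Asymptotics.IsBigO.of_bound 1 (Eventually.of_forall fun w => ?_)
      simp
    have := hO.mul_isLittleO ho
    simp only [mul_one] at this
    refine this.congr_left fun w => ?_
    rw [h0, sub_zero, e2 w]
  set z : ℂ := (θ : ℂ) * Complex.I with hz
  have hzn : ‖z‖ = |θ| := by simp [hz]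
  have hzb : z ∈ ball (0 : ℂ) U := by simpa [hzn] using hθ
  have hmaps : Set.MapsTo h (ball 0 U) (closedBall (h 0) (2 * K * U ^ 2)) := by
    intro u hu
    rw [h0, mem_closedBall_zero_iff]
    refine (hb u hu).trans ?_
    have : ‖u‖ ≤ U := (mem_ball_zero_iff.1 hu).le
    gcongr
  have key := Complex.dist_le_mul_div_pow_of_mapsTo_ball_of_isLittleO (n := 2) hd hmaps hlo hzb
  rw [h0, dist_zero_right, dist_zero_right, hzn] at key
  have hconj : -z = (starRingEnd ℂ) z := by simp [hz]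
  have hhz : h z = 2 * (((f z).im : ℝ) : ℂ) * Complex.I := by
    simp only [hh]
    rw [hconj, hc z hzb, Complex.sub_conj]
    push_cast; ring
  have hnorm : ‖h z‖ = 2 * |(f z).im| := by
    rw [hhz]; simp
  rw [hnorm] at key
  have e3 : 2 * K * U ^ 2 * (|θ| / U) ^ (2 + 1) = 2 * (K * |θ| ^ 3 / U) := by
    rw [div_pow]; field_simp
  rw [e3] at key
  linarith

end FU
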