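import Pool.Agent.Helper56.FU.Ind

/-!
# FU-G06 Decomposition with respect to an independent set `A`

`av G A T` is the number of the vertices of `A` without neighbour in `T`.

TO PROVE (in place).
* `Z_deco`: an independent set `S` is the disjoint union of `T = S ∩ Aᶜ` (independent) and `S' = S ∩ A`, a subset of the set `A_T` of the
  vertices of `A` without neighbour in `T`; conversely all such unions are independent, since `A` is independent.  So
  `Z = ∑_T z^|T| ∑_{S' ⊆ A_T} z^|S'| = ∑_T z^|T| (1+z)^|A_T|` (`Finset.sum_pow_mul_eq_add_pow` or `Finset.prod_add`/`Finset.sum_pow_card...`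
  : `∑ S' ∈ A_T.powerset, z^S'.card = (1+z)^A_T.card`).
* `ZD_deco`: the same with the weight `|T| + |S'|`: `∑_{S' ⊆ A_T} |S'| x^|S'| = |A_T| x (1+x)^(|A_T|-1) = |A_T| (x/(1+x)) (1+x)^|A_T|`.
* `ind_compl_sum_le`: the subsets of `Aᶜ` which are independent are among all subsets of `Aᶜ`, so
  `∑_T y^|T| ≤ (1+y)^|Aᶜ|` for `y ≥ 0`.
-/

set_option autoImplicit false

namespace FU

variable {V : Type*} [Fintype V] [DecidableEq V]

open Classical in
/-- the number of vertices of `A` without neighbour in `T` -/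
noncomputable def av (G : SimpleGraph V) (A T : Finset V) : ℕ := (A.filter fun v => ∀ b ∈ T, ¬ G.Adj v b).card

open Classical in
/-- the independent subsets of the complement of `A` -/
noncomputable def indc (G : SimpleGraph V) (A : Finset V) : Finset (Finset V) := (ind G).filter fun T => T ⊆ Aᶜ

open Classical in
private theorem deco_gen {M : Type*} [AddCommMonoid M] (G : SimpleGraph V) {A : Finset V}
    (hA : A ∈ ind G) (f : Finset V → M) :
    ∑ S ∈ ind G, f S = ∑ T ∈ indc G A,
      ∑ S' ∈ (A.filter fun v => ∀ b ∈ T, ¬ G.Adj v b).powerset, f (T ∪ S') := by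
  have hA' : ∀ a ∈ A, ∀ b ∈ A, ¬ G.Adj a b := (Finset.mem_filter.1 hA).2
  rw [Finset.sum_sigma']
  refine Finset.sum_nbij' (fun S => ⟨S ∩ Aᶜ, S ∩ A⟩) (fun p => p.1 ∪ p.2) ?_ ?_ ?_ ?_ ?_
  · intro S hS
    have hS' : ∀ a ∈ S, ∀ b ∈ S, ¬ G.Adj a b := (Finset.mem_filter.1 hS).2
    rw [Finset.mem_sigma]
    refine ⟨?_, ?_⟩
    · refine Finset.mem_filter.2 ⟨Finset.mem_filter.2 ⟨Finset.mem_univ _, ?_⟩,
        Finset.inter_subset_right⟩
      intro a ha b hb
      exact hS' a (Finset.mem_inter.1 ha).1 b (Finset.mem_inter.1 hb).1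
    · rw [Finset.mem_powerset]
      intro v hv
      obtain ⟨h1, h2⟩ := Finset.mem_inter.1 hv
      refine Finset.mem_filter.2 ⟨h2, fun b hb => hS' v h1 b (Finset.mem_inter.1 hb).1⟩
  · rintro ⟨T, S'⟩ hp
    rw [Finset.mem_sigma] at hp
    obtain ⟨h1, h2⟩ := hp
    simp only at h1 h2
    obtain ⟨h3, h4⟩ := Finset.mem_filter.1 h1
    have h3' : ∀ a ∈ T, ∀ b ∈ T, ¬ G.Adj a b := (Finset.mem_filter.1 h3).2
    rw [Finset.mem_powerset] at h2
    refine Finset.mem_filter.2 ⟨Finset.mem_univ _, ?_⟩
    intro a ha b hb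
    rcases Finset.mem_union.1 ha with ha | ha <;> rcases Finset.mem_union.1 hb with hb | hb
    · exact h3' a ha b hb
    · exact fun h => (Finset.mem_filter.1 (h2 hb)).2 a ha h.symm
    · exact fun h => (Finset.mem_filter.1 (h2 ha)).2 b hb h
    · exact hA' a (Finset.mem_filter.1 (h2 ha)).1 b (Finset.mem_filter.1 (h2 hb)).1
  · intro S _
    simp only
    rw [← Finset.inter_union_distrib_left, Finset.union_comm, Finset.union_compl,
      Finset.inter_univ]
  · rintro ⟨T, S'⟩ hp
    rw [Finset.mem_sigma] at hp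
    obtain ⟨h1, h2⟩ := hp
    simp only at h1 h2
    have h4 : T ⊆ Aᶜ := (Finset.mem_filter.1 h1).2
    rw [Finset.mem_powerset] at h2
    have h5 : S' ⊆ A := h2.trans (Finset.filter_subset _ _)
    have e1 : (T ∪ S') ∩ Aᶜ = T := by
      ext v
      simp only [Finset.mem_inter, Finset.mem_union, Finset.mem_compl]
      constructor
      · rintro ⟨h | h, h'⟩
        · exact h
        · exact absurd (h5 h) h'
      · intro h
        exact ⟨Or.inl h, Finset.mem_compl.1 (h4 h)⟩
    have e2 : (T ∪ S') ∩ A = S' := by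
      ext v
      simp only [Finset.mem_inter, Finset.mem_union]
      constructor
      · rintro ⟨h | h, h'⟩
        · exact absurd h' (Finset.mem_compl.1 (h4 h))
        · exact h
      · intro h
        exact ⟨Or.inr h, h5 h⟩
    simp only [e1, e2]
  · intro S _
    simp only
    rw [← Finset.inter_union_distrib_left, Finset.union_comm, Finset.union_compl,
      Finset.inter_univ]

open Classical in
private theorem card_un {G : SimpleGraph V} {A T S' : Finset V} (hT : T ∈ indc G A)
    (hS : S' ∈ (A.filter fun v => ∀ b ∈ T, ¬ G.Adj v b).powerset) :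
    (T ∪ S').card = T.card + S'.card := by
  have h4 : T ⊆ Aᶜ := (Finset.mem_filter.1 hT).2
  rw [Finset.mem_powerset] at hS
  have h5 : S' ⊆ A := hS.trans (Finset.filter_subset _ _)
  refine Finset.card_union_of_disjoint ?_
  rw [Finset.disjoint_left]
  intro v h1 h2
  exact Finset.mem_compl.1 (h4 h1) (h5 h2)

private theorem pow_sum {R : Type*} [CommSemiring R] (s : Finset V) (z : R) :
    ∑ S ∈ s.powerset, z ^ S.card = (1 + z) ^ s.card := by
  rw [← Finset.prod_const, Finset.prod_one_add]
  refine Finset.sum_congr rfl fun S _ => ?_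
  rw [Finset.prod_const]

private theorem pow_sum' (s : Finset V) {x : ℝ} (hx : 0 < x) :
    ∑ S ∈ s.powerset, (S.card : ℝ) * x ^ S.card = x / (1 + x) * s.card * (1 + x) ^ s.card := by
  have hpos : (1 : ℝ) + x ≠ 0 := by positivity
  induction s using Finset.induction_on with
  | empty => simp
  | insert a s ha ih =>
    rw [Finset.sum_powerset_insert ha, ih, Finset.card_insert_of_notMem ha]
    have h1 : ∀ S ∈ s.powerset, ((insert a S).card : ℝ) * x ^ (insert a S).card
        = x * ((S.card : ℝ) * x ^ S.card) + x * x ^ S.card := by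
      intro S hS
      rw [Finset.card_insert_of_notMem (fun h => ha (Finset.mem_powerset.1 hS h))]
      push_cast
      ring
    rw [Finset.sum_congr rfl h1, Finset.sum_add_distrib, ← Finset.mul_sum, ← Finset.mul_sum, ih,
      pow_sum]
    push_cast
    field_simp
    ring

theorem Z_deco {R : Type*} [CommSemiring R] (G : SimpleGraph V) {A : Finset V} (hA : A ∈ ind G) (z : R) :
    Z G z = ∑ T ∈ indc G A, z ^ T.card * (1 + z) ^ av G A T := by
  classical
  unfold Z
  rw [deco_gen G hA]
  refine Finset.sum_congr rfl fun T hT => ?_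
  unfold av
  rw [← pow_sum, Finset.mul_sum]
  refine Finset.sum_congr ?_ fun S' hS => ?_
  · congr!
  · rw [card_un hT (by convert hS), pow_add]

theorem ZD_deco (G : SimpleGraph V) {A : Finset V} (hA : A ∈ ind G) {x : ℝ} (hx : 0 < x) :
    ZD G x = ∑ T ∈ indc G A, (x ^ T.card * (1 + x) ^ av G A T) * (T.card + x / (1 + x) * av G A T) := by
  classical
  unfold ZD
  rw [deco_gen G hA]
  refine Finset.sum_congr rfl fun T hT => ?_
  have h1 : ∀ S' ∈ (A.filter fun v => ∀ b ∈ T, ¬ G.Adj v b).powerset,
      ((T ∪ S').card : ℝ) * x ^ (T ∪ S').card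
        = x ^ T.card * T.card * x ^ S'.card + x ^ T.card * ((S'.card : ℝ) * x ^ S'.card) := by
    intro S' hS
    rw [card_un hT (by convert hS), pow_add]
    push_cast
    ring
  have h2 : av G A T = (A.filter fun v => ∀ b ∈ T, ¬ G.Adj v b).card := by
    unfold av; congr!
  rw [h2]
  have h3 := Finset.sum_congr (rfl : (A.filter fun v => ∀ b ∈ T, ¬ G.Adj v b).powerset = _) h1
  rw [Finset.sum_add_distrib, ← Finset.mul_sum, ← Finset.mul_sum, pow_sum, pow_sum' _ hx] at h3
  refine Eq.trans ?_ (h3.trans ?_)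
  · congr!
  · ring

theorem indc_sum_le (G : SimpleGraph V) (A : Finset V) {y : ℝ} (hy : 0 ≤ y) :
    ∑ T ∈ indc G A, y ^ T.card ≤ (1 + y) ^ (Aᶜ : Finset V).card := by
  rw [← pow_sum]
  refine Finset.sum_le_sum_of_subset_of_nonneg ?_ (fun _ _ _ => by positivity)
  intro T hT
  exact Finset.mem_powerset.2 (Finset.mem_filter.1 hT).2

theorem av_le (G : SimpleGraph V) (A T : Finset V) : av G A T ≤ A.card := by
  classical
  unfold av
  exact Finset.card_filter_le _ _

theorem empty_mem_indc (G : SimpleGraph V) (A : Finset V) : ∅ ∈ indc G A ∧ av G A ∅ = A.card := by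
  classical
  refine ⟨Finset.mem_filter.2 ⟨Finset.mem_filter.2 ⟨Finset.mem_univ _, ?_⟩,
    Finset.empty_subset _⟩, ?_⟩
  · intro a ha
    exact absurd ha (Finset.notMem_empty a)
  · unfold av
    rw [Finset.filter_true_of_mem]
    intro v _ b hb
    exact absurd hb (Finset.notMem_empty b)

end FU
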