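import Mathlib

/-!
# Independent sets in large forests: definitions

Rooted forests as binary trees: `nil` is the empty forest; `cons c r` is the forest whose first tree has a
root with the forest `c` of children (subtrees), and whose other trees are those of `r`.

All quantities below are defined by structural recursion.  `x` is a positive real activity.  For a vertex
with the forest `c` of children: `x * q x c` is the ratio (weight of the independent sets of the subtree with
the root occupied) / (weight of those with the root free), `p x c` is the probability that the root is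
occupied, `1 - d x c` is the derivative of the logarithm of this ratio with respect to `log x`.
-/

set_option autoImplicit false

namespace FU

/-- rooted forests -/
inductive Fo : Type
  | nil : Fo
  | cons : Fo → Fo → Fo

/-- the number of vertices -/
def Fo.sz : Fo → ℕ
  | .nil => 0
  | .cons c r => c.sz + r.sz + 1

/-- the independence polynomial of the forest and of the forest without its roots, at `z` -/
def IJ {R : Type*} [CommSemiring R] (z : R) : Fo → R × R
  | .nil => (1, 1)
  | .cons c r => (((IJ z c).1 + z * (IJ z c).2) * (IJ z r).1, (IJ z c).1 * (IJ z r).2)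

/-- the independence polynomial at `z` -/
def I {R : Type*} [CommSemiring R] (z : R) (F : Fo) : R := (IJ z F).1

/-- the independence polynomial of the forest without its roots, at `z` -/
def J {R : Type*} [CommSemiring R] (z : R) (F : Fo) : R := (IJ z F).2

section Lemmas

variable {R : Type*} [CommSemiring R] (z : R)

@[simp] theorem I_nil : I z .nil = 1 := rfl
@[simp] theorem J_nil : J z .nil = 1 := rfl
@[simp] theorem I_cons (c r : Fo) : I z (.cons c r) = (I z c + z * J z c) * I z r := rfl
@[simp] theorem J_cons (c r : Fo) : J z (.cons c r) = I z c * J z r := rfl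

theorem map_IJ {R' : Type*} [CommSemiring R'] (f : R →+* R') (F : Fo) :
    f (I z F) = I (f z) F ∧ f (J z F) = J (f z) F := by
  induction F with
  | nil => simp
  | cons c r ihc ihr => simp [ihc.1, ihc.2, ihr.1, ihr.2]

end Lemmas

/-- the ratio `J / I` at `x` -/
noncomputable def q (x : ℝ) : Fo → ℝ
  | .nil => 1
  | .cons c r => q x r / (1 + x * q x c)

/-- the probability that a vertex with children `c` is occupied, if its parent is free -/
noncomputable def p (x : ℝ) (c : Fo) : ℝ := x * q x c / (1 + x * q x c)

/-- sum over the roots of `p * (1 - d)` -/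
noncomputable def d (x : ℝ) : Fo → ℝ
  | .nil => 0
  | .cons c r => p x c * (1 - d x c) + d x r

/-- the mean number of vertices of a random independent set -/
noncomputable def mu (x : ℝ) : Fo → ℝ
  | .nil => 0
  | .cons c r => p x c * (1 - d x c) + mu x c + mu x r

/-- the exponent, bigger than `2` -/
noncomputable def rr : ℝ := 201 / 100

/-- a small number -/
noncomputable def ee : ℝ := 1 / 1000

/-- the weight of a vertex -/
noncomputable def phf (x q : ℝ) : ℝ :=
  (1 + ee) ^ rr * q ^ (-(rr * ee)) * (x * q * (2 + x * q) / (2 * (1 + x * q) ^ 2))

/-- the coefficient of a vertex in `H` -/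
noncomputable def aaf (x q : ℝ) : ℝ := (1 + ee) * (x * q / (1 + x * q)) * q ^ (-ee)

/-- the sum over the roots of `aaf * (1 + H)`; `1 + H x c` bounds the influence of a vertex with children `c` -/
noncomputable def H (x : ℝ) : Fo → ℝ
  | .nil => 0
  | .cons c r => aaf x (q x c) * (1 + H x c) + H x r

/-- the sum over the roots of `phf * (1 + H) ^ rr` -/
noncomputable def Y (x : ℝ) : Fo → ℝ
  | .nil => 0
  | .cons c r => phf x (q x c) * (1 + H x c) ^ rr + Y x r

/-- the sum over all vertices of `phf * (1 + H) ^ rr` -/
noncomputable def Tot (x : ℝ) : Fo → ℝ
  | .nil => 0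
  | .cons c r => phf x (q x c) * (1 + H x c) ^ rr + Tot x c + Tot x r

/-- `log (I / J)` at the activity `x * exp u`, minus its value at `x` -/
noncomputable def ell (x : ℝ) (u : ℂ) : Fo → ℂ
  | .nil => 0
  | .cons c r => Complex.log (1 + (p x c : ℂ) * (Complex.exp (u - ell x u c) - 1)) + ell x u r

/-- `log I` at the activity `x * exp u`, minus its value at `x` -/
noncomputable def Lam (x : ℝ) (u : ℂ) : Fo → ℂ
  | .nil => 0
  | .cons c r => Complex.log (1 + (p x c : ℂ) * (Complex.exp (u - ell x u c) - 1)) + Lam x u c + Lam x u r

/-- The radius `U` is admissible for forests with `x * sz ≤ N`. -/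
def Adm (N U : ℝ) : Prop := 0 < U ∧ 0 ≤ N ∧ U * (1 + (6000 * N) ^ (1 / rr)) ≤ 1 / 100000

section Graph

variable {V : Type*} [Fintype V] [DecidableEq V]

open Classical in
/-- the independent sets of `G` -/
noncomputable def ind (G : SimpleGraph V) : Finset (Finset V) :=
  Finset.univ.filter fun S => ∀ a ∈ S, ∀ b ∈ S, ¬ G.Adj a b

/-- the number of independent sets with `k` vertices -/
noncomputable def cf (G : SimpleGraph V) (k : ℕ) : ℕ := ((ind G).filter fun S => S.card = k).card

/-- the independence polynomial at `z` -/
noncomputable def Z {R : Type*} [CommSemiring R] (G : SimpleGraph V) (z : R) : R :=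
  ∑ S ∈ ind G, z ^ S.card

/-- the derivative of `Z` with respect to `log z` -/
noncomputable def ZD (G : SimpleGraph V) (x : ℝ) : ℝ := ∑ S ∈ ind G, (S.card : ℝ) * x ^ S.card

/-- the independence number -/
noncomputable def alp (G : SimpleGraph V) : ℕ := (ind G).sup Finset.card

end Graph

end FU
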