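import Pool.Agent.Helper56.FU.EllB

/-!
# FU-A10 `Lam` is holomorphic and real

TO PROVE (in place).  Structural induction for `ell` and for `Lam`.  By `vertex` the argument of the logarithm is `1 + w`,
`‖w‖ ≤ 1/2`, so it is in the slit plane (`Complex.mem_slitPlane_of_norm_lt_one`), the logarithm is differentiable there
(`DifferentiableAt.clog`) and commutes with the conjugation (`Complex.log_conj`, the argument is not `π`).
-/

set_option autoImplicit false

namespace FU

private theorem DL_c {x N : ℝ} (hx : 0 < x) {c r : Fo} (hN : x * (Fo.cons c r).sz ≤ N) :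
    x * c.sz ≤ N ∧ x * r.sz ≤ N := by
  have h1 : ((Fo.cons c r).sz : ℝ) = c.sz + r.sz + 1 := by
    simp [Fo.sz]
  rw [h1] at hN
  have hc : (0 : ℝ) ≤ c.sz := Nat.cast_nonneg _
  have hr : (0 : ℝ) ≤ r.sz := Nat.cast_nonneg _
  constructor
  · refine le_trans (mul_le_mul_of_nonneg_left ?_ hx.le) hN
    linarith
  · refine le_trans (mul_le_mul_of_nonneg_left ?_ hx.le) hN
    linarith

private theorem DL_slit {x N U : ℝ} (hx : 0 < x) (hx1 : x ≤ 73 / 10) (hA : Adm N U) {u : ℂ}
    (hu : ‖u‖ ≤ U) (c : Fo) (hN : x * c.sz ≤ N) :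
    1 + (p x c : ℂ) * (Complex.exp (u - ell x u c) - 1) ∈ Complex.slitPlane := by
  refine Complex.mem_slitPlane_of_norm_lt_one ?_
  have := (vertex hx hx1 hA hu c hN).1
  linarith

private theorem DL_ell {x N U : ℝ} (hx : 0 < x) (hx1 : x ≤ 73 / 10) (hA : Adm N U)
    (F : Fo) (hN : x * F.sz ≤ N) : DifferentiableOn ℂ (fun u => ell x u F) (Metric.ball 0 U) := by
  induction F with
  | nil => exact differentiableOn_const 0
  | cons c r ihc ihr =>
    obtain ⟨h1, h2⟩ := DL_c hx hN
    have h3 : DifferentiableOn ℂ (fun u => 1 + (p x c : ℂ) * (Complex.exp (u - ell x u c) - 1))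
        (Metric.ball 0 U) :=
      (((differentiableOn_id.sub (ihc h1)).cexp.sub_const 1).const_mul _).const_add 1
    refine DifferentiableOn.add (h3.clog fun u hu => ?_) (ihr h2)
    exact DL_slit hx hx1 hA (mem_ball_zero_iff.1 hu).le c h1

private theorem DL_arg {z : ℂ} (h : z ∈ Complex.slitPlane) :
    Complex.log ((starRingEnd ℂ) z) = (starRingEnd ℂ) (Complex.log z) :=
  Complex.log_conj z (Complex.mem_slitPlane_iff_arg.1 h).1

private theorem DL_conj1 (x : ℝ) (u : ℂ) (c : Fo)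
    (h : ell x ((starRingEnd ℂ) u) c = (starRingEnd ℂ) (ell x u c)) :
    1 + (p x c : ℂ) * (Complex.exp ((starRingEnd ℂ) u - ell x ((starRingEnd ℂ) u) c) - 1) =
      (starRingEnd ℂ) (1 + (p x c : ℂ) * (Complex.exp (u - ell x u c) - 1)) := by
  rw [h, map_add, map_mul, map_sub, map_one, Complex.conj_ofReal, ← Complex.exp_conj, map_sub]

private theorem DL_ellc {x N U : ℝ} (hx : 0 < x) (hx1 : x ≤ 73 / 10) (hA : Adm N U) {u : ℂ}
    (hu : ‖u‖ ≤ U) (F : Fo) (hN : x * F.sz ≤ N) :
    ell x ((starRingEnd ℂ) u) F = (starRingEnd ℂ) (ell x u F) := by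
  induction F with
  | nil => simp [ell]
  | cons c r ihc ihr =>
    obtain ⟨h1, h2⟩ := DL_c hx hN
    simp only [ell]
    rw [DL_conj1 x u c (ihc h1), DL_arg (DL_slit hx hx1 hA hu c h1), ihr h2, map_add]

theorem differentiableOn_Lam {x N U : ℝ} (hx : 0 < x) (hx1 : x ≤ 73 / 10) (hA : Adm N U)
    (F : Fo) (hN : x * F.sz ≤ N) : DifferentiableOn ℂ (fun u => Lam x u F) (Metric.ball 0 U) := by
  induction F with
  | nil => exact differentiableOn_const 0
  | cons c r ihc ihr =>
    obtain ⟨h1, h2⟩ := DL_c hx hN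
    have h3 : DifferentiableOn ℂ (fun u => 1 + (p x c : ℂ) * (Complex.exp (u - ell x u c) - 1))
        (Metric.ball 0 U) :=
      (((differentiableOn_id.sub (DL_ell hx hx1 hA c h1)).cexp.sub_const 1).const_mul _).const_add 1
    refine DifferentiableOn.add (DifferentiableOn.add (h3.clog fun u hu => ?_) (ihc h1)) (ihr h2)
    exact DL_slit hx hx1 hA (mem_ball_zero_iff.1 hu).le c h1

theorem Lam_conj {x N U : ℝ} (hx : 0 < x) (hx1 : x ≤ 73 / 10) (hA : Adm N U) {u : ℂ} (hu : ‖u‖ ≤ U)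
    (F : Fo) (hN : x * F.sz ≤ N) :
    Lam x ((starRingEnd ℂ) u) F = (starRingEnd ℂ) (Lam x u F) := by
  induction F with
  | nil => simp [Lam]
  | cons c r ihc ihr =>
    obtain ⟨h1, h2⟩ := DL_c hx hN
    simp only [Lam]
    rw [DL_conj1 x u c (DL_ellc hx hx1 hA hu c h1), DL_arg (DL_slit hx hx1 hA hu c h1), ihc h1,
      ihr h2, map_add, map_add]

end FU
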