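import Pool.Agent.Helper56.FU.Pot

/-!
# FU-A06 The estimates at one vertex

`R = x q`, `P = R / (1 + R)`, `L = -log q ≥ 0`, `e' = 1/100000`, `t = ‖δ‖ ≤ e' (1 + L)`, `w = P (exp δ - 1)`.
-/

set_option autoImplicit false

namespace FU

theorem oneV {x q : ℝ} (hx : 0 < x) (hx1 : x ≤ 73 / 10) (hq : 0 < q) (hq1 : q ≤ 1) {δ : ℂ}
    (hδ : ‖δ‖ ≤ 1 / 100000 * (1 + -Real.log q)) :
    ‖((x * q / (1 + x * q) : ℝ) : ℂ) * (Complex.exp δ - 1)‖ ≤ 1 / 2 ∧
    ‖Complex.log (1 + ((x * q / (1 + x * q) : ℝ) : ℂ) * (Complex.exp δ - 1))‖ ≤ aaf x q * ‖δ‖ ∧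
    ‖Complex.log (1 + ((x * q / (1 + x * q) : ℝ) : ℂ) * (Complex.exp δ - 1)) -
      ((x * q / (1 + x * q) : ℝ) : ℂ) * δ‖ ≤ 8 * phf x q * ‖δ‖ ^ 2 := by
  have hR : 0 < x * q := mul_pos hx hq
  set P : ℝ := x * q / (1 + x * q) with hP
  have hP0 : 0 < P := by positivity
  have hP1 : P ≤ 1 := by rw [hP, div_le_one (by positivity)]; linarith
  have hPR : P ≤ 73 / 10 * q := by
    calc P ≤ x * q := by
          rw [hP]; exact div_le_self hR.le (by linarith)
      _ ≤ 73 / 10 * q := by gcongr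
  set L : ℝ := -Real.log q with hL
  have hL0 : 0 ≤ L := by rw [hL]; linarith [Real.log_nonpos hq.le hq1]
  have hqL : q = Real.exp (-L) := by rw [hL, neg_neg, Real.exp_log hq]
  set t : ℝ := ‖δ‖ with ht
  have ht0 : 0 ≤ t := norm_nonneg _
  -- exponential estimates
  have hE1 : ‖Complex.exp δ - 1‖ ≤ t * Real.exp t := by
    have := Complex.norm_exp_sub_sum_le_norm_mul_exp δ 1
    simpa using this
  have hE2 : ‖Complex.exp δ - 1 - δ‖ ≤ t ^ 2 * Real.exp t := by
    have := Complex.norm_exp_sub_sum_le_norm_mul_exp δ 2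
    simpa [Finset.sum_range_succ, sub_sub] using this
  have hexp : Real.exp t ≤ Real.exp (1 / 100000) * Real.exp (1 / 100000 * L) := by
    rw [← Real.exp_add]
    apply Real.exp_le_exp.2; linarith
  have he' : Real.exp (1 / 100000) ≤ 1 + 1 / 50000 := by
    have h := Real.exp_bound' (x := 1 / 100000) (by norm_num) (by norm_num) (n := 2) (by norm_num)
    refine h.trans ?_
    norm_num [Finset.sum_range_succ, Nat.factorial]
  -- bound for the norm of `w`
  set w : ℂ := (P : ℂ) * (Complex.exp δ - 1) with hw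
  have hwn : ‖w‖ ≤ P * (t * Real.exp t) := by
    rw [hw, norm_mul, Complex.norm_real, Real.norm_of_nonneg hP0.le]
    gcongr
  have hLexp : (1 + L) * Real.exp (-((1 - 1 / 100000) * L)) ≤ 2 := by
    have h1 : 1 + L ≤ 2 * Real.exp (L / 2) := by
      have := Real.add_one_le_exp (L / 2)
      linarith
    calc (1 + L) * Real.exp (-((1 - 1 / 100000) * L))
        ≤ 2 * Real.exp (L / 2) * Real.exp (-((1 - 1 / 100000) * L)) := by gcongr
      _ = 2 * Real.exp (L / 2 + -((1 - 1 / 100000) * L)) := by rw [mul_assoc, ← Real.exp_add]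
      _ ≤ 2 * 1 := by
          gcongr
          apply Real.exp_le_one_iff.2; nlinarith
      _ = 2 := by norm_num
  have hw1 : ‖w‖ ≤ 1 / 5000 := by
    calc ‖w‖ ≤ P * (t * Real.exp t) := hwn
      _ ≤ (73 / 10 * q) * ((1 / 100000 * (1 + L)) *
            (Real.exp (1 / 100000) * Real.exp (1 / 100000 * L))) := by gcongr
      _ = 73 / 1000000 * Real.exp (1 / 100000) *
            ((1 + L) * (q * Real.exp (1 / 100000 * L))) := by ring
      _ = 73 / 1000000 * Real.exp (1 / 100000) *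
            ((1 + L) * Real.exp (-((1 - 1 / 100000) * L))) := by
          congr 2
          rw [hqL, ← Real.exp_add]; congr 1; ring
      _ ≤ 73 / 1000000 * (1 + 1 / 50000) * 2 := by gcongr
      _ ≤ 1 / 5000 := by norm_num
  have hw2 : ‖w‖ < 1 := by linarith
  have hinv : (1 - ‖w‖)⁻¹ ≤ 2 := by
    rw [inv_le_comm₀ (by linarith) (by norm_num)]; linarith
  have hwn0 : 0 ≤ ‖w‖ := norm_nonneg _
  have hwsq : ‖w‖ ^ 2 * (1 - ‖w‖)⁻¹ / 2 ≤ ‖w‖ ^ 2 := by
    have : ‖w‖ ^ 2 * (1 - ‖w‖)⁻¹ ≤ ‖w‖ ^ 2 * 2 := by gcongr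
    linarith
  have hlog2 : ‖Complex.log (1 + w) - w‖ ≤ ‖w‖ ^ 2 :=
    (Complex.norm_log_one_add_sub_self_le hw2).trans hwsq
  have hlog1 : ‖Complex.log (1 + w)‖ ≤ ‖w‖ * (1 + 1 / 5000) := by
    have h := Complex.norm_log_one_add_le hw2
    nlinarith
  -- powers of `q`
  have hqe : Real.exp (1 / 100000 * L) ≤ q ^ (-ee) := by
    rw [Real.rpow_def_of_pos hq]
    apply Real.exp_le_exp.2
    have : Real.log q = -L := by rw [hL]; ring
    rw [this, ee]; nlinarith
  have hqe2 : Real.exp (1 / 100000 * L) * Real.exp (1 / 100000 * L) ≤ q ^ (-(rr * ee)) := by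
    rw [← Real.exp_add, Real.rpow_def_of_pos hq]
    apply Real.exp_le_exp.2
    have : Real.log q = -L := by rw [hL]; ring
    rw [this, ee, rr]; nlinarith
  have hq0 : 0 ≤ q ^ (-ee) := Real.rpow_nonneg hq.le _
  refine ⟨by linarith, ?_, ?_⟩
  · calc ‖Complex.log (1 + w)‖ ≤ ‖w‖ * (1 + 1 / 5000) := hlog1
      _ ≤ (P * (t * (Real.exp (1 / 100000) * Real.exp (1 / 100000 * L)))) * (1 + 1 / 5000) := by
          gcongr
          exact hwn.trans (by gcongr)
      _ ≤ (P * (t * ((1 + 1 / 50000) * q ^ (-ee)))) * (1 + 1 / 5000) := by gcongr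
      _ = (1 + 1 / 50000) * (1 + 1 / 5000) * (P * q ^ (-ee) * t) := by ring
      _ ≤ (1 + ee) * (P * q ^ (-ee) * t) := by
          have h1 : (1 + 1 / 50000) * (1 + 1 / 5000) ≤ 1 + ee := by rw [ee]; norm_num
          gcongr
      _ = aaf x q * t := by rw [aaf, ← hP]; ring
  · have hsplit : Complex.log (1 + w) - (P : ℂ) * δ =
        (Complex.log (1 + w) - w) + (P : ℂ) * (Complex.exp δ - 1 - δ) := by rw [hw]; ring
    have h2 : ‖(P : ℂ) * (Complex.exp δ - 1 - δ)‖ ≤ P * (t ^ 2 * Real.exp t) := by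
      rw [norm_mul, Complex.norm_real, Real.norm_of_nonneg hP0.le]
      gcongr
    have hexp1 : 1 ≤ Real.exp t := Real.one_le_exp ht0
    have hexpsq : Real.exp t * Real.exp t ≤ 2 * q ^ (-(rr * ee)) := by
      calc Real.exp t * Real.exp t
          ≤ (Real.exp (1 / 100000) * Real.exp (1 / 100000 * L)) *
            (Real.exp (1 / 100000) * Real.exp (1 / 100000 * L)) := by gcongr
        _ = Real.exp (1 / 100000) * Real.exp (1 / 100000) *
            (Real.exp (1 / 100000 * L) * Real.exp (1 / 100000 * L)) := by ring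
        _ ≤ ((1 + 1 / 50000) * (1 + 1 / 50000)) * q ^ (-(rr * ee)) := by gcongr
        _ ≤ 2 * q ^ (-(rr * ee)) := by
            have : 0 ≤ q ^ (-(rr * ee)) := Real.rpow_nonneg hq.le _
            have h2 : (1 + 1 / 50000 : ℝ) * (1 + 1 / 50000) ≤ 2 := by norm_num
            exact mul_le_mul_of_nonneg_right h2 this
    have h3 : ‖w‖ ^ 2 ≤ P * t ^ 2 * (Real.exp t * Real.exp t) := by
      calc ‖w‖ ^ 2 ≤ (P * (t * Real.exp t)) ^ 2 := by gcongr
        _ = P * (P * t ^ 2 * (Real.exp t * Real.exp t)) := by ring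
        _ ≤ 1 * (P * t ^ 2 * (Real.exp t * Real.exp t)) := by gcongr
        _ = P * t ^ 2 * (Real.exp t * Real.exp t) := one_mul _
    have h4 : P * (t ^ 2 * Real.exp t) ≤ P * t ^ 2 * (Real.exp t * Real.exp t) := by
      have : Real.exp t ≤ Real.exp t * Real.exp t := le_mul_of_one_le_left (Real.exp_pos t).le hexp1
      calc P * (t ^ 2 * Real.exp t) = P * t ^ 2 * Real.exp t := by ring
        _ ≤ P * t ^ 2 * (Real.exp t * Real.exp t) := by gcongr
    have hphf := le_two_phf hx hq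
    rw [← hP] at hphf
    calc ‖Complex.log (1 + w) - (P : ℂ) * δ‖
        ≤ ‖Complex.log (1 + w) - w‖ + ‖(P : ℂ) * (Complex.exp δ - 1 - δ)‖ := by
          rw [hsplit]; exact norm_add_le _ _
      _ ≤ P * t ^ 2 * (Real.exp t * Real.exp t) + P * t ^ 2 * (Real.exp t * Real.exp t) := by
          gcongr
          · exact hlog2.trans h3
          · exact h2.trans h4
      _ = 2 * (P * t ^ 2) * (Real.exp t * Real.exp t) := by ring
      _ ≤ 2 * (P * t ^ 2) * (2 * q ^ (-(rr * ee))) := by gcongr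
      _ = 4 * (q ^ (-(rr * ee)) * P) * t ^ 2 := by ring
      _ ≤ 4 * (2 * phf x q) * t ^ 2 := by gcongr
      _ = 8 * phf x q * t ^ 2 := by ring

end FU
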