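import Pool.Agent.Helper56.FU.TotB
import Pool.Agent.Helper56.FU.OneV

/-!
# FU-A07 First order bound for `ell`

TO PROVE (in place).

`ell_le` by structural induction on `F` (`x * c.sz ≤ x * (cons c r).sz ≤ N`, same for `r`).  For `cons c r`:
`δ = u - ell x u c` satisfies `‖δ‖ ≤ ‖u‖ + ‖u‖ * H x c = ‖u‖ (1 + H x c)` (induction), and by `H_le` and `Adm`
`‖u‖ (1 + H x c) ≤ U (1 + (1 + L) (6000 N)^(1/rr)) ≤ U (1 + (6000 N)^(1/rr)) (1 + L) ≤ (1/100000) (1 + L)`, `L = -log (q x c) ≥ 0`.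
So `oneV` (with `p x c = x q / (1 + x q)` by definition) gives
`‖log (1 + p (exp δ - 1))‖ ≤ aaf x (q x c) * ‖u‖ (1 + H x c)`; add the induction hypothesis for `r`.
`del_le` is the intermediate step.  `vertex` is `oneV` for `δ = u - ell x u c`.
-/

set_option autoImplicit false

namespace FU

theorem ellB_del {x N U : ℝ} (hx : 0 < x) (hx1 : x ≤ 73 / 10) (hA : Adm N U) {u : ℂ}
    (hu : ‖u‖ ≤ U) (F : Fo) (hN : x * F.sz ≤ N) (hell : ‖ell x u F‖ ≤ ‖u‖ * H x F) :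
    ‖u - ell x u F‖ ≤ ‖u‖ * (1 + H x F) ∧
      ‖u - ell x u F‖ ≤ 1 / 100000 * (1 + -Real.log (q x F)) := by
  obtain ⟨hU, hN0, hA1⟩ := hA
  have h1 : ‖u - ell x u F‖ ≤ ‖u‖ * (1 + H x F) := by
    have h2 := norm_sub_le u (ell x u F)
    have h3 : ‖u‖ * (1 + H x F) = ‖u‖ + ‖u‖ * H x F := by ring
    rw [h3]
    linarith
  refine ⟨h1, h1.trans ?_⟩
  have hL := neg_log_q_nonneg hx F
  have hH := H_le hx hx1 F hN
  have hH0 := H_nonneg hx F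
  set L := -Real.log (q x F) with hLdef
  have hT : 0 ≤ (6000 * N) ^ (1 / rr) := Real.rpow_nonneg (by positivity) _
  set T := (6000 * N) ^ (1 / rr) with hTdef
  have h4 : 1 + H x F ≤ (1 + T) * (1 + L) := by nlinarith
  calc ‖u‖ * (1 + H x F) ≤ U * ((1 + T) * (1 + L)) :=
        mul_le_mul hu h4 (by linarith) hU.le
    _ = U * (1 + T) * (1 + L) := by ring
    _ ≤ 1 / 100000 * (1 + L) := mul_le_mul_of_nonneg_right hA1 (by linarith)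

theorem ellB_sz {x N : ℝ} (hx : 0 < x) {c r : Fo} (hN : x * (Fo.cons c r).sz ≤ N) :
    x * c.sz ≤ N ∧ x * r.sz ≤ N := by
  have h1 : ((Fo.cons c r).sz : ℝ) = c.sz + r.sz + 1 := by
    change ((c.sz + r.sz + 1 : ℕ) : ℝ) = _
    push_cast
    ring
  rw [h1] at hN
  have h2 : (0 : ℝ) ≤ c.sz := Nat.cast_nonneg _
  have h3 : (0 : ℝ) ≤ r.sz := Nat.cast_nonneg _
  constructor <;> nlinarith

theorem ell_le {x N U : ℝ} (hx : 0 < x) (hx1 : x ≤ 73 / 10) (hA : Adm N U) {u : ℂ} (hu : ‖u‖ ≤ U)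
    (F : Fo) (hN : x * F.sz ≤ N) : ‖ell x u F‖ ≤ ‖u‖ * H x F := by
  induction F with
  | nil =>
    change ‖(0 : ℂ)‖ ≤ ‖u‖ * 0
    simp
  | cons c r ihc ihr =>
    obtain ⟨hc, hr⟩ := ellB_sz hx hN
    obtain ⟨h1, h2⟩ := ellB_del hx hx1 hA hu c hc (ihc hc)
    obtain ⟨-, h3, -⟩ := oneV hx hx1 (q_pos hx c) (q_le_one hx c) h2
    change ‖Complex.log (1 + (p x c : ℂ) * (Complex.exp (u - ell x u c) - 1)) + ell x u r‖ ≤
      ‖u‖ * (aaf x (q x c) * (1 + H x c) + H x r)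
    refine (norm_add_le _ _).trans ?_
    have h4 : aaf x (q x c) * ‖u - ell x u c‖ ≤ aaf x (q x c) * (‖u‖ * (1 + H x c)) :=
      mul_le_mul_of_nonneg_left h1 (aaf_nonneg hx (q_pos hx c))
    have h5 := ihr hr
    have h6 : ‖Complex.log (1 + (p x c : ℂ) * (Complex.exp (u - ell x u c) - 1))‖ ≤
        aaf x (q x c) * ‖u - ell x u c‖ := h3
    calc _ ≤ aaf x (q x c) * (‖u‖ * (1 + H x c)) + ‖u‖ * H x r := add_le_add (h6.trans h4) h5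
      _ = _ := by ring

theorem del_le {x N U : ℝ} (hx : 0 < x) (hx1 : x ≤ 73 / 10) (hA : Adm N U) {u : ℂ} (hu : ‖u‖ ≤ U)
    (F : Fo) (hN : x * F.sz ≤ N) :
    ‖u - ell x u F‖ ≤ ‖u‖ * (1 + H x F) ∧
      ‖u - ell x u F‖ ≤ 1 / 100000 * (1 + -Real.log (q x F)) :=
  ellB_del hx hx1 hA hu F hN (ell_le hx hx1 hA hu F hN)

theorem vertex {x N U : ℝ} (hx : 0 < x) (hx1 : x ≤ 73 / 10) (hA : Adm N U) {u : ℂ} (hu : ‖u‖ ≤ U)
    (c : Fo) (hN : x * c.sz ≤ N) :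
    ‖(p x c : ℂ) * (Complex.exp (u - ell x u c) - 1)‖ ≤ 1 / 2 ∧
    ‖Complex.log (1 + (p x c : ℂ) * (Complex.exp (u - ell x u c) - 1)) - (p x c : ℂ) * (u - ell x u c)‖ ≤
      8 * phf x (q x c) * (‖u‖ * (1 + H x c)) ^ 2 := by
  obtain ⟨h1, h2⟩ := del_le hx hx1 hA hu c hN
  obtain ⟨h3, -, h4⟩ := oneV hx hx1 (q_pos hx c) (q_le_one hx c) h2
  refine ⟨h3, le_trans h4 ?_⟩
  have h5 : ‖u - ell x u c‖ ^ 2 ≤ (‖u‖ * (1 + H x c)) ^ 2 :=
    pow_le_pow_left₀ (norm_nonneg _) h1 2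
  exact mul_le_mul_of_nonneg_left h5
    (mul_nonneg (by norm_num) (phf_nonneg hx (q_pos hx c)))

end FU
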