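import Pool.Agent.Helper56.FU.EllB

/-!
# FU-A09 `exp Lam` is the quotient of the partition functions

TO PROVE (in place).  By structural induction prove both
`I x F * exp (Lam x u F) = I (x exp u) F` and `J x F * exp (Lam x u F - ell x u F) = J (x exp u) F` (complex numbers).
For `cons c r`, with `E = exp (u - ell x u c)`, `R = x q x c`, `p = R/(1+R)`:
`I (x e^u) c + x e^u J (x e^u) c = I x c exp (Lam c) + x e^u J x c exp (Lam c - ell c)
 = I x c exp (Lam c) (1 + R E)` (`J_eq`), `1 + R E = (1 + R) (1 + p (E - 1))`, and `1 + p (E-1) = exp (log (...))` since it is not zero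
(`vertex`: the norm of `p (E - 1)` is `≤ 1/2`), `I x c (1 + R) = I x c + x J x c`.
The casts: `I (x : ℂ) F = ((I x F : ℝ) : ℂ)` by `map_IJ` with `Complex.ofRealHom`.
-/

set_option autoImplicit false

namespace FU

theorem I_ofReal (x : ℝ) (F : Fo) : I (x : ℂ) F = ((I x F : ℝ) : ℂ) ∧ J (x : ℂ) F = ((J x F : ℝ) : ℂ) := by
  have h := map_IJ x Complex.ofRealHom F
  exact ⟨h.1.symm, h.2.symm⟩

private theorem both {x N U : ℝ} (hx : 0 < x) (hx1 : x ≤ 73 / 10) (hA : Adm N U) {u : ℂ} (hu : ‖u‖ ≤ U)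
    (F : Fo) (hN : x * F.sz ≤ N) :
    ((I x F : ℝ) : ℂ) * Complex.exp (Lam x u F) = I ((x : ℂ) * Complex.exp u) F ∧
    ((J x F : ℝ) : ℂ) * Complex.exp (Lam x u F - ell x u F) = J ((x : ℂ) * Complex.exp u) F := by
  induction F with
  | nil => simp [Lam, ell]
  | cons c r ihc ihr =>
    have hsz : ((Fo.cons c r).sz : ℝ) = c.sz + r.sz + 1 := by
      simp [Fo.sz]
    have hc0 : (0 : ℝ) ≤ c.sz := by positivity
    have hr0 : (0 : ℝ) ≤ r.sz := by positivity
    rw [hsz] at hN
    have hNc : x * c.sz ≤ N := by nlinarith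
    have hNr : x * r.sz ≤ N := by nlinarith
    obtain ⟨hIc, hJc⟩ := ihc hNc
    obtain ⟨hIr, hJr⟩ := ihr hNr
    obtain ⟨hv, -⟩ := vertex hx hx1 hA hu c hNc
    set w : ℂ := (p x c : ℂ) * (Complex.exp (u - ell x u c) - 1) with hw
    have hne : 1 + w ≠ 0 := by
      intro h0
      have : w = -1 := by linear_combination h0
      rw [this] at hv
      norm_num at hv
    have hexp : Complex.exp (Complex.log (1 + w)) = 1 + w := Complex.exp_log hne
    have hq : 0 < q x c := q_pos hx c
    have hR : (0 : ℝ) < 1 + x * q x c := by positivity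
    have hRc : ((1 + x * q x c : ℝ) : ℂ) ≠ 0 := by
      exact_mod_cast hR.ne'
    have hp : (p x c : ℂ) * ((1 + x * q x c : ℝ) : ℂ) = ((x * q x c : ℝ) : ℂ) := by
      rw [← Complex.ofReal_mul]
      congr 1
      unfold p
      field_simp
    have hJe : ((J x c : ℝ) : ℂ) = ((q x c : ℝ) : ℂ) * ((I x c : ℝ) : ℂ) := by
      rw [J_eq hx c]; push_cast; ring
    have hLam : Lam x u (.cons c r) = Complex.log (1 + w) + Lam x u c + Lam x u r := rfl
    have hell : ell x u (.cons c r) = Complex.log (1 + w) + ell x u r := rfl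
    constructor
    · rw [hLam, Complex.exp_add, Complex.exp_add, hexp, I_cons, I_cons, ← hIc, ← hJc, ← hIr,
        Complex.exp_sub]
      have hEu : Complex.exp u = Complex.exp (u - ell x u c) * Complex.exp (ell x u c) := by
        rw [← Complex.exp_add]; congr 1; ring
      have hel : Complex.exp (ell x u c) ≠ 0 := Complex.exp_ne_zero _
      have hkey : (((I x c + x * J x c : ℝ)) : ℂ) * (1 + w) =
          ((I x c : ℝ) : ℂ) + (x : ℂ) * Complex.exp (u - ell x u c) * ((J x c : ℝ) : ℂ) := by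
        have h1 : (((I x c + x * J x c : ℝ)) : ℂ) = ((I x c : ℝ) : ℂ) * ((1 + x * q x c : ℝ) : ℂ) := by
          rw [J_eq hx c]; push_cast; ring
        rw [h1, hJe, hw]
        have h2 : ((I x c : ℝ) : ℂ) * ((1 + x * q x c : ℝ) : ℂ) *
            (1 + (p x c : ℂ) * (Complex.exp (u - ell x u c) - 1)) =
            ((I x c : ℝ) : ℂ) * (((1 + x * q x c : ℝ) : ℂ) +
              ((p x c : ℂ) * ((1 + x * q x c : ℝ) : ℂ)) * (Complex.exp (u - ell x u c) - 1)) := by
          ring
        rw [h2, hp]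
        push_cast
        ring
      have h3 : ((I x c : ℝ) : ℂ) * Complex.exp (Lam x u c) + (x : ℂ) * Complex.exp u *
          (((J x c : ℝ) : ℂ) * (Complex.exp (Lam x u c) / Complex.exp (ell x u c))) =
          (((I x c : ℝ) : ℂ) + (x : ℂ) * Complex.exp (u - ell x u c) * ((J x c : ℝ) : ℂ)) *
            Complex.exp (Lam x u c) := by
        rw [hEu]
        field_simp
      rw [h3, ← hkey]
      push_cast
      ring
    · rw [hLam, hell, J_cons, J_cons, ← hIc, ← hJr]
      have h4 : Complex.log (1 + w) + Lam x u c + Lam x u r - (Complex.log (1 + w) + ell x u r) =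
          Lam x u c + (Lam x u r - ell x u r) := by ring
      rw [h4, Complex.exp_add]
      push_cast
      ring

theorem exp_Lam {x N U : ℝ} (hx : 0 < x) (hx1 : x ≤ 73 / 10) (hA : Adm N U) {u : ℂ} (hu : ‖u‖ ≤ U)
    (F : Fo) (hN : x * F.sz ≤ N) :
    ((I x F : ℝ) : ℂ) * Complex.exp (Lam x u F) = I ((x : ℂ) * Complex.exp u) F :=
  (both hx hx1 hA hu F hN).1

end FU
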