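import Mathlib

/-!
# FU-B02 The Fourier integral of the second difference

TO PROVE (in place).  `P = ∑ a_j X^j`, `P (x e^{iθ}) e^{-ikθ} = ∑ a_j x^j e^{i(j-k)θ}`, whose real part is `∑ a_j x^j cos ((j-k) θ)`;
`∫_{-π}^{π} (1 - cos θ) cos (m θ) dθ = 2π` for `m = 0`, `-π` for `m = ±1`, `0` otherwise
(`(1 - cos θ) cos (m θ) = cos (m θ) - (cos ((m+1) θ) + cos ((m-1) θ)) / 2`, `integral_cos`).
-/

set_option autoImplicit false

namespace FU

theorem four_int (m : ℤ) : ∫ θ in (-Real.pi)..Real.pi, Real.cos (m * θ) =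
    if m = 0 then 2 * Real.pi else 0 := by
  split_ifs with h
  · subst h
    simp
    ring
  · have hm : (m : ℝ) ≠ 0 := Int.cast_ne_zero.2 h
    rw [intervalIntegral.integral_comp_mul_left (fun θ => Real.cos θ) hm, integral_cos,
      mul_neg, Real.sin_neg, Real.sin_int_mul_pi]
    simp

theorem four_int2 (m : ℤ) : ∫ θ in (-Real.pi)..Real.pi, (1 - Real.cos θ) * Real.cos (m * θ) =
    Real.pi * (2 * (if m = 0 then 1 else 0) - (if m = 1 then 1 else 0) -
      (if m = -1 then 1 else 0)) := by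
  have h1 : ∀ θ : ℝ, (1 - Real.cos θ) * Real.cos (m * θ) =
      Real.cos (m * θ) - (1 / 2) * (Real.cos (((m + 1 : ℤ) : ℝ) * θ) +
        Real.cos (((m - 1 : ℤ) : ℝ) * θ)) := by
    intro θ
    have e1 : ((m + 1 : ℤ) : ℝ) * θ = m * θ + θ := by push_cast; ring
    have e2 : ((m - 1 : ℤ) : ℝ) * θ = m * θ - θ := by push_cast; ring
    rw [e1, e2, Real.cos_add, Real.cos_sub]
    ring
  simp only [h1]
  have hc : ∀ j : ℤ, IntervalIntegrable (fun θ : ℝ => Real.cos ((j : ℝ) * θ))
      MeasureTheory.volume (-Real.pi) Real.pi := fun j =>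
    Continuous.intervalIntegrable (by fun_prop) _ _
  rw [intervalIntegral.integral_sub (hc m) (((hc (m + 1)).add (hc (m - 1))).const_mul _),
    intervalIntegral.integral_const_mul, intervalIntegral.integral_add (hc (m + 1)) (hc (m - 1)),
    four_int, four_int, four_int]
  have e1 : m + 1 = 0 ↔ m = -1 := by omega
  have e2 : m - 1 = 0 ↔ m = 1 := by omega
  simp only [e1, e2]
  split_ifs <;> ring

theorem four (P : Polynomial ℝ) (x : ℝ) (k : ℕ) (hk : 1 ≤ k) :
    ∫ θ in (-Real.pi)..Real.pi, (1 - Real.cos θ) *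
      (Polynomial.aeval ((x : ℂ) * Complex.exp (θ * Complex.I)) P * Complex.exp (-(k * θ) * Complex.I)).re =
      Real.pi * (2 * (P.coeff k * x ^ k) - P.coeff (k + 1) * x ^ (k + 1) - P.coeff (k - 1) * x ^ (k - 1)) := by
  have h1 : ∀ θ : ℝ, (1 - Real.cos θ) *
      (Polynomial.aeval ((x : ℂ) * Complex.exp (θ * Complex.I)) P *
        Complex.exp (-(k * θ) * Complex.I)).re =
      ∑ j ∈ Finset.range (P.natDegree + k + 2), (P.coeff j * x ^ j) *
        ((1 - Real.cos θ) * Real.cos (((j : ℤ) - (k : ℤ) : ℤ) * θ)) := by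
    intro θ
    rw [Polynomial.aeval_eq_sum_range' (n := P.natDegree + k + 2) (by omega), Finset.sum_mul,
      Complex.re_sum, Finset.mul_sum]
    refine Finset.sum_congr rfl fun j _ => ?_
    have h2 : P.coeff j • ((x : ℂ) * Complex.exp (θ * Complex.I)) ^ j *
        Complex.exp (-(k * θ) * Complex.I) =
        ((P.coeff j * x ^ j : ℝ) : ℂ) *
          Complex.exp (((((((j : ℤ) - (k : ℤ) : ℤ) : ℝ) * θ : ℝ)) : ℂ) * Complex.I) := by
      rw [mul_pow, ← Complex.exp_nat_mul, Complex.real_smul, mul_assoc, mul_assoc,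
        ← Complex.exp_add]
      push_cast
      rw [mul_assoc]
      congr 3
      ring
    rw [h2, Complex.re_ofReal_mul, Complex.exp_ofReal_mul_I_re]
    ring
  simp only [h1]
  rw [intervalIntegral.integral_finsetSum]
  · have h3 : ∀ j ∈ Finset.range (P.natDegree + k + 2), ∫ θ in (-Real.pi)..Real.pi,
        (P.coeff j * x ^ j) * ((1 - Real.cos θ) * Real.cos (((j : ℤ) - (k : ℤ) : ℤ) * θ)) =
        Real.pi * (2 * (if j = k then P.coeff j * x ^ j else 0) -
          (if j = k + 1 then P.coeff j * x ^ j else 0) -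
          (if j = k - 1 then P.coeff j * x ^ j else 0)) := by
      intro j _
      rw [intervalIntegral.integral_const_mul, four_int2]
      have e1 : (j : ℤ) - k = 0 ↔ j = k := by omega
      have e2 : (j : ℤ) - k = 1 ↔ j = k + 1 := by omega
      have e3 : (j : ℤ) - k = -1 ↔ j = k - 1 := by omega
      simp only [e1, e2, e3]
      split_ifs <;> ring
    rw [Finset.sum_congr rfl h3, ← Finset.mul_sum, Finset.sum_sub_distrib,
      Finset.sum_sub_distrib, ← Finset.mul_sum, Finset.sum_ite_eq', Finset.sum_ite_eq',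
      Finset.sum_ite_eq', if_pos (by rw [Finset.mem_range]; omega),
      if_pos (by rw [Finset.mem_range]; omega), if_pos (by rw [Finset.mem_range]; omega)]
  · intro j _
    exact Continuous.intervalIntegrable (by fun_prop) _ _

end FU
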