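import Pool.Agent.Helper56.FU.Defs

/-!
# FU-A03 The potential inequality

TO PROVE (in place).  `R = x * q`, `L = -log q ≥ 0`, `r = rr = 201/100`, `e = ee = 1/1000`,
`phf x q = (1+e)^r q^(-r e) * R (2+R) / (2 (1+R)^2)`, where `q^(-r e) = exp (r e L)`.

* `phf_le`: `(2 + R) / (2 (1+R)^2) ≤ 1`, so `phf ≤ (1+e)^r * q^(-r e) * x * q = (1+e)^r * x * q^(1 - r e) ≤ (1+e)^3 * x ≤ 2 x`.
* `le_two_phf`: `phf = (1+e)^r q^(-re) * (R/(1+R)) * ((2+R)/(2(1+R)))` and `(2+R)/(2(1+R)) ≥ 1/2`, `(1+e)^r ≥ 1`.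
* `pot`.  (1) `L^(r-1) = L * L^(1/100) ≤ L * (1 + L/100) ≤ L * exp (L/100)` (for `L > 0`; Bernoulli
  `Real.rpow_one_add_le_one_add_mul_self` or `Real.add_one_le_exp` and concavity: `L^a ≤ 1 + a (L-1) ≤ 1 + a L`).
  (2) `(1+e)^r ≤ (1+e)^3 ≤ 10031/10000`.  So `phf * L^(r-1) ≤ (10031/10000) * B * exp (L * 121/10000)`,
  where `B = R (2+R) / (2 (1+R)^2) * L` and `r e + 1/100 = 201/100000 + 1/100 ≤ 121/10000`.
  (3) `B ≤ 9/10`: with `L = log (x/R) ≤ log (73/10) - log R = log (73/7) + log ((7/10)/R) ≤ 47/20 + (7/10)/R - 1`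
  (`log (73/7) ≤ 47/20`: `(73/7)^20 ≤ (27182818283/10^10)^47 ≤ exp 47`, `Real.exp_one_gt_d9`; `log y ≤ y - 1`) one gets
  `R (2+R) L ≤ (2+R) (27/20 R + 7/10) = 27/20 R^2 + 34/10 R + 14/10 ≤ (9/10) * 2 (1+R)^2`.
  (4) for `L ≤ 4`: `(10031/10000) (9/10) exp (484/10000) ≤ 19/20` (`exp y ≤ 1/(1-y)` for `y < 1`:
  `0.90279 / (1 - 0.0484) = 0.94871`).
  (5) for `L > 4`: `B ≤ R L ≤ (73/10) q L = (73/10) L exp (-L)`, so the product is
  `≤ (10031/10000)(73/10) L exp (-(9879/10000) L) ≤ 8 * L * exp (-(9/10) L)`, and `L exp (-(9/10) L) ≤ 4 exp (-36/10)` for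
  `L ≥ 4` (e.g. `L = 4 (1 + (L-4)/4) ≤ 4 exp ((L-4)/4) ≤ 4 exp ((9/10)(L-4))`), and `32 exp (-36/10) ≤ 19/20`
  (`exp (36/10) ≥ (27/10)^(36/10)`, `exp 36 ≥ (27182818283/10^10)^36 ≥ (320/95*10)^10`).
* `aaf_rpow_le`: `aaf^r = (1+e)^r q^(-re) P^r`, `P = R/(1+R)`, and with `s = log (1+R) ≥ 2R/(2+R)` (for `R > 0`; in
  Mathlib `Real.le_log_one_add_of_nonneg`, `2R/(R+2) ≤ log (1+R)`) `P ≤ s b`, `b = (2+R)/(2(1+R)) ≤ 1`.  So
  `P^r = P * P^(r-1) ≤ P * (s b)^(r-1) = P s^(r-1) b^(r-1) ≤ P s^(r-1) b` (`b ≤ 1`, `r - 1 ≥ 1`), and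
  `phf = (1+e)^r q^(-re) P b`.
-/

set_option autoImplicit false

namespace FU

private theorem one_ee_pos : (0 : ℝ) < 1 + ee := by unfold ee; norm_num

private theorem one_ee_rpow_le : (1 + ee : ℝ) ^ rr ≤ 10031 / 10000 := by
  calc (1 + ee : ℝ) ^ rr ≤ (1 + ee : ℝ) ^ (3 : ℝ) :=
        Real.rpow_le_rpow_of_exponent_le (by unfold ee; norm_num) (by unfold rr; norm_num)
    _ = (1 + ee : ℝ) ^ (3 : ℕ) := by norm_cast
    _ ≤ 10031 / 10000 := by unfold ee; norm_num

private theorem one_le_one_ee_rpow : (1 : ℝ) ≤ (1 + ee : ℝ) ^ rr :=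
  Real.one_le_rpow (by unfold ee; norm_num) (by unfold rr; norm_num)

theorem phf_nonneg {x q : ℝ} (hx : 0 < x) (hq : 0 < q) : 0 ≤ phf x q := by
  unfold phf
  have := one_ee_pos
  positivity

theorem aaf_nonneg {x q : ℝ} (hx : 0 < x) (hq : 0 < q) : 0 ≤ aaf x q := by
  unfold aaf
  have := one_ee_pos
  positivity

theorem phf_le {x q : ℝ} (hx : 0 < x) (hq : 0 < q) (hq1 : q ≤ 1) : phf x q ≤ 2 * x := by
  have h1 := one_ee_rpow_le
  have h0 := one_ee_pos
  have h2 : x * q * (2 + x * q) / (2 * (1 + x * q) ^ 2) ≤ x * q := by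
    have hR : 0 < x * q := by positivity
    rw [div_le_iff₀ (by positivity)]
    nlinarith [mul_pos hR hR, mul_pos hR (mul_pos hR hR)]
  have h3 : q ^ (-(rr * ee)) * q ≤ 1 := by
    have : q ^ (-(rr * ee)) * q = q ^ (-(rr * ee) + 1) := by
      rw [Real.rpow_add hq, Real.rpow_one]
    rw [this]
    exact Real.rpow_le_one hq.le hq1 (by unfold rr ee; norm_num)
  have h4 : 0 < q ^ (-(rr * ee)) := Real.rpow_pos_of_pos hq _
  have h5 : 0 < (1 + ee : ℝ) ^ rr := Real.rpow_pos_of_pos h0 _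
  unfold phf
  calc (1 + ee) ^ rr * q ^ (-(rr * ee)) * (x * q * (2 + x * q) / (2 * (1 + x * q) ^ 2))
      ≤ (1 + ee) ^ rr * q ^ (-(rr * ee)) * (x * q) :=
        mul_le_mul_of_nonneg_left h2 (by positivity)
    _ = (1 + ee) ^ rr * x * (q ^ (-(rr * ee)) * q) := by ring
    _ ≤ (1 + ee) ^ rr * x * 1 := mul_le_mul_of_nonneg_left h3 (by positivity)
    _ ≤ 2 * x := by nlinarith

theorem le_two_phf {x q : ℝ} (hx : 0 < x) (hq : 0 < q) :
    q ^ (-(rr * ee)) * (x * q / (1 + x * q)) ≤ 2 * phf x q := by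
  have h4 : 0 < q ^ (-(rr * ee)) := Real.rpow_pos_of_pos hq _
  have hR : 0 < x * q := by positivity
  have h1 := one_le_one_ee_rpow
  have h2 : x * q / (1 + x * q) ≤ 2 * (x * q * (2 + x * q) / (2 * (1 + x * q) ^ 2)) := by
    rw [← sub_nonneg]
    have : 2 * (x * q * (2 + x * q) / (2 * (1 + x * q) ^ 2)) - x * q / (1 + x * q) =
        x * q / (1 + x * q) ^ 2 := by
      field_simp
      ring
    rw [this]
    positivity
  unfold phf
  calc q ^ (-(rr * ee)) * (x * q / (1 + x * q))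
      ≤ q ^ (-(rr * ee)) * (2 * (x * q * (2 + x * q) / (2 * (1 + x * q) ^ 2))) :=
        mul_le_mul_of_nonneg_left h2 h4.le
    _ = 1 * (q ^ (-(rr * ee)) * (2 * (x * q * (2 + x * q) / (2 * (1 + x * q) ^ 2)))) := by ring
    _ ≤ (1 + ee) ^ rr * (q ^ (-(rr * ee)) * (2 * (x * q * (2 + x * q) / (2 * (1 + x * q) ^ 2)))) :=
        mul_le_mul_of_nonneg_right h1 (by positivity)
    _ = _ := by ring

private theorem log_le_aux : Real.log (73 / 7) ≤ 47 / 20 := by
  have h1 : (73 / 7 : ℝ) ^ 20 ≤ Real.exp 47 := by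
    have h2 : (271828182 / 100000000 : ℝ) ^ 47 ≤ Real.exp 1 ^ 47 :=
      pow_le_pow_left₀ (by norm_num) (by have := Real.exp_one_gt_d9; linarith) _
    have h3 : Real.exp 1 ^ 47 = Real.exp 47 := by
      rw [← Real.exp_nat_mul]
      norm_num
    rw [← h3]
    refine le_trans ?_ h2
    norm_num
  have h2 := Real.log_le_log (by positivity) h1
  rw [Real.log_exp, Real.log_pow] at h2
  push_cast at h2
  linarith

theorem pot {x q : ℝ} (hx : 0 < x) (hx1 : x ≤ 73 / 10) (hq : 0 < q) (hq1 : q ≤ 1) :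
    phf x q * (-Real.log q) ^ (rr - 1) ≤ 19 / 20 := by
  set L := -Real.log q with hL
  have hL0 : 0 ≤ L := by
    have := Real.log_nonpos hq.le hq1
    linarith
  rcases hL0.eq_or_lt with hz | hLp
  · rw [← hz, Real.zero_rpow (by unfold rr; norm_num), mul_zero]
    norm_num
  have hR : 0 < x * q := by positivity
  -- (1)
  have h1 : L ^ (rr - 1) ≤ L * Real.exp (L / 100) := by
    have e1 : rr - 1 = 1 + 1 / 100 := by unfold rr; norm_num
    rw [e1, Real.rpow_add hLp, Real.rpow_one]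
    refine mul_le_mul_of_nonneg_left ?_ hL0
    rw [Real.rpow_def_of_pos hLp]
    apply Real.exp_le_exp.mpr
    have := Real.log_le_sub_one_of_pos hLp
    linarith
  have hqe : q ^ (-(rr * ee)) = Real.exp (L * (rr * ee)) := by
    rw [Real.rpow_def_of_pos hq, hL]
    ring_nf
  have h2 := one_ee_rpow_le
  have h20 : 0 < (1 + ee : ℝ) ^ rr := Real.rpow_pos_of_pos one_ee_pos _
  set B := x * q * (2 + x * q) / (2 * (1 + x * q) ^ 2) * L with hB
  have hB0 : 0 ≤ B := by positivity
  have hmain : phf x q * L ^ (rr - 1) ≤ 10031 / 10000 * (B * Real.exp (L * (121 / 10000))) := by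
    calc phf x q * L ^ (rr - 1) ≤ phf x q * (L * Real.exp (L / 100)) :=
          mul_le_mul_of_nonneg_left h1 (phf_nonneg hx hq)
      _ = (1 + ee) ^ rr * (B * (Real.exp (L * (rr * ee)) * Real.exp (L / 100))) := by
          rw [phf, hqe, hB]; ring
      _ ≤ 10031 / 10000 * (B * (Real.exp (L * (rr * ee)) * Real.exp (L / 100))) :=
          mul_le_mul_of_nonneg_right h2 (by positivity)
      _ ≤ 10031 / 10000 * (B * Real.exp (L * (121 / 10000))) := by
          refine mul_le_mul_of_nonneg_left (mul_le_mul_of_nonneg_left ?_ hB0) (by norm_num)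
          rw [← Real.exp_add]
          apply Real.exp_le_exp.mpr
          unfold rr ee
          nlinarith
  refine hmain.trans ?_
  rcases le_or_gt L 4 with h4 | h4
  · -- L ≤ 4
    have h3 : B ≤ 9 / 10 := by
      have hLle : L ≤ 27 / 20 + (7 / 10) / (x * q) := by
        have e1 : L = Real.log x - Real.log (x * q) := by
          rw [Real.log_mul hx.ne' hq.ne', hL]; ring
        have e2 : Real.log x ≤ Real.log (73 / 7) + Real.log (7 / 10) := by
          rw [← Real.log_mul (by norm_num) (by norm_num)]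
          apply Real.log_le_log hx
          linarith
        have e3 : Real.log (7 / 10) - Real.log (x * q) ≤ (7 / 10) / (x * q) - 1 := by
          rw [← Real.log_div (by norm_num) hR.ne']
          exact Real.log_le_sub_one_of_pos (by positivity)
        have e4 := log_le_aux
        linarith
      have h5 : x * q * L ≤ 27 / 20 * (x * q) + 7 / 10 := by
        calc x * q * L ≤ x * q * (27 / 20 + (7 / 10) / (x * q)) :=
              mul_le_mul_of_nonneg_left hLle hR.le
          _ = 27 / 20 * (x * q) + 7 / 10 := by field_simp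
      rw [hB, div_mul_eq_mul_div, div_le_iff₀ (by positivity)]
      nlinarith [mul_le_mul_of_nonneg_left h5 (by positivity : (0 : ℝ) ≤ 2 + x * q), mul_pos hR hR]
    have h5 : Real.exp (L * (121 / 10000)) ≤ 1 / (1 - 484 / 10000) := by
      calc Real.exp (L * (121 / 10000)) ≤ Real.exp (484 / 10000) :=
            Real.exp_le_exp.mpr (by linarith)
        _ ≤ 1 / (1 - 484 / 10000) := by
          rw [le_div_iff₀ (by norm_num)]
          have := Real.add_one_le_exp (-(484 / 10000 : ℝ))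
          have h6 : Real.exp (484 / 10000) * Real.exp (-(484 / 10000 : ℝ)) = 1 := by
            rw [← Real.exp_add]; simp
          have h7 := mul_le_mul_of_nonneg_left this (Real.exp_pos (484 / 10000)).le
          rw [h6] at h7
          linarith
    calc 10031 / 10000 * (B * Real.exp (L * (121 / 10000)))
        ≤ 10031 / 10000 * (9 / 10 * (1 / (1 - 484 / 10000))) := by
          refine mul_le_mul_of_nonneg_left ?_ (by norm_num)
          exact mul_le_mul h3 h5 (Real.exp_pos _).le (by norm_num)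
      _ ≤ 19 / 20 := by norm_num
  · -- L > 4
    have hqL : q = Real.exp (-L) := by rw [hL, neg_neg, Real.exp_log hq]
    have h3 : B ≤ 73 / 10 * Real.exp (-L) * L := by
      rw [hB]
      refine mul_le_mul_of_nonneg_right ?_ hL0
      calc x * q * (2 + x * q) / (2 * (1 + x * q) ^ 2) ≤ x * q := by
            rw [div_le_iff₀ (by positivity)]
            nlinarith [mul_pos hR hR, mul_pos hR (mul_pos hR hR)]
        _ ≤ 73 / 10 * q := mul_le_mul_of_nonneg_right hx1 hq.le
        _ = 73 / 10 * Real.exp (-L) := by rw [← hqL]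
    have h5 : L * Real.exp (-(9 / 10) * L) ≤ 4 * Real.exp (-(36 / 10)) := by
      have e1 : L ≤ 4 * Real.exp ((9 / 10) * (L - 4)) := by
        have := Real.add_one_le_exp ((9 / 10) * (L - 4))
        nlinarith
      calc L * Real.exp (-(9 / 10) * L)
          ≤ 4 * Real.exp ((9 / 10) * (L - 4)) * Real.exp (-(9 / 10) * L) :=
            mul_le_mul_of_nonneg_right e1 (Real.exp_pos _).le
        _ = 4 * Real.exp (-(36 / 10)) := by
          rw [mul_assoc, ← Real.exp_add]
          ring_nf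
    have h6 : Real.exp (-(36 / 10)) ≤ 1 / 34 := by
      rw [Real.exp_neg, ← one_div]
      apply one_div_le_one_div_of_le (by norm_num)
      have e1 : Real.exp (36 / 10) = Real.exp 1 ^ 3 * Real.exp (6 / 10) := by
        rw [← Real.exp_nat_mul, ← Real.exp_add]
        norm_num
      have e2 : (20 : ℝ) ≤ Real.exp 1 ^ 3 := by
        have e3 : (2718 / 1000 : ℝ) ^ 3 ≤ Real.exp 1 ^ 3 :=
          pow_le_pow_left₀ (by norm_num) (by have := Real.exp_one_gt_d9; linarith) _
        refine le_trans (by norm_num) e3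
      have e3 : (178 / 100 : ℝ) ≤ Real.exp (6 / 10) := by
        have := Real.quadratic_le_exp_of_nonneg (x := 6 / 10) (by norm_num)
        linarith
      rw [e1]
      nlinarith
    calc 10031 / 10000 * (B * Real.exp (L * (121 / 10000)))
        ≤ 10031 / 10000 * (73 / 10 * Real.exp (-L) * L * Real.exp (L * (121 / 10000))) := by
          refine mul_le_mul_of_nonneg_left ?_ (by norm_num)
          exact mul_le_mul_of_nonneg_right h3 (Real.exp_pos _).le
      _ = 10031 / 10000 * (73 / 10) * (L * (Real.exp (-L) * Real.exp (L * (121 / 10000)))) := by ring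
      _ ≤ 8 * (L * Real.exp (-(9 / 10) * L)) := by
          rw [← Real.exp_add]
          have e1 : Real.exp (-L + L * (121 / 10000)) ≤ Real.exp (-(9 / 10) * L) :=
            Real.exp_le_exp.mpr (by nlinarith)
          have e2 : L * Real.exp (-L + L * (121 / 10000)) ≤ L * Real.exp (-(9 / 10) * L) :=
            mul_le_mul_of_nonneg_left e1 hL0
          have e3 : 0 ≤ L * Real.exp (-L + L * (121 / 10000)) := by positivity
          nlinarith
      _ ≤ 8 * (4 * Real.exp (-(36 / 10))) := mul_le_mul_of_nonneg_left h5 (by norm_num)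
      _ ≤ 8 * (4 * (1 / 34)) := by linarith
      _ ≤ 19 / 20 := by norm_num

theorem aaf_rpow_le {x q : ℝ} (hx : 0 < x) (hq : 0 < q) :
    aaf x q ^ rr ≤ Real.log (1 + x * q) ^ (rr - 1) * phf x q := by
  have hR : 0 < x * q := by positivity
  have h0 := one_ee_pos
  set R := x * q with hRdef
  have hP0 : 0 < R / (1 + R) := by positivity
  have hs : 2 * R / (R + 2) ≤ Real.log (1 + R) := Real.le_log_one_add_of_nonneg hR.le
  have hs0 : 0 < Real.log (1 + R) := Real.log_pos (by linarith)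
  set b := (2 + R) / (2 * (1 + R)) with hb
  have hb0 : 0 < b := by positivity
  have hb1 : b ≤ 1 := by
    rw [hb, div_le_one (by positivity)]
    linarith
  have hPsb : R / (1 + R) ≤ Real.log (1 + R) * b := by
    calc R / (1 + R) = 2 * R / (R + 2) * b := by
          rw [hb]; field_simp
          ring
      _ ≤ Real.log (1 + R) * b := mul_le_mul_of_nonneg_right hs hb0.le
  have hPr : (R / (1 + R)) ^ rr ≤ R / (1 + R) * (Real.log (1 + R) ^ (rr - 1) * b) := by
    have e1 : (R / (1 + R)) ^ rr = R / (1 + R) * (R / (1 + R)) ^ (rr - 1) := by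
      have : rr = 1 + (rr - 1) := by ring
      conv_lhs => rw [this, Real.rpow_add hP0, Real.rpow_one]
    rw [e1]
    refine mul_le_mul_of_nonneg_left ?_ hP0.le
    calc (R / (1 + R)) ^ (rr - 1) ≤ (Real.log (1 + R) * b) ^ (rr - 1) :=
          Real.rpow_le_rpow hP0.le hPsb (by unfold rr; norm_num)
      _ = Real.log (1 + R) ^ (rr - 1) * b ^ (rr - 1) := Real.mul_rpow hs0.le hb0.le
      _ ≤ Real.log (1 + R) ^ (rr - 1) * b := by
          refine mul_le_mul_of_nonneg_left ?_ (Real.rpow_nonneg hs0.le _)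
          calc b ^ (rr - 1) ≤ b ^ (1 : ℝ) :=
                Real.rpow_le_rpow_of_exponent_ge hb0 hb1 (by unfold rr; norm_num)
            _ = b := Real.rpow_one b
  have e2 : aaf x q ^ rr = (1 + ee) ^ rr * q ^ (-(rr * ee)) * (R / (1 + R)) ^ rr := by
    unfold aaf
    rw [Real.mul_rpow (by positivity) (Real.rpow_nonneg hq.le _), Real.mul_rpow h0.le hP0.le,
      ← Real.rpow_mul hq.le]
    have : -ee * rr = -(rr * ee) := by ring
    rw [this]
    ring
  have h5 : 0 < (1 + ee : ℝ) ^ rr := Real.rpow_pos_of_pos h0 _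
  have h6 : 0 < q ^ (-(rr * ee)) := Real.rpow_pos_of_pos hq _
  rw [e2]
  calc (1 + ee) ^ rr * q ^ (-(rr * ee)) * (R / (1 + R)) ^ rr
      ≤ (1 + ee) ^ rr * q ^ (-(rr * ee)) * (R / (1 + R) * (Real.log (1 + R) ^ (rr - 1) * b)) :=
        mul_le_mul_of_nonneg_left hPr (by positivity)
    _ = Real.log (1 + R) ^ (rr - 1) * phf x q := by
      unfold phf
      rw [← hRdef, hb]
      field_simp

end FU
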