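import Mathlib

/-!
# FU-A02 Two inequalities of convexity

From `convexOn_rpow` (convexity of `y ↦ y ^ r` on `[0, ∞)`, `r ≥ 1`).

* `radon`: with the weights `s / (s + t)`, `t / (s + t)` and the points `a / s`, `b / t`:
  `((a + b) / (s + t)) ^ r ≤ s / (s + t) * (a / s) ^ r + t / (s + t) * (b / t) ^ r`; multiply by `(s + t) ^ r`.
* `one_add_rpow_le`: the weights `τ`, `1 - τ` and the points `1 / τ`, `h / (1 - τ)` (or `radon` with `s = τ`, `t = 1 - τ`).
-/

set_option autoImplicit false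

namespace FU

theorem radon {r s t a b : ℝ} (hr : 1 ≤ r) (hs : 0 < s) (ht : 0 < t) (ha : 0 ≤ a) (hb : 0 ≤ b) :
    (a + b) ^ r ≤ (s + t) ^ (r - 1) * (a ^ r / s ^ (r - 1) + b ^ r / t ^ (r - 1)) := by
  have hst : 0 < s + t := by positivity
  have h := (convexOn_rpow hr).2 (show a / s ∈ Set.Ici (0 : ℝ) from div_nonneg ha hs.le)
    (show b / t ∈ Set.Ici (0 : ℝ) from div_nonneg hb ht.le)
    (div_nonneg hs.le hst.le) (div_nonneg ht.le hst.le) (by field_simp)
  simp only [smul_eq_mul] at h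
  have e1 : s / (s + t) * (a / s) + t / (s + t) * (b / t) = (a + b) / (s + t) := by
    field_simp
  rw [e1, Real.div_rpow (by positivity) hst.le, Real.div_rpow ha hs.le, Real.div_rpow hb ht.le,
    div_le_iff₀ (by positivity)] at h
  refine h.trans (le_of_eq ?_)
  have e2 : (s + t) ^ r = (s + t) ^ (r - 1) * (s + t) := by
    rw [← Real.rpow_add_one hst.ne']; congr 1; ring
  have e3 : s ^ r = s ^ (r - 1) * s := by
    rw [← Real.rpow_add_one hs.ne']; congr 1; ring
  have e4 : t ^ r = t ^ (r - 1) * t := by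
    rw [← Real.rpow_add_one ht.ne']; congr 1; ring
  have p1 : 0 < s ^ (r - 1) := by positivity
  have p2 : 0 < t ^ (r - 1) := by positivity
  rw [e2, e3, e4]
  field_simp

theorem one_add_rpow_le {r τ h : ℝ} (hr : 1 ≤ r) (h0 : 0 < τ) (h1 : τ < 1) (hh : 0 ≤ h) :
    (1 + h) ^ r ≤ τ ^ (1 - r) + (1 - τ) ^ (1 - r) * h ^ r := by
  have h2 : 0 < 1 - τ := by linarith
  have := radon hr h0 h2 zero_le_one hh
  refine this.trans (le_of_eq ?_)
  rw [show τ + (1 - τ) = 1 by ring, Real.one_rpow, Real.one_rpow, one_mul,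
    show 1 - r = -(r - 1) by ring, Real.rpow_neg h0.le, Real.rpow_neg h2.le]
  field_simp

end FU
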