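import Pool.Agent.Helper56.FU.Basic
import Pool.Agent.Helper56.FU.Radon
import Pool.Agent.Helper56.FU.Pot

/-!
# FU-A04 The inequality of Hoelder on forests

TO PROVE (in place).

* `H_nonneg`, `Y_nonneg`, `Y_le_Tot`: structural induction, `phf_nonneg`, `aaf_nonneg`.
* `H_rpow_le`: structural induction.  For `cons c r`: put `a = aaf x (q x c) * (1 + H x c)`, `b = H x r`,
  `s = log (1 + x q c) > 0`, `t = -log (q x r) ≥ 0`; then `-log (q (cons c r)) = s + t` (`neg_log_q_cons`).
  By `aaf_rpow_le` `a^rr ≤ s^(rr-1) * (phf x (q x c) * (1 + H x c)^rr)`.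
  If `t > 0`: `radon` gives `(a + b)^rr ≤ (s+t)^(rr-1) (a^rr / s^(rr-1) + b^rr / t^(rr-1))`, and the two quotients are
  `≤ phf * (1+H)^rr` and `≤ Y x r` (induction).
  If `t = 0`: the induction hypothesis gives `b^rr ≤ 0` (`0 ^ (rr-1) = 0`), so `b = 0`, and the claim is the bound for `a^rr`
  (`Y x r ≥ 0`).
-/

set_option autoImplicit false

namespace FU

theorem H_nonneg {x : ℝ} (hx : 0 < x) (F : Fo) : 0 ≤ H x F := by
  induction F with
  | nil => exact le_refl _
  | cons c r ihc ihr =>
    have h1 := aaf_nonneg hx (q_pos hx c)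
    change 0 ≤ aaf x (q x c) * (1 + H x c) + H x r
    have h2 : 0 ≤ aaf x (q x c) * (1 + H x c) := mul_nonneg h1 (by linarith)
    linarith

theorem Y_nonneg {x : ℝ} (hx : 0 < x) (F : Fo) : 0 ≤ Y x F := by
  induction F with
  | nil => exact le_refl _
  | cons c r ihc ihr =>
    have h1 := phf_nonneg hx (q_pos hx c)
    change 0 ≤ phf x (q x c) * (1 + H x c) ^ rr + Y x r
    have h3 := H_nonneg hx c
    have h2 : 0 ≤ phf x (q x c) * (1 + H x c) ^ rr :=
      mul_nonneg h1 (Real.rpow_nonneg (by linarith) _)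
    linarith

theorem Y_le_Tot {x : ℝ} (hx : 0 < x) (F : Fo) : Y x F ≤ Tot x F := by
  induction F with
  | nil => exact le_refl _
  | cons c r ihc ihr =>
    change phf x (q x c) * (1 + H x c) ^ rr + Y x r ≤
      phf x (q x c) * (1 + H x c) ^ rr + Tot x c + Tot x r
    have h1 := Y_nonneg hx c
    linarith

theorem H_rpow_le {x : ℝ} (hx : 0 < x) (F : Fo) :
    H x F ^ rr ≤ (-Real.log (q x F)) ^ (rr - 1) * Y x F := by
  have hrr : (1 : ℝ) ≤ rr := by unfold rr; norm_num
  have hrr0 : rr ≠ 0 := by unfold rr; norm_num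
  have hrr1 : rr - 1 ≠ 0 := by unfold rr; norm_num
  induction F with
  | nil =>
    change (0 : ℝ) ^ rr ≤ (-Real.log 1) ^ (rr - 1) * 0
    rw [Real.zero_rpow hrr0, mul_zero]
  | cons c r ihc ihr =>
    rw [neg_log_q_cons hx]
    change (aaf x (q x c) * (1 + H x c) + H x r) ^ rr ≤
      (Real.log (1 + x * q x c) + -Real.log (q x r)) ^ (rr - 1) *
        (phf x (q x c) * (1 + H x c) ^ rr + Y x r)
    have hqc := q_pos hx c
    have hHc := H_nonneg hx c
    have hHr := H_nonneg hx r
    have hYr := Y_nonneg hx r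
    have hpf := phf_nonneg hx hqc
    have haf := aaf_nonneg hx hqc
    have hxq : 0 < x * q x c := mul_pos hx hqc
    set s := Real.log (1 + x * q x c) with hs
    set t := -Real.log (q x r) with ht
    set a := aaf x (q x c) * (1 + H x c) with ha
    set b := H x r with hb
    set y := phf x (q x c) * (1 + H x c) ^ rr with hy
    have hs0 : 0 < s := Real.log_pos (by linarith)
    have ht0 : 0 ≤ t := neg_log_q_nonneg hx r
    have ha0 : 0 ≤ a := mul_nonneg haf (by linarith)
    have hy0 : 0 ≤ y := mul_nonneg hpf (Real.rpow_nonneg (by linarith) _)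
    have hay : a ^ rr ≤ s ^ (rr - 1) * y := by
      rw [ha, hy, Real.mul_rpow haf (by linarith), ← mul_assoc]
      exact mul_le_mul_of_nonneg_right (aaf_rpow_le hx hqc) (Real.rpow_nonneg (by linarith) _)
    have hsr : 0 < s ^ (rr - 1) := Real.rpow_pos_of_pos hs0 _
    rcases ht0.eq_or_lt with ht1 | ht1
    · -- `t = 0`
      rw [← ht1] at ihr ⊢
      rw [Real.zero_rpow hrr1, zero_mul] at ihr
      have hb0 : b = 0 := by
        by_contra hne
        have hbpos : 0 < b := lt_of_le_of_ne hHr (Ne.symm hne)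
        exact absurd (Real.rpow_pos_of_pos hbpos rr) (not_lt.mpr ihr)
      rw [hb0, add_zero, add_zero]
      refine hay.trans ?_
      exact mul_le_mul_of_nonneg_left (by linarith) hsr.le
    · have htr : 0 < t ^ (rr - 1) := Real.rpow_pos_of_pos ht1 _
      refine (radon hrr hs0 ht1 ha0 hHr).trans ?_
      refine mul_le_mul_of_nonneg_left ?_ (Real.rpow_nonneg (by linarith) _)
      have h1 : a ^ rr / s ^ (rr - 1) ≤ y := by
        rw [div_le_iff₀ hsr, mul_comm]
        exact hay
      have h2 : b ^ rr / t ^ (rr - 1) ≤ Y x r := by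
        rw [div_le_iff₀ htr, mul_comm]
        exact ihr
      linarith

end FU
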