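import Pool.Agent.Helper56.FU.Defs

/-!
# Labelled rooted forests
-/

set_option autoImplicit false

namespace FU

/-- rooted forests with labelled vertices -/
inductive LF (V : Type*) : Type _
  | nil : LF V
  | cons : V → LF V → LF V → LF V

namespace LF

variable {V : Type*}

/-- forget the labels -/
def toFo : LF V → Fo
  | .nil => .nil
  | .cons _ c r => .cons c.toFo r.toFo

/-- the list of the labels -/
def labs : LF V → List V
  | .nil => []
  | .cons v c r => v :: (c.labs ++ r.labs)

/-- the labels of the roots -/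
def rts : LF V → List V
  | .nil => []
  | .cons v _ r => v :: r.rts

/-- the edges -/
def E : LF V → V → V → Prop
  | .nil, _, _ => False
  | .cons v c r, a, b => (a = v ∧ b ∈ c.rts) ∨ (b = v ∧ a ∈ c.rts) ∨ c.E a b ∨ r.E a b

/-- insert a new leaf `w` below the vertex `u` -/
def ins [DecidableEq V] (w u : V) : LF V → LF V
  | .nil => .nil
  | .cons v c r => if v = u then .cons v (.cons w .nil (c.ins w u)) (r.ins w u)
      else .cons v (c.ins w u) (r.ins w u)

@[simp] theorem labs_nil : (LF.nil : LF V).labs = [] := rfl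
@[simp] theorem labs_cons (v : V) (c r : LF V) : (LF.cons v c r).labs = v :: (c.labs ++ r.labs) := rfl
@[simp] theorem rts_nil : (LF.nil : LF V).rts = [] := rfl
@[simp] theorem rts_cons (v : V) (c r : LF V) : (LF.cons v c r).rts = v :: r.rts := rfl
@[simp] theorem toFo_nil : (LF.nil : LF V).toFo = .nil := rfl
@[simp] theorem toFo_cons (v : V) (c r : LF V) : (LF.cons v c r).toFo = .cons c.toFo r.toFo := rfl
@[simp] theorem E_nil (a b : V) : (LF.nil : LF V).E a b = False := rfl
theorem E_cons (v : V) (c r : LF V) (a b : V) : (LF.cons v c r).E a b =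
    ((a = v ∧ b ∈ c.rts) ∨ (b = v ∧ a ∈ c.rts) ∨ c.E a b ∨ r.E a b) := rfl

theorem sz_toFo (F : LF V) : F.toFo.sz = F.labs.length := by
  induction F with
  | nil => rfl
  | cons v c r ihc ihr => simp [Fo.sz, ihc, ihr]

theorem mem_labs_of_mem_rts {F : LF V} {a : V} (h : a ∈ F.rts) : a ∈ F.labs := by
  induction F with
  | nil => simp at h
  | cons v c r ihc ihr =>
    simp only [rts_cons, List.mem_cons] at h
    simp only [labs_cons, List.mem_cons, List.mem_append]
    rcases h with h | h
    · exact Or.inl h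
    · exact Or.inr (Or.inr (ihr h))

theorem mem_labs_of_E {F : LF V} {a b : V} (h : F.E a b) : a ∈ F.labs ∧ b ∈ F.labs := by
  induction F with
  | nil => simp at h
  | cons v c r ihc ihr =>
    rw [E_cons] at h
    simp only [labs_cons, List.mem_cons, List.mem_append]
    rcases h with ⟨h1, h2⟩ | ⟨h1, h2⟩ | h | h
    · exact ⟨Or.inl h1, Or.inr (Or.inl (mem_labs_of_mem_rts h2))⟩
    · exact ⟨Or.inr (Or.inl (mem_labs_of_mem_rts h2)), Or.inl h1⟩
    · exact ⟨Or.inr (Or.inl (ihc h).1), Or.inr (Or.inl (ihc h).2)⟩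
    · exact ⟨Or.inr (Or.inr (ihr h).1), Or.inr (Or.inr (ihr h).2)⟩

end LF

end FU
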