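import Pool.Agent.Helper56.FU.LF

/-!
# FU-G03 The independence polynomial of a labelled forest

TO PROVE (in place), by structural induction on `F` (both identities at once).

For `cons v c r` with distinct labels the finset of the labels is the disjoint union of `{v}`, `C = labels of c`, `R = labels of r`.
The finsets `S` contained in it correspond bijectively to triples `(S ∩ {v}, S ∩ C, S ∩ R)` (use `Finset.sum_bij'`, or twice
`Finset.sum_powerset_insert` / a product decomposition such as: the map `(a, T, U) ↦ (if a then {v} else ∅) ∪ T ∪ U` is a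
bijection from `Bool × C.powerset × R.powerset`).  `S` is independent (with respect to `E (cons v c r)`) iff `S ∩ C` and `S ∩ R` are
independent and, if `v ∈ S`, then `S ∩ C` contains no root of `c` (an edge of `c` has both ends in `C`, an edge of `r` in `R`:
`mem_labs_of_E`; the labels are distinct).  `S` contains no root of `cons v c r` iff `v ∉ S` and `S ∩ R` contains no root of `r`.
So the first sum is `(Σ_c + z Σ'_c) Σ_r` and the second is `Σ_c Σ'_r`.
-/

set_option autoImplicit false

namespace FU

variable {V : Type*} [DecidableEq V]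

/-- indicator -/
private noncomputable def LFsInd (R : Type*) [CommSemiring R] (P : Prop) : R := by
  classical exact if P then 1 else 0

private theorem LFs_ite {R : Type*} [CommSemiring R] (P : Prop) [Decidable P] (x : R) :
    (if P then x else 0) = LFsInd R P * x := by
  unfold LFsInd
  by_cases h : P
  · rw [if_pos h, if_pos h, one_mul]
  · rw [if_neg h, if_neg h, zero_mul]

private theorem LFs_and {R : Type*} [CommSemiring R] (P Q : Prop) :
    LFsInd R (P ∧ Q) = LFsInd R P * LFsInd R Q := by
  unfold LFsInd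
  by_cases h : P <;> by_cases h' : Q <;> simp [h, h']

private theorem LFs_false {R : Type*} [CommSemiring R] {P : Prop} (h : ¬ P) :
    LFsInd R P = 0 := by
  unfold LFsInd
  rw [if_neg h]

/-- subsets of a disjoint union -/
private theorem LFs_union {M : Type*} [AddCommMonoid M] (C D : Finset V) (h : Disjoint C D)
    (f : Finset V → M) :
    ∑ S ∈ (C ∪ D).powerset, f S = ∑ T ∈ C.powerset, ∑ U ∈ D.powerset, f (T ∪ U) := by
  induction C using Finset.induction_on generalizing f with
  | empty => simp
  | insert a C ha ih =>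
    rw [Finset.disjoint_insert_left] at h
    have ha' : a ∉ C ∪ D := by
      rw [Finset.mem_union, not_or]
      exact ⟨ha, h.1⟩
    rw [Finset.insert_union, Finset.sum_powerset_insert ha', Finset.sum_powerset_insert ha,
      ih h.2, ih h.2]
    simp only [Finset.insert_union]

private theorem LFs_step {R : Type*} [CommSemiring R] (z : R) (v : V) (C D : Finset V)
    (hv : v ∉ C ∪ D) (hd : Disjoint C D) (P : Finset V → Prop) :
    ∑ S ∈ (insert v (C ∪ D)).powerset, LFsInd R (P S) * z ^ S.card =
      ∑ T ∈ C.powerset, ∑ U ∈ D.powerset, LFsInd R (P (T ∪ U)) * (z ^ T.card * z ^ U.card) +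
      z * ∑ T ∈ C.powerset, ∑ U ∈ D.powerset,
        LFsInd R (P (insert v (T ∪ U))) * (z ^ T.card * z ^ U.card) := by
  rw [Finset.sum_powerset_insert hv, LFs_union C D hd, LFs_union C D hd, Finset.mul_sum]
  congr 1
  · refine Finset.sum_congr rfl fun T hT => Finset.sum_congr rfl fun U hU => ?_
    have h1 : Disjoint T U := Finset.disjoint_of_subset_left (Finset.mem_powerset.1 hT)
      (Finset.disjoint_of_subset_right (Finset.mem_powerset.1 hU) hd)
    rw [Finset.card_union_of_disjoint h1, pow_add]
  · refine Finset.sum_congr rfl fun T hT => ?_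
    rw [Finset.mul_sum]
    refine Finset.sum_congr rfl fun U hU => ?_
    have h1 : Disjoint T U := Finset.disjoint_of_subset_left (Finset.mem_powerset.1 hT)
      (Finset.disjoint_of_subset_right (Finset.mem_powerset.1 hU) hd)
    have h2 : v ∉ T ∪ U := fun h => hv
      (Finset.union_subset_union (Finset.mem_powerset.1 hT) (Finset.mem_powerset.1 hU) h)
    rw [Finset.card_insert_of_notMem h2, Finset.card_union_of_disjoint h1, pow_succ, pow_add]
    ring

private theorem LFs_main {R : Type*} [CommSemiring R] (z : R) (F : LF V) (hF : F.labs.Nodup) :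
    (∑ S ∈ F.labs.toFinset.powerset,
      LFsInd R (∀ a ∈ S, ∀ b ∈ S, ¬ F.E a b) * z ^ S.card) = I z F.toFo ∧
    (∑ S ∈ F.labs.toFinset.powerset,
      LFsInd R ((∀ a ∈ S, ∀ b ∈ S, ¬ F.E a b) ∧ ∀ a ∈ F.rts, a ∉ S) * z ^ S.card) =
        J z F.toFo := by
  induction F with
  | nil =>
    have h1 : LFsInd R True = 1 := by
      unfold LFsInd
      rw [if_pos trivial]
    constructor
    · simp [h1]
    · simp [h1]
  | cons v c r ihc ihr =>
    rw [LF.labs_cons, List.nodup_cons, List.nodup_append] at hF
    obtain ⟨hv, hc, hr, hcr⟩ := hF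
    obtain ⟨c1, c2⟩ := ihc hc
    obtain ⟨r1, r2⟩ := ihr hr
    have hset : (LF.cons v c r).labs.toFinset = insert v (c.labs.toFinset ∪ r.labs.toFinset) := by
      rw [LF.labs_cons, List.toFinset_cons, List.toFinset_append]
    have hv' : v ∉ c.labs.toFinset ∪ r.labs.toFinset := by
      rw [Finset.mem_union, List.mem_toFinset, List.mem_toFinset]
      intro h
      exact hv (List.mem_append.2 h)
    have hd : Disjoint c.labs.toFinset r.labs.toFinset := by
      rw [Finset.disjoint_left]
      intro a ha ha'
      exact hcr a (List.mem_toFinset.1 ha) a (List.mem_toFinset.1 ha') rfl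
    -- membership facts
    have key : ∀ T ∈ c.labs.toFinset.powerset, ∀ U ∈ r.labs.toFinset.powerset,
        (v ∉ T ∧ v ∉ U) ∧ (∀ a ∈ c.labs, a ∉ U) ∧ (∀ a ∈ r.labs, a ∉ T) := by
      intro T hT U hU
      rw [Finset.mem_powerset] at hT hU
      refine ⟨⟨fun h => hv' (Finset.mem_union_left _ (hT h)),
        fun h => hv' (Finset.mem_union_right _ (hU h))⟩, fun a ha h => ?_, fun a ha h => ?_⟩
      · exact Finset.disjoint_left.1 hd (List.mem_toFinset.2 ha) (hU h)
      · exact Finset.disjoint_left.1 hd (hT h) (List.mem_toFinset.2 ha)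
    have e1 : ∀ T ∈ c.labs.toFinset.powerset, ∀ U ∈ r.labs.toFinset.powerset,
        ((∀ a ∈ T ∪ U, ∀ b ∈ T ∪ U, ¬ (LF.cons v c r).E a b) ↔
          ((∀ a ∈ T, ∀ b ∈ T, ¬ c.E a b) ∧ ∀ a ∈ U, ∀ b ∈ U, ¬ r.E a b)) := by
      intro T hT U hU
      obtain ⟨⟨k1, k2⟩, k3, k4⟩ := key T hT U hU
      constructor
      · intro h
        refine ⟨fun a ha b hb hE => h a (Finset.mem_union_left _ ha) b
          (Finset.mem_union_left _ hb) ?_, fun a ha b hb hE => h a (Finset.mem_union_right _ ha) b
          (Finset.mem_union_right _ hb) ?_⟩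
        · rw [LF.E_cons]
          exact Or.inr (Or.inr (Or.inl hE))
        · rw [LF.E_cons]
          exact Or.inr (Or.inr (Or.inr hE))
      · rintro ⟨h1, h2⟩ a ha b hb hE
        rw [LF.E_cons] at hE
        rw [Finset.mem_union] at ha hb
        rcases hE with ⟨rfl, -⟩ | ⟨rfl, -⟩ | hE | hE
        · exact ha.elim k1 k2
        · exact hb.elim k1 k2
        · obtain ⟨m1, m2⟩ := LF.mem_labs_of_E hE
          exact h1 a (ha.resolve_right (k3 a m1)) b (hb.resolve_right (k3 b m2)) hE
        · obtain ⟨m1, m2⟩ := LF.mem_labs_of_E hE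
          exact h2 a (ha.resolve_left (k4 a m1)) b (hb.resolve_left (k4 b m2)) hE
    have e2 : ∀ T ∈ c.labs.toFinset.powerset, ∀ U ∈ r.labs.toFinset.powerset,
        ((∀ a ∈ insert v (T ∪ U), ∀ b ∈ insert v (T ∪ U), ¬ (LF.cons v c r).E a b) ↔
          (((∀ a ∈ T, ∀ b ∈ T, ¬ c.E a b) ∧ ∀ a ∈ c.rts, a ∉ T) ∧
            ∀ a ∈ U, ∀ b ∈ U, ¬ r.E a b)) := by
      intro T hT U hU
      obtain ⟨⟨k1, k2⟩, k3, k4⟩ := key T hT U hU
      constructor
      · intro h
        have h' := (e1 T hT U hU).1 fun a ha b hb => h a (Finset.mem_insert_of_mem ha) b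
          (Finset.mem_insert_of_mem hb)
        refine ⟨⟨h'.1, fun a ha haT => ?_⟩, h'.2⟩
        refine h v (Finset.mem_insert_self _ _) a
          (Finset.mem_insert_of_mem (Finset.mem_union_left _ haT)) ?_
        rw [LF.E_cons]
        exact Or.inl ⟨rfl, ha⟩
      · rintro ⟨⟨h1, h3⟩, h2⟩ a ha b hb hE
        have hrts : ∀ a ∈ c.rts, a ∉ insert v (T ∪ U) := by
          intro a ha h
          have m1 := LF.mem_labs_of_mem_rts ha
          rw [Finset.mem_insert, Finset.mem_union] at h
          rcases h with h | h | h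
          · apply hv
            rw [← h]
            exact List.mem_append_left _ m1
          · exact h3 a ha h
          · exact k3 a m1 h
        have hE' := hE
        rw [LF.E_cons] at hE
        rcases hE with ⟨-, h4⟩ | ⟨-, h4⟩ | hE | hE
        · exact hrts b h4 hb
        · exact hrts a h4 ha
        · obtain ⟨m1, m2⟩ := LF.mem_labs_of_E hE
          have n1 : a ≠ v := fun h => hv (List.mem_append_left _ (h ▸ m1))
          have n2 : b ≠ v := fun h => hv (List.mem_append_left _ (h ▸ m2))
          exact (e1 T hT U hU).2 ⟨h1, h2⟩ a ((Finset.mem_insert.1 ha).resolve_left n1) b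
            ((Finset.mem_insert.1 hb).resolve_left n2) hE'
        · obtain ⟨m1, m2⟩ := LF.mem_labs_of_E hE
          have n1 : a ≠ v := fun h => hv (List.mem_append_right _ (h ▸ m1))
          have n2 : b ≠ v := fun h => hv (List.mem_append_right _ (h ▸ m2))
          exact (e1 T hT U hU).2 ⟨h1, h2⟩ a ((Finset.mem_insert.1 ha).resolve_left n1) b
            ((Finset.mem_insert.1 hb).resolve_left n2) hE'
    have e3 : ∀ T ∈ c.labs.toFinset.powerset, ∀ U ∈ r.labs.toFinset.powerset,
        ((∀ a ∈ (LF.cons v c r).rts, a ∉ T ∪ U) ↔ ∀ a ∈ r.rts, a ∉ U) := by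
      intro T hT U hU
      obtain ⟨⟨k1, k2⟩, k3, k4⟩ := key T hT U hU
      constructor
      · intro h a ha haU
        exact h a (by rw [LF.rts_cons]; exact List.mem_cons_of_mem _ ha)
          (Finset.mem_union_right _ haU)
      · intro h a ha haTU
        rw [LF.rts_cons, List.mem_cons] at ha
        rw [Finset.mem_union] at haTU
        rcases ha with rfl | ha
        · exact haTU.elim k1 k2
        · exact haTU.elim (k4 a (LF.mem_labs_of_mem_rts ha)) (h a ha)
    have prod : ∀ (f g : Finset V → R), ∑ T ∈ c.labs.toFinset.powerset,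
        ∑ U ∈ r.labs.toFinset.powerset, f T * g U =
        (∑ T ∈ c.labs.toFinset.powerset, f T) * ∑ U ∈ r.labs.toFinset.powerset, g U :=
      fun f g => (Finset.sum_mul_sum _ _ f g).symm
    constructor
    · rw [hset, LFs_step z v _ _ hv' hd, LF.toFo_cons, I_cons, ← c1, ← c2, ← r1, add_mul,
        mul_assoc, ← prod, ← prod]
      congr 1
      · refine Finset.sum_congr rfl fun T hT => Finset.sum_congr rfl fun U hU => ?_
        rw [propext (e1 T hT U hU), LFs_and]
        ring
      · congr 1
        refine Finset.sum_congr rfl fun T hT => Finset.sum_congr rfl fun U hU => ?_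
        rw [propext (e2 T hT U hU), LFs_and]
        ring
    · rw [hset, LFs_step z v _ _ hv' hd, LF.toFo_cons, J_cons, ← c1, ← r2, ← prod]
      have z1 : ∑ T ∈ c.labs.toFinset.powerset, ∑ U ∈ r.labs.toFinset.powerset,
          LFsInd R ((∀ a ∈ insert v (T ∪ U), ∀ b ∈ insert v (T ∪ U),
            ¬ (LF.cons v c r).E a b) ∧ ∀ a ∈ (LF.cons v c r).rts, a ∉ insert v (T ∪ U)) *
            (z ^ T.card * z ^ U.card) = 0 := by
        refine Finset.sum_eq_zero fun T hT => Finset.sum_eq_zero fun U hU => ?_
        rw [LFs_false, zero_mul]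
        rintro ⟨-, h⟩
        exact h v (by rw [LF.rts_cons]; exact List.mem_cons_self) (Finset.mem_insert_self _ _)
      rw [z1, mul_zero, add_zero]
      refine Finset.sum_congr rfl fun T hT => Finset.sum_congr rfl fun U hU => ?_
      rw [LFs_and, propext (e1 T hT U hU), propext (e3 T hT U hU), LFs_and, LFs_and]
      ring

open Classical in
theorem LF.sum_eq {R : Type*} [CommSemiring R] (z : R) (F : LF V) (hF : F.labs.Nodup) :
    (∑ S ∈ F.labs.toFinset.powerset.filter (fun S => ∀ a ∈ S, ∀ b ∈ S, ¬ F.E a b), z ^ S.card) = I z F.toFo ∧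
    (∑ S ∈ F.labs.toFinset.powerset.filter
      (fun S => (∀ a ∈ S, ∀ b ∈ S, ¬ F.E a b) ∧ ∀ a ∈ F.rts, a ∉ S), z ^ S.card) = J z F.toFo := by
  rw [Finset.sum_filter, Finset.sum_filter]
  simp only [LFs_ite]
  exact LFs_main z F hF

end FU
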