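import Pool.Agent.Helper56.FU.Ind
import Pool.Agent.Helper56.FU.Leaf

/-!
# FU-G11 The inequality of Levit and Mandrescu

TO PROVE (in place).  Double counting of the pairs `(S, v)`, `S` independent with `k` vertices, `v ∉ S`, `S ∪ {v}` independent:
their number is `(k+1) cf (k+1)` (each independent set with `k+1` vertices comes from `k+1` pairs).  For fixed `S` let `W` be the set of
these `v`; the two colour classes (`SimpleGraph.IsAcyclic.colorable_two`) split `W` in two independent sets, one of them has at
least `|W|/2` elements, and its union with `S` is independent (no vertex of `W` is adjacent to a vertex of `S`).  So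
`k + |W|/2 ≤ alp G`, `|W| ≤ 2 (alp G - k)`.
-/

set_option autoImplicit false

namespace FU

variable {V : Type*} [Fintype V] [DecidableEq V]

theorem levM_aux {G : SimpleGraph V} (hG : G.IsAcyclic) {S : Finset V} (hS : S ∈ ind G)
    {W : Finset V} (hW : ∀ v ∈ W, v ∉ S ∧ insert v S ∈ ind G) :
    W.card ≤ 2 * (alp G - S.card) := by
  obtain ⟨A, h1, h2, -⟩ := exists_color hG
  have key : ∀ B : Finset V, (∀ a ∈ B, ∀ b ∈ B, ¬ G.Adj a b) →
      (W ∩ B).card + S.card ≤ alp G := by
    intro B hB
    have hd : Disjoint (W ∩ B) S := by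
      rw [Finset.disjoint_left]
      intro v hv
      exact (hW v (Finset.mem_inter.1 hv).1).1
    rw [← Finset.card_union_of_disjoint hd]
    refine le_alp G ((mem_ind G _).2 fun a ha b hb => ?_)
    rw [Finset.mem_union] at ha hb
    rcases ha with ha | ha <;> rcases hb with hb | hb
    · exact hB a (Finset.mem_inter.1 ha).2 b (Finset.mem_inter.1 hb).2
    · exact (mem_ind G _).1 (hW a (Finset.mem_inter.1 ha).1).2 a (Finset.mem_insert_self _ _) b
        (Finset.mem_insert_of_mem hb)
    · exact (mem_ind G _).1 (hW b (Finset.mem_inter.1 hb).1).2 a (Finset.mem_insert_of_mem ha) b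
        (Finset.mem_insert_self _ _)
    · exact (mem_ind G _).1 hS a ha b hb
  have h3 := key A h1
  have h4 := key Aᶜ h2
  have h5 : W.card = (W ∩ A).card + (W ∩ Aᶜ).card := by
    rw [← Finset.card_inter_add_card_sdiff W A, Finset.sdiff_eq_inter_compl]
  omega

theorem levM {G : SimpleGraph V} (hG : G.IsAcyclic) {k : ℕ} (hk : k ≤ alp G) :
    (k + 1) * cf G (k + 1) ≤ 2 * (alp G - k) * cf G k := by
  have h1 : (k + 1) * cf G (k + 1) =
      (((ind G).filter fun S => S.card = k + 1).sigma fun T => T).card := by
    rw [Finset.card_sigma, cf, mul_comm]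
    symm
    refine Finset.sum_const_nat fun T hT => (Finset.mem_filter.1 hT).2
  have h2 : (((ind G).filter fun S => S.card = k + 1).sigma fun T => T).card ≤
      (((ind G).filter fun S => S.card = k).sigma fun S =>
        Finset.univ.filter fun v => v ∉ S ∧ insert v S ∈ ind G).card := by
    refine Finset.card_le_card_of_injOn
      (fun p : (_ : Finset V) × V => (⟨p.1.erase p.2, p.2⟩ : (_ : Finset V) × V)) ?_ ?_
    · rintro ⟨T, v⟩ hT
      simp only [Finset.coe_sigma, Set.mem_sigma_iff, Finset.mem_coe, Finset.mem_filter] at hT ⊢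
      obtain ⟨⟨hT1, hT2⟩, hv⟩ := hT
      refine ⟨⟨(mem_ind G _).2 fun a ha b hb => (mem_ind G _).1 hT1 a (Finset.mem_of_mem_erase ha) b
        (Finset.mem_of_mem_erase hb), ?_⟩, Finset.mem_univ _, Finset.notMem_erase _ _, ?_⟩
      · rw [Finset.card_erase_of_mem hv, hT2]
        rfl
      · rwa [Finset.insert_erase hv]
    · rintro ⟨T, v⟩ hT ⟨T', v'⟩ hT' h
      simp only [Finset.coe_sigma, Set.mem_sigma_iff, Finset.mem_coe, Finset.mem_filter] at hT hT'
      simp only [Sigma.mk.injEq, heq_eq_eq] at h
      obtain ⟨h3, rfl⟩ := h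
      have h4 : T = T' := by
        rw [← Finset.insert_erase hT.2, h3, Finset.insert_erase hT'.2]
      rw [h4]
  rw [h1]
  refine h2.trans ?_
  rw [Finset.card_sigma, cf, mul_comm]
  refine Finset.sum_le_card_nsmul _ _ _ fun S hS => ?_
  rw [Finset.mem_filter] at hS
  have := levM_aux hG hS.1 (W := Finset.univ.filter fun v => v ∉ S ∧ insert v S ∈ ind G)
    fun v hv => (Finset.mem_filter.1 hv).2
  rwa [hS.2] at this

end FU
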