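import Pool.Agent.Helper56.FU.Basic

/-!
# FU-A11 `mu` is the logarithmic derivative

TO PROVE (in place).  Structural induction for
`x * (I X F)'(x) = mu x F * I x F` and `x * (J X F)'(x) = (mu x F - d x F) * J x F`, where `I X F` is the polynomial and
`(I X F).eval x = I x F` (`map_IJ` with `Polynomial.evalRingHom x`).
For `cons c r`: `(I c + X J c) I r`; `x d/dx` gives `(mu c I c + x J c + x (mu c - d c) J c) I r + (I c + x J c) mu r I r`, and
`x J c = x q c I c` (`J_eq`), so that `x J c (1 - d c) = p (1 - d c) (I c + x J c)`.
-/

set_option autoImplicit false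

namespace FU

theorem muD_eval (x : ℝ) (F : Fo) :
    (I (Polynomial.X : Polynomial ℝ) F).eval x = I x F ∧
      (J (Polynomial.X : Polynomial ℝ) F).eval x = J x F := by
  have h := map_IJ (Polynomial.X : Polynomial ℝ) (Polynomial.evalRingHom x) F
  rwa [Polynomial.coe_evalRingHom, Polynomial.eval_X] at h

theorem eval_I (x : ℝ) (F : Fo) : (I (Polynomial.X : Polynomial ℝ) F).eval x = I x F :=
  (muD_eval x F).1

theorem muD_aux {x : ℝ} (hx : 0 < x) (F : Fo) :
    x * (Polynomial.derivative (I (Polynomial.X : Polynomial ℝ) F)).eval x = mu x F * I x F ∧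
    x * (Polynomial.derivative (J (Polynomial.X : Polynomial ℝ) F)).eval x =
      (mu x F - d x F) * J x F := by
  induction F with
  | nil => simp [mu, d]
  | cons c r ihc ihr =>
    obtain ⟨hc1, hc2⟩ := ihc
    obtain ⟨hr1, hr2⟩ := ihr
    have hp : x * J x c = p x c * (I x c + x * J x c) := by
      have h1 := mul_pos hx (q_pos hx c)
      have h2 : (1 + x * q x c) ≠ 0 := by positivity
      rw [J_eq hx c]
      unfold p
      field_simp
    have hmu : mu x (.cons c r) = p x c * (1 - d x c) + mu x c + mu x r := rfl
    have hd : d x (.cons c r) = p x c * (1 - d x c) + d x r := rfl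
    constructor
    · rw [hmu, I_cons, I_cons]
      simp only [Polynomial.derivative_mul, Polynomial.derivative_add, Polynomial.derivative_X,
        Polynomial.eval_add, Polynomial.eval_mul, Polynomial.eval_one, Polynomial.eval_X,
        (muD_eval x c).1, (muD_eval x c).2, (muD_eval x r).1]
      linear_combination I x r * hc1 + x * I x r * hc2 + (I x c + x * J x c) * hr1 +
        (1 - d x c) * I x r * hp
    · rw [hmu, hd, J_cons, J_cons]
      simp only [Polynomial.derivative_mul, Polynomial.eval_add, Polynomial.eval_mul,
        (muD_eval x c).1, (muD_eval x r).2]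
      linear_combination J x r * hc1 + I x c * hr2

theorem mu_eq {x : ℝ} (hx : 0 < x) (F : Fo) :
    x * (Polynomial.derivative (I (Polynomial.X : Polynomial ℝ) F)).eval x = mu x F * I x F :=
  (muD_aux hx F).1

end FU
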