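import Mathlib

/-!
# Positivity of the integral, explicit version

After `Pos.lean` (helper8).  `a = (K N)^(-1/2)`.
* `|θ| ≤ M a`: `|w.im| ≤ K N (M a)^3 / N^(-s) ≤ M^3 / N^(1/2 - s) ≤ 1`, so `Re ψ ≥ 0`.
* `|θ| ≤ a`: `‖w‖ ≤ 1`, so `Re ψ ≥ exp (-1) / 2`; this part of the integral is at least `(2 / (3 π^2)) exp (-1) a^3`.
* `M a ≤ |θ| ≤ π`: `(1 - cos θ) ‖ψ‖ ≤ 1/(c^2 N^2 θ^2)`, the integral is at most `2 K^2 a^3 / (c^2 M)`.
-/

set_option autoImplicit false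

namespace FU

private theorem tailE {f : ℝ → ℝ} (hf : Continuous f) {b C : ℝ} (hb : 0 < b) (hbπ : b ≤ Real.pi)
    (hC : 0 ≤ C) (h : ∀ θ ∈ Set.Icc b Real.pi, -(C * (θ ^ 2)⁻¹) ≤ f θ) :
    -(C / b) ≤ ∫ θ in b..Real.pi, f θ := by
  have hpi := Real.pi_pos
  have hcont : ContinuousOn (fun θ : ℝ => -(C * (θ ^ 2)⁻¹)) (Set.uIcc b Real.pi) := by
    rw [Set.uIcc_of_le hbπ]
    refine ContinuousOn.neg (continuousOn_const.mul (ContinuousOn.inv₀ (by fun_prop) ?_))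
    intro x hx
    have : 0 < x := lt_of_lt_of_le hb hx.1
    positivity
  have h1 : ∫ θ in b..Real.pi, -(C * (θ ^ 2)⁻¹) = C * Real.pi⁻¹ - C * b⁻¹ := by
    rw [intervalIntegral.integral_eq_sub_of_hasDerivAt (f := fun θ => C * θ⁻¹)]
    · intro x hx
      rw [Set.uIcc_of_le hbπ] at hx
      have hx0 : x ≠ 0 := (lt_of_lt_of_le hb hx.1).ne'
      have := (hasDerivAt_inv hx0).const_mul C
      rwa [mul_neg] at this
    · exact hcont.intervalIntegrable
  have h2 : ∫ θ in b..Real.pi, -(C * (θ ^ 2)⁻¹) ≤ ∫ θ in b..Real.pi, f θ :=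
    intervalIntegral.integral_mono_on hbπ hcont.intervalIntegrable
      (hf.intervalIntegrable _ _) h
  have h3 : 0 ≤ C * Real.pi⁻¹ := by positivity
  rw [div_eq_mul_inv]
  linarith

private theorem centerE {f : ℝ → ℝ} (hf : Continuous f) {a C : ℝ} (ha : 0 ≤ a)
    (h : ∀ θ ∈ Set.Icc (-a) a, C * θ ^ 2 ≤ f θ) :
    2 * C * a ^ 3 / 3 ≤ ∫ θ in (-a)..a, f θ := by
  have h1 : ∫ θ in (-a)..a, C * θ ^ 2 = 2 * C * a ^ 3 / 3 := by
    rw [intervalIntegral.integral_const_mul, integral_pow]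
    push_cast
    ring
  rw [← h1]
  refine intervalIntegral.integral_mono_on (by linarith) ?_ (hf.intervalIntegrable _ _) h
  exact Continuous.intervalIntegrable (by fun_prop) _ _

private theorem exp_sqE {y : ℝ} (hy : 0 < y) : Real.exp (-y) ≤ 2 / y ^ 2 := by
  rw [Real.exp_neg, ← one_div, div_le_div_iff₀ (Real.exp_pos y) (by positivity)]
  have := Real.quadratic_le_exp_of_nonneg hy.le
  nlinarith

theorem pos_explicit {c K s M N : ℝ} (hc : 0 < c) (hK : 1 ≤ K) (hM1 : 1 < M)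
    (hMc : 90 * K ^ 2 ≤ c ^ 2 * M) (hN0 : 0 < N) (hNM : M ^ 2 ≤ N) (hNe : M ^ 3 ≤ N ^ (1 / 2 - s))
    {ψ : ℝ → ℂ} (hψ : Continuous ψ)
    (hψ1 : ∀ θ, |θ| ≤ Real.pi → ‖ψ θ‖ ≤ Real.exp (-(c * N * θ ^ 2)))
    (hψ2 : ∀ θ, |θ| < N ^ (-s) → ∃ w : ℂ, ψ θ = Complex.exp w ∧ ‖w‖ ≤ K * N * θ ^ 2 ∧
        |w.im| ≤ K * N * |θ| ^ 3 / N ^ (-s)) :
    0 < ∫ θ in (-Real.pi)..Real.pi, (1 - Real.cos θ) * (ψ θ).re := by
  have hpi := Real.pi_pos
  have hpi3 := Real.pi_gt_three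
  have hK0 : 0 < K := by linarith
  have hM0 : 0 < M := by linarith
  set e : ℝ := 1 / 2 - s with he
  set A : ℝ := Real.exp (-1) / 2 * (2 / Real.pi ^ 2) with hA
  have hA0 : 0 < A := by positivity
  have hA30 : 1 / 30 < A := by
    have h1 : Real.exp 1 < 2.7182818286 := Real.exp_one_lt_d9
    have h2 : Real.pi < 3.15 := Real.pi_lt_d2
    have h3 : A = (Real.exp 1 * Real.pi ^ 2)⁻¹ := by
      rw [hA, Real.exp_neg]
      field_simp
    rw [h3, one_div]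
    apply inv_strictAnti₀ (by positivity)
    have h4 : Real.pi ^ 2 < 3.15 ^ 2 := by
      apply pow_lt_pow_left₀ h2 hpi.le
      norm_num
    nlinarith [Real.exp_pos 1]
  have hMA : K ^ 2 / (c ^ 2 * M) < A / 3 := by
    rw [div_lt_iff₀ (by positivity)]
    have : 0 < c ^ 2 * M := by positivity
    nlinarith
  set a : ℝ := (√(K * N))⁻¹ with ha
  have hKN : 0 < K * N := by positivity
  have hsN : 0 < √(K * N) := Real.sqrt_pos.2 hKN
  have ha0 : 0 < a := by positivity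
  have hNa : K * N * a ^ 2 = 1 := by
    rw [ha, inv_pow, Real.sq_sqrt hKN.le]
    field_simp
  have hNKN : N ≤ K * N := by nlinarith
  have hMa : M * a ≤ 1 := by
    have h1 : M ≤ √(K * N) := by
      rw [← Real.sqrt_sq hM0.le]
      exact Real.sqrt_le_sqrt (hNM.trans hNKN)
    rw [ha, ← div_eq_mul_inv, div_le_one hsN]
    exact h1
  have haM : a ≤ M * a := by nlinarith
  have haN : N ^ e * a ≤ N ^ (-s) := by
    have h1 : a ≤ N ^ (-(1 / 2) : ℝ) := by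
      rw [ha, Real.rpow_neg hN0.le, ← Real.sqrt_eq_rpow]
      exact inv_anti₀ (Real.sqrt_pos.2 hN0) (Real.sqrt_le_sqrt hNKN)
    calc N ^ e * a ≤ N ^ e * N ^ (-(1 / 2) : ℝ) := mul_le_mul_of_nonneg_left h1 (by positivity)
      _ = N ^ (-s) := by
        rw [← Real.rpow_add hN0, he]
        congr 1
        ring
  have hNe0 : 0 < N ^ e := by positivity
  have hMM : M < M ^ 3 := by nlinarith [sq_nonneg (M - 1), mul_pos hM0 hM0]
  set D : ℝ → ℝ := fun θ => (1 - Real.cos θ) * (ψ θ).re with hD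
  have hDc : Continuous D := by
    rw [hD]
    exact (continuous_const.sub Real.continuous_cos).mul (Complex.continuous_re.comp hψ)
  -- the local form
  have hloc : ∀ θ : ℝ, |θ| ≤ M * a → ∃ w : ℂ, ψ θ = Complex.exp w ∧ ‖w‖ ≤ K * N * θ ^ 2 ∧
      |w.im| ≤ 1 := by
    intro θ hθ
    obtain ⟨w, hw1, hw2, hw3⟩ := hψ2 θ (by
      refine lt_of_le_of_lt hθ (lt_of_lt_of_le ?_ haN)
      exact mul_lt_mul_of_pos_right (lt_of_lt_of_le hMM hNe) ha0)
    refine ⟨w, hw1, hw2, hw3.trans ?_⟩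
    rw [div_le_one (by positivity)]
    have h1 : |θ| ^ 3 ≤ (M * a) ^ 3 := pow_le_pow_left₀ (abs_nonneg _) hθ 3
    have h2 : K * N * |θ| ^ 3 ≤ K * N * (M * a) ^ 3 := mul_le_mul_of_nonneg_left h1 (by positivity)
    have h3 : K * N * (M * a) ^ 3 = M ^ 3 * a * (K * N * a ^ 2) := by ring
    rw [h3, hNa, mul_one] at h2
    exact h2.trans ((mul_le_mul_of_nonneg_right hNe ha0.le).trans haN)
  have hcos : ∀ y : ℝ, |y| ≤ 1 → 1 / 2 ≤ Real.cos y := by
    intro y hy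
    have h1 := Real.one_sub_sq_div_two_le_cos (x := y)
    have h2 : y ^ 2 ≤ 1 := by
      rw [← sq_abs]
      exact pow_le_one₀ (abs_nonneg _) hy
    linarith
  have hre : ∀ θ : ℝ, |θ| ≤ M * a → 0 ≤ (ψ θ).re := by
    intro θ hθ
    obtain ⟨w, hw1, _, hw3⟩ := hloc θ hθ
    rw [hw1, Complex.exp_re]
    exact mul_nonneg (Real.exp_pos _).le (by linarith [hcos _ hw3])
  have hcosn : ∀ θ : ℝ, 0 ≤ 1 - Real.cos θ := fun θ => by linarith [Real.cos_le_one θ]
  have hmid : ∀ θ : ℝ, |θ| ≤ M * a → 0 ≤ D θ := fun θ hθ => mul_nonneg (hcosn θ) (hre θ hθ)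
  have hcen : ∀ θ ∈ Set.Icc (-a) a, A * θ ^ 2 ≤ D θ := by
    intro θ hθ
    have hθa : |θ| ≤ a := abs_le.2 hθ
    obtain ⟨w, hw1, hw2, hw3⟩ := hloc θ (hθa.trans haM)
    have h1 : 2 / Real.pi ^ 2 * θ ^ 2 ≤ 1 - Real.cos θ := by
      have := Real.cos_le_one_sub_mul_cos_sq (x := θ) (by linarith [hMa, haM])
      linarith
    have h2 : Real.exp (-1) / 2 ≤ (ψ θ).re := by
      rw [hw1, Complex.exp_re]
      have h3 : -1 ≤ w.re := by
        have h4 : θ ^ 2 ≤ a ^ 2 := by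
          rw [← sq_abs]
          exact pow_le_pow_left₀ (abs_nonneg _) hθa 2
        have h5 : K * N * θ ^ 2 ≤ 1 := by
          calc K * N * θ ^ 2 ≤ K * N * a ^ 2 := mul_le_mul_of_nonneg_left h4 (by positivity)
            _ = 1 := hNa
        have h6 := (abs_le.1 ((Complex.abs_re_le_norm w).trans (hw2.trans h5))).1
        exact h6
      calc Real.exp (-1) / 2 = Real.exp (-1) * (1 / 2) := by ring
        _ ≤ Real.exp w.re * Real.cos w.im :=
          mul_le_mul (Real.exp_le_exp.2 h3) (hcos _ hw3) (by norm_num) (Real.exp_pos _).le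
    calc A * θ ^ 2 = (2 / Real.pi ^ 2 * θ ^ 2) * (Real.exp (-1) / 2) := by rw [hA]; ring
      _ ≤ (1 - Real.cos θ) * (ψ θ).re :=
        mul_le_mul h1 h2 (by positivity) (hcosn θ)
  set B : ℝ := K ^ 2 * a ^ 4 / c ^ 2 with hB
  have hB0 : 0 < B := by positivity
  have htl : ∀ θ : ℝ, M * a ≤ |θ| → |θ| ≤ Real.pi → -(B * (θ ^ 2)⁻¹) ≤ D θ := by
    intro θ h1 h2
    have hθ0 : 0 < |θ| := lt_of_lt_of_le (by positivity) h1
    have hθ2 : 0 < θ ^ 2 := by rw [← sq_abs]; positivity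
    have h3 : |(ψ θ).re| ≤ Real.exp (-(c * N * θ ^ 2)) :=
      (Complex.abs_re_le_norm _).trans (hψ1 θ h2)
    have h4 := exp_sqE (y := c * N * θ ^ 2) (by positivity)
    have h5 : 1 - Real.cos θ ≤ θ ^ 2 / 2 := by
      have := Real.one_sub_sq_div_two_le_cos (x := θ)
      linarith
    have h6 : |D θ| ≤ θ ^ 2 / 2 * (2 / (c * N * θ ^ 2) ^ 2) := by
      rw [hD]
      simp only
      rw [abs_mul, abs_of_nonneg (hcosn θ)]
      exact mul_le_mul h5 (h3.trans h4) (abs_nonneg _) (by positivity)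
    have h7 : θ ^ 2 / 2 * (2 / (c * N * θ ^ 2) ^ 2) = B * (θ ^ 2)⁻¹ := by
      have h8 : K ^ 2 * a ^ 4 = 1 / N ^ 2 := by
        rw [eq_div_iff (by positivity)]
        calc K ^ 2 * a ^ 4 * N ^ 2 = (K * N * a ^ 2) ^ 2 := by ring
          _ = 1 := by rw [hNa, one_pow]
      rw [hB, h8]
      field_simp
    rw [h7] at h6
    exact (abs_le.1 h6).1
  have hMa0 : 0 < M * a := by positivity
  have hMaπ : M * a ≤ Real.pi := by linarith
  have t1 : -(B / (M * a)) ≤ ∫ θ in (M * a)..Real.pi, D θ := by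
    refine tailE hDc hMa0 hMaπ hB0.le fun θ hθ => htl θ ?_ ?_
    · rw [abs_of_pos (lt_of_lt_of_le hMa0 hθ.1)]; exact hθ.1
    · rw [abs_of_pos (lt_of_lt_of_le hMa0 hθ.1)]; exact hθ.2
  have t2 : -(B / (M * a)) ≤ ∫ θ in (-Real.pi)..(-(M * a)), D θ := by
    rw [← intervalIntegral.integral_comp_neg]
    refine tailE (hDc.comp continuous_neg) hMa0 hMaπ hB0.le fun θ hθ => ?_
    have := htl (-θ) (by rw [abs_neg, abs_of_pos (lt_of_lt_of_le hMa0 hθ.1)]; exact hθ.1)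
      (by rw [abs_neg, abs_of_pos (lt_of_lt_of_le hMa0 hθ.1)]; exact hθ.2)
    rwa [neg_sq] at this
  have t3 : 0 ≤ ∫ θ in a..(M * a), D θ :=
    intervalIntegral.integral_nonneg haM fun θ hθ => hmid θ (by
      rw [abs_of_pos (lt_of_lt_of_le ha0 hθ.1)]; exact hθ.2)
  have t4 : 0 ≤ ∫ θ in (-(M * a))..(-a), D θ :=
    intervalIntegral.integral_nonneg (by linarith) fun θ hθ => hmid θ (by
      rw [abs_of_nonpos (by linarith [hθ.2])]; linarith [hθ.1])
  have t5 := centerE hDc ha0.le hcen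
  have hi : ∀ x y : ℝ, IntervalIntegrable D MeasureTheory.volume x y :=
    fun x y => hDc.intervalIntegrable _ _
  have hsum : ∫ θ in (-Real.pi)..Real.pi, D θ =
      (∫ θ in (-Real.pi)..(-(M * a)), D θ) + (∫ θ in (-(M * a))..(-a), D θ) +
      (∫ θ in (-a)..a, D θ) + (∫ θ in a..(M * a), D θ) + ∫ θ in (M * a)..Real.pi, D θ := by
    rw [intervalIntegral.integral_add_adjacent_intervals (hi _ _) (hi _ _),
      intervalIntegral.integral_add_adjacent_intervals (hi _ _) (hi _ _),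
      intervalIntegral.integral_add_adjacent_intervals (hi _ _) (hi _ _),
      intervalIntegral.integral_add_adjacent_intervals (hi _ _) (hi _ _)]
  rw [hsum]
  have h9 : B / (M * a) = a ^ 3 * (K ^ 2 / (c ^ 2 * M)) := by
    rw [hB]
    field_simp
  have h10 : a ^ 3 * (K ^ 2 / (c ^ 2 * M)) < a ^ 3 * (A / 3) :=
    mul_lt_mul_of_pos_left hMA (by positivity)
  rw [h9] at t1 t2
  have h11 : 2 * A * a ^ 3 / 3 = 2 * (a ^ 3 * (A / 3)) := by ring
  rw [h11] at t5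
  linarith

end FU
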