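import Pool.Agent.Helper56.FU.Quad
import Pool.Agent.Helper56.FU.ExpL
import Pool.Agent.Helper56.FU.DiffL
import Pool.Agent.Helper56.FU.MuD
import Pool.Agent.Helper56.FU.CAn
import Pool.Agent.Helper56.FU.Four
import Pool.Agent.Helper56.FU.PosE
import Pool.Agent.Helper56.FU.AdmE

/-!
# Log-concavity at the mean
-/

set_option autoImplicit false

namespace FU


/-- the polynomial `I X F` evaluated at a complex number -/
theorem aeval_I (z : ℂ) (F : Fo) :
    Polynomial.aeval z (I (Polynomial.X : Polynomial ℝ) F) = I z F := by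
  have h := (map_IJ (Polynomial.X : Polynomial ℝ) (Polynomial.aeval (R := ℝ) z).toRingHom F).1
  have h2 : (Polynomial.aeval (R := ℝ) z).toRingHom (Polynomial.X : Polynomial ℝ) = z := by
    simp
  rw [h2] at h
  exact h

theorem logc : ∀ x : ℝ, 0 < x → x ≤ 73 / 10 → ∀ F : Fo, (big : ℝ) ≤ x * F.sz →
    ∀ k : ℕ, 1 ≤ k → mu x F = k → (∀ j, 0 ≤ (I (Polynomial.X : Polynomial ℝ) F).coeff j) →
    (∀ θ : ℝ, |θ| ≤ Real.pi → ‖I ((x : ℂ) * Complex.exp (θ * Complex.I)) F‖ ≤
      I x F * Real.exp (-(1 / 140000 * (x * F.sz) * θ ^ 2))) →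
    (I (Polynomial.X : Polynomial ℝ) F).coeff (k - 1) * (I (Polynomial.X : Polynomial ℝ) F).coeff (k + 1) ≤
      (I (Polynomial.X : Polynomial ℝ) F).coeff k ^ 2 := by
  intro x hx hx1 F hF k hk hmu hnn htail
  set N : ℝ := x * F.sz with hN
  set U : ℝ := N ^ (-(499 / 1000) : ℝ) with hU
  have hA : Adm N U := adm_explicit hF
  have hN0 : 0 ≤ N := hA.2.1
  set P : Polynomial ℝ := I (Polynomial.X : Polynomial ℝ) F with hP
  have hI0 : 0 < I x F := (I_pos hx F).1
  have hIC : ((I x F : ℝ) : ℂ) ≠ 0 := by exact_mod_cast hI0.ne'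
  let ψ : ℝ → ℂ := fun θ =>
    Polynomial.aeval ((x : ℂ) * Complex.exp (θ * Complex.I)) P * Complex.exp (-(k * θ) * Complex.I) /
      ((I x F : ℝ) : ℂ)
  have hψc : Continuous ψ := by
    refine Continuous.div_const (Continuous.mul ?_ ?_) _
    · exact P.continuous_aeval.comp (by fun_prop)
    · fun_prop
  have hψn : ∀ θ : ℝ, |θ| ≤ Real.pi → ‖ψ θ‖ ≤ Real.exp (-(1 / 140000 * N * θ ^ 2)) := by
    intro θ hθ
    have h1 := htail θ hθ
    have h2 : ‖ψ θ‖ = ‖I ((x : ℂ) * Complex.exp (θ * Complex.I)) F‖ / I x F := by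
      simp only [ψ]
      rw [norm_div, norm_mul, hP, aeval_I]
      have h3 : ‖Complex.exp (-(k * θ) * Complex.I)‖ = 1 := by
        have : (-((k : ℂ) * (θ : ℂ))) = ((-(k * θ) : ℝ) : ℂ) := by push_cast; ring
        rw [this, Complex.norm_exp_ofReal_mul_I]
      rw [h3, mul_one, Complex.norm_real, Real.norm_of_nonneg hI0.le]
    rw [h2, div_le_iff₀ hI0]
    exact h1.trans (le_of_eq (mul_comm _ _))
  have hψe : ∀ θ : ℝ, |θ| < U → ∃ w : ℂ, ψ θ = Complex.exp w ∧ ‖w‖ ≤ 500000 * N * θ ^ 2 ∧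
      |w.im| ≤ 500000 * N * |θ| ^ 3 / U := by
    intro θ hθ
    have hnu : ‖(θ : ℂ) * Complex.I‖ = |θ| := by
      rw [norm_mul, Complex.norm_I, mul_one, Complex.norm_real, Real.norm_eq_abs]
    refine ⟨Lam x ((θ : ℂ) * Complex.I) F - ((θ : ℂ) * Complex.I) * (mu x F : ℂ), ?_, ?_, ?_⟩
    · have h1 := exp_Lam hx hx1 hA (u := (θ : ℂ) * Complex.I) (by rw [hnu]; exact hθ.le) F le_rfl
      simp only [ψ]
      rw [hP, aeval_I, ← h1, Complex.exp_sub, hmu]
      rw [div_eq_div_iff hIC (Complex.exp_ne_zero _)]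
      have h2 : Complex.exp (-(k * θ) * Complex.I) * Complex.exp ((θ : ℂ) * Complex.I * (k : ℂ)) = 1 := by
        rw [← Complex.exp_add]
        have : -((k : ℂ) * (θ : ℂ)) * Complex.I + (θ : ℂ) * Complex.I * (k : ℂ) = 0 := by ring
        rw [this, Complex.exp_zero]
      push_cast
      calc _ = ((I x F : ℝ) : ℂ) * Complex.exp (Lam x ((θ : ℂ) * Complex.I) F) *
            (Complex.exp (-(k * θ) * Complex.I) * Complex.exp ((θ : ℂ) * Complex.I * (k : ℂ))) := by ring
        _ = _ := by rw [h2]; ring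
    · have h1 := Lam_le hx hx1 hA (u := (θ : ℂ) * Complex.I) (by rw [hnu]; exact hθ.le) F le_rfl
      rw [hnu, sq_abs] at h1
      exact h1
    · refine im_le (f := fun u => Lam x u F - u * (mu x F : ℂ)) (K := 500000 * N) hA.1 (by positivity)
        ?_ ?_ ?_ hθ
      · exact (differentiableOn_Lam hx hx1 hA F le_rfl).sub (by fun_prop)
      · intro u hu
        rw [mem_ball_zero_iff] at hu
        exact Lam_le hx hx1 hA hu.le F le_rfl
      · intro u hu
        rw [mem_ball_zero_iff] at hu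
        simp only [map_sub, map_mul, Complex.conj_ofReal]
        rw [Lam_conj hx hx1 hA hu.le F le_rfl]
  have hy := big_le_rpow hF
  have hN1 : (1 : ℝ) ≤ N := by
    refine le_trans ?_ hF
    have : 1 ≤ big := Nat.one_le_pow _ _ (by norm_num)
    exact_mod_cast this
  have hint := pos_explicit (c := 1 / 140000) (K := 500000) (s := 499 / 1000) (M := 10 ^ 24) (N := N)
    (by norm_num) (by norm_num) (by norm_num) (by norm_num) (by linarith)
    (by
      calc ((10 : ℝ) ^ 24) ^ 2 ≤ 10 ^ 100 := by norm_num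
        _ ≤ N ^ (1 / 1000 : ℝ) := hy
        _ ≤ N ^ (1 : ℝ) := Real.rpow_le_rpow_of_exponent_le hN1 (by norm_num)
        _ = N := Real.rpow_one N)
    (by
      rw [show (1 / 2 - 499 / 1000 : ℝ) = 1 / 1000 by norm_num]
      exact le_trans (by norm_num) hy) hψc hψn hψe
  have hfour := four P x k hk
  have hrel : ∫ θ in (-Real.pi)..Real.pi, (1 - Real.cos θ) * (ψ θ).re =
      (∫ θ in (-Real.pi)..Real.pi, (1 - Real.cos θ) *
      (Polynomial.aeval ((x : ℂ) * Complex.exp (θ * Complex.I)) P *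
        Complex.exp (-(k * θ) * Complex.I)).re) / I x F := by
    rw [← intervalIntegral.integral_div]
    refine intervalIntegral.integral_congr fun θ _ => ?_
    simp only [ψ]
    rw [Complex.div_ofReal_re]
    ring
  rw [hrel, hfour] at hint
  have h5 : 0 < 2 * (P.coeff k * x ^ k) - P.coeff (k + 1) * x ^ (k + 1) - P.coeff (k - 1) * x ^ (k - 1) := by
    have h6 := (div_pos_iff_of_pos_right hI0).1 hint
    exact (mul_pos_iff_of_pos_left Real.pi_pos).1 h6
  have hA0 : 0 ≤ P.coeff (k - 1) * x ^ (k - 1) := mul_nonneg (hnn _) (by positivity)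
  have hB0 : 0 ≤ P.coeff (k + 1) * x ^ (k + 1) := mul_nonneg (hnn _) (by positivity)
  have h7 : (P.coeff (k - 1) * x ^ (k - 1)) * (P.coeff (k + 1) * x ^ (k + 1)) ≤ (P.coeff k * x ^ k) ^ 2 := by
    nlinarith [sq_nonneg (P.coeff (k - 1) * x ^ (k - 1) - P.coeff (k + 1) * x ^ (k + 1))]
  have h8 : x ^ (k - 1) * x ^ (k + 1) = (x ^ k) ^ 2 := by
    rw [← pow_add, ← pow_mul]
    congr 1
    omega
  have h9 : (P.coeff (k - 1) * P.coeff (k + 1)) * (x ^ k) ^ 2 ≤ P.coeff k ^ 2 * (x ^ k) ^ 2 := by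
    calc _ = (P.coeff (k - 1) * x ^ (k - 1)) * (P.coeff (k + 1) * x ^ (k + 1)) := by rw [← h8]; ring
      _ ≤ _ := h7
      _ = _ := by ring
  exact le_of_mul_le_mul_right h9 (by positivity)

end FU
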