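import Pool.Agent.Helper56.FU.Deco
import Pool.Agent.Helper56.FU.Leaf

/-!
# FU-G08 A lower bound for the partition function

TO PROVE (in place).  `A` and `B = Aᶜ` are independent, `|B| ≤ |A|`.  Let `d_b` be the number of neighbours of `b ∈ B` in `A`.
All subsets `T` of `B` are independent and `av G A T ≥ |A| - ∑_{b ∈ T} d_b` (the vertices of `A` with a neighbour in `T` are in the
union of the neighbourhoods).  So, by `Z_deco`,
`Z ≥ (1+x)^|A| ∑_{T ⊆ B} ∏_{b ∈ T} x (1+x)^(-d_b) = (1+x)^|A| ∏_{b ∈ B} (1 + x (1+x)^(-d_b))` (`Finset.prod_one_add` / `Finset.prod_add_one`).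
For every natural number `d`: `log (1 + x (1+x)^(-d)) ≥ (x/100) (3 - d)`: for `d ≥ 3` trivial; `log (1+y) ≥ y/(1+y)`
(`Real.one_sub_inv_le_log_of_pos`) and `x ≤ 73/10` give: `d = 0`: `x/(1+x) ≥ 3x/100`; `d = 1`: `y = x/(1+x)`, `y/(1+y) = x/(1+2x) ≥ 2x/100`;
`d = 2`: `y = x/(1+x)^2`, `y/(1+y) = x/((1+x)^2+x) ≥ x/100`.
And `log (1+x) ≥ x/(1+x) ≥ (x/100) (3/2)`.
So `log Z - |B| log (1+x) ≥ (|A|-|B|) (3/2)(x/100) + (x/100)(3|B| - ∑ d_b)`, and `∑ d_b ≤ |A| + |B|` (`card_edges`), so this is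
`≥ (x/100) ((3/2)(|A|-|B|) + 2|B| - |A|) = (x/200)(|A| + |B|)`.
-/

set_option autoImplicit false

namespace FU

variable {V : Type*} [Fintype V] [DecidableEq V]

private theorem one_add_ge {y : ℝ} (hy : 0 < y) : Real.exp (y / (1 + y)) ≤ 1 + y := by
  have h1 : (0 : ℝ) < 1 + y := by linarith
  rw [← Real.le_log_iff_exp_le h1]
  have h2 := Real.one_sub_inv_le_log_of_pos h1
  have h3 : y / (1 + y) = 1 - (1 + y)⁻¹ := by field_simp; ring
  rw [h3]; exact h2

private theorem per_b {x : ℝ} (hx : 0 < x) (hx1 : x ≤ 73 / 10) (d : ℕ) :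
    Real.exp (x / 100 * (3 - d)) ≤ 1 + x * ((1 + x) ^ d)⁻¹ := by
  have hpos : (0 : ℝ) < 1 + x := by linarith
  have hy : 0 < x * ((1 + x) ^ d)⁻¹ := by positivity
  by_cases hd : 3 ≤ d
  · have h1 : x / 100 * (3 - (d : ℝ)) ≤ 0 := by
      have : (3 : ℝ) ≤ d := by exact_mod_cast hd
      exact mul_nonpos_of_nonneg_of_nonpos (by positivity) (by linarith)
    have h2 : Real.exp (x / 100 * (3 - (d : ℝ))) ≤ 1 := by
      rw [← Real.exp_zero]; exact Real.exp_le_exp.2 h1
    linarith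
  · refine le_trans (Real.exp_le_exp.2 ?_) (one_add_ge hy)
    push Not at hd
    interval_cases d
    · rw [pow_zero, inv_one, mul_one, le_div_iff₀ hpos]
      push_cast
      nlinarith [mul_nonneg hx.le (sub_nonneg.2 hx1)]
    · rw [pow_one]
      have h3 : x * (1 + x)⁻¹ / (1 + x * (1 + x)⁻¹) = x / (1 + 2 * x) := by
        have h5 : (1 : ℝ) + 2 * x ≠ 0 := by positivity
        have h6 : 1 + x * (1 + x)⁻¹ = (1 + 2 * x) / (1 + x) := by field_simp; ring
        rw [h6]; field_simp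
      rw [h3, le_div_iff₀ (by positivity)]
      push_cast
      nlinarith [mul_nonneg hx.le (sub_nonneg.2 hx1)]
    · have h3 : x * ((1 + x) ^ 2)⁻¹ / (1 + x * ((1 + x) ^ 2)⁻¹) = x / ((1 + x) ^ 2 + x) := by
        have h5 : (1 + x) ^ 2 + x ≠ 0 := by positivity
        have h6 : 1 + x * ((1 + x) ^ 2)⁻¹ = ((1 + x) ^ 2 + x) / (1 + x) ^ 2 := by field_simp
        rw [h6]; field_simp
      rw [h3, le_div_iff₀ (by positivity)]
      push_cast
      have h7 : (1 + x) ^ 2 + x ≤ 100 := by nlinarith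
      nlinarith [mul_nonneg hx.le (sub_nonneg.2 h7)]

open Classical in
private theorem av_ge (G : SimpleGraph V) (A T : Finset V) :
    A.card ≤ av G A T + ∑ b ∈ T, (A.filter fun a => G.Adj b a).card := by
  have h1 : A ⊆ (A.filter fun v => ∀ b ∈ T, ¬ G.Adj v b) ∪
      T.biUnion (fun b => A.filter fun a => G.Adj b a) := by
    intro v hv
    rw [Finset.mem_union]
    by_cases h : ∀ b ∈ T, ¬ G.Adj v b
    · exact Or.inl (Finset.mem_filter.2 ⟨hv, h⟩)
    · push Not at h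
      obtain ⟨b, hb, hvb⟩ := h
      exact Or.inr (Finset.mem_biUnion.2 ⟨b, hb, Finset.mem_filter.2 ⟨hv, hvb.symm⟩⟩)
  refine (Finset.card_le_card h1).trans ((Finset.card_union_le _ _).trans ?_)
  exact Nat.add_le_add le_rfl Finset.card_biUnion_le

theorem Z_lower {G : SimpleGraph V} (hG : G.IsAcyclic) {A : Finset V} (hA : A ∈ ind G)
    (hB : (Aᶜ : Finset V) ∈ ind G) (hAB : (Aᶜ : Finset V).card ≤ A.card) {x : ℝ} (hx : 0 < x)
    (hx1 : x ≤ 73 / 10) :
    (1 + x) ^ (Aᶜ : Finset V).card * Real.exp (x * Fintype.card V / 200) ≤ Z G x := by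
  classical
  have hpos : (0 : ℝ) < 1 + x := by linarith
  set B : Finset V := Aᶜ with hBdef
  set dd : V → ℕ := fun b => (A.filter fun a => G.Adj b a).card with hdd
  -- the independent subsets of `B` are all subsets
  have hind : indc G A = B.powerset := by
    ext T
    unfold indc
    rw [Finset.mem_filter, Finset.mem_powerset]
    refine ⟨fun h => h.2, fun h => ⟨?_, h⟩⟩
    unfold ind at hB ⊢
    rw [Finset.mem_filter] at hB ⊢
    exact ⟨Finset.mem_univ _, fun a ha b hb => hB.2 a (h ha) b (h hb)⟩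
  have hZ : Z G x = ∑ T ∈ B.powerset, x ^ T.card * (1 + x) ^ av G A T := by
    rw [Z_deco G hA x, hind]
  have hterm : ∀ T ∈ B.powerset, (1 + x) ^ A.card * ∏ b ∈ T, (x * ((1 + x) ^ dd b)⁻¹)
      ≤ x ^ T.card * (1 + x) ^ av G A T := by
    intro T _
    have h1 := av_ge G A T
    have h2 : (1 + x) ^ A.card ≤ (1 + x) ^ (av G A T + ∑ b ∈ T, dd b) :=
      pow_le_pow_right₀ (by linarith) h1
    rw [Finset.prod_mul_distrib, Finset.prod_const, Finset.prod_inv_distrib,
      Finset.prod_pow_eq_pow_sum]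
    have h3 : (0 : ℝ) < (1 + x) ^ (∑ b ∈ T, dd b) := by positivity
    rw [pow_add] at h2
    have h4 : (1 + x) ^ A.card * ((1 + x) ^ (∑ b ∈ T, dd b))⁻¹ ≤ (1 + x) ^ av G A T := by
      rw [← div_eq_mul_inv, div_le_iff₀ h3]; exact h2
    calc (1 + x) ^ A.card * (x ^ T.card * ((1 + x) ^ (∑ b ∈ T, dd b))⁻¹)
        = x ^ T.card * ((1 + x) ^ A.card * ((1 + x) ^ (∑ b ∈ T, dd b))⁻¹) := by ring
      _ ≤ _ := mul_le_mul_of_nonneg_left h4 (by positivity)
  have hsum : (1 + x) ^ A.card * ∏ b ∈ B, (1 + x * ((1 + x) ^ dd b)⁻¹) ≤ Z G x := by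
    rw [hZ, Finset.prod_one_add, Finset.mul_sum]
    exact Finset.sum_le_sum hterm
  refine le_trans ?_ hsum
  have hprod : Real.exp (∑ b ∈ B, x / 100 * (3 - (dd b : ℝ)))
      ≤ ∏ b ∈ B, (1 + x * ((1 + x) ^ dd b)⁻¹) := by
    rw [Real.exp_sum]
    exact Finset.prod_le_prod (fun _ _ => (Real.exp_pos _).le) (fun b _ => per_b hx hx1 (dd b))
  obtain ⟨m, hm⟩ := Nat.exists_eq_add_of_le hAB
  have hone : Real.exp (3 * x / 200) ≤ 1 + x := by
    refine le_trans (Real.exp_le_exp.2 ?_) (one_add_ge hx)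
    rw [le_div_iff₀ hpos]
    nlinarith [mul_nonneg hx.le (sub_nonneg.2 hx1)]
  have hpow : Real.exp (m * (3 * x / 200)) ≤ (1 + x) ^ m := by
    rw [Real.exp_nat_mul]
    exact pow_le_pow_left₀ (Real.exp_pos _).le hone m
  have hedges : ∑ b ∈ B, dd b ≤ Fintype.card V := by
    have := card_edges hG A
    convert this using 2
  have hcard : A.card + B.card = Fintype.card V := by
    rw [hBdef, Finset.card_add_card_compl]
  have hexp : x * Fintype.card V / 200
      ≤ m * (3 * x / 200) + ∑ b ∈ B, x / 100 * (3 - (dd b : ℝ)) := by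
    rw [← Finset.mul_sum, Finset.sum_sub_distrib, Finset.sum_const, nsmul_eq_mul]
    have h1 : (∑ b ∈ B, (dd b : ℝ)) ≤ Fintype.card V := by exact_mod_cast hedges
    have h2 : (A.card : ℝ) + B.card = Fintype.card V := by exact_mod_cast hcard
    have h3 : (A.card : ℝ) = B.card + m := by exact_mod_cast hm
    nlinarith
  calc (1 + x) ^ B.card * Real.exp (x * Fintype.card V / 200)
      ≤ (1 + x) ^ B.card * Real.exp (m * (3 * x / 200) + ∑ b ∈ B, x / 100 * (3 - (dd b : ℝ))) :=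
        mul_le_mul_of_nonneg_left (Real.exp_le_exp.2 hexp) (by positivity)
    _ = (1 + x) ^ B.card * (Real.exp (m * (3 * x / 200)) *
          Real.exp (∑ b ∈ B, x / 100 * (3 - (dd b : ℝ)))) := by rw [Real.exp_add]
    _ ≤ (1 + x) ^ B.card * ((1 + x) ^ m * ∏ b ∈ B, (1 + x * ((1 + x) ^ dd b)⁻¹)) := by
        refine mul_le_mul_of_nonneg_left ?_ (by positivity)
        exact mul_le_mul hpow hprod (Real.exp_pos _).le (by positivity)
    _ = (1 + x) ^ A.card * ∏ b ∈ B, (1 + x * ((1 + x) ^ dd b)⁻¹) := by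
        rw [hm, pow_add, mul_assoc]

end FU
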