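import Pool.Agent.Helper56.FU.Deco

/-!
# FU-G10 A lower bound for the mean at `x = 73/10`

TO PROVE (in place).  `x = 73/10`, `1 + x = 83/10`, `W T = x^|T| (1+x)^(av T)`, `Z = ∑_T W T ≥ (1+x)^|A|` (term `T = ∅`),
`w = 33/50`, `c = log (w/x) < 0`, `Y T = (|A| - av T) log (1+x) + c |T|`, `m = |Aᶜ| log (1+w)`.
* `∑_T W T exp (Y T) = (1+x)^|A| ∑_T w^|T| ≤ (1+x)^|A| (1+w)^|Aᶜ| ≤ Z exp m` (`indc_sum_le`).
* `exp (Y - m) ≥ 1 + Y - m` gives `∑_T W T (1 + Y T - m) ≤ Z`, i.e. `∑_T W T Y T ≤ m Z`.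
* By `ZD_deco`, `ZD = ∑_T W T (|T| + (73/83) av T)`, and `(|A| - av T) = (Y T - c |T|) / log (1+x)`, so
  `ZD = (73/83)|A| Z + ∑ W |T| (1 + (73/83) c / log (83/10)) - (73/83) (∑ W Y) / log (83/10)
      ≥ (73/83) Z (|A| - |Aᶜ| log (83/50) / log (83/10))`, provided `1 + (73/83) c / log (83/10) ≥ 0`.
* The two numerical facts: `log (83/50) ≤ (6/25) log (83/10)`, i.e. `(83/50)^25 ≤ (83/10)^6`; and
  `(73/83) log (365/33) ≤ log (83/10)`, i.e. `(365/33)^73 ≤ (83/10)^83` (`-c = log (365/33)`).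
* So with `|Aᶜ| ≤ |A|`: `ZD ≥ (73/83)(19/25)|A| Z ≥ (2/3) |A| Z`.
-/

set_option autoImplicit false

namespace FU

variable {V : Type*} [Fintype V] [DecidableEq V]

theorem mean_num1 : 25 * Real.log (83 / 50) ≤ 6 * Real.log (83 / 10) := by
  have h : Real.log ((83 / 50) ^ 25) ≤ Real.log ((83 / 10) ^ 6) :=
    Real.log_le_log (by norm_num) (by norm_num)
  rw [Real.log_pow, Real.log_pow] at h
  push_cast at h
  exact h

theorem mean_num2 : 73 * Real.log (365 / 33) ≤ 83 * Real.log (83 / 10) := by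
  have h : Real.log ((365 / 33) ^ 73) ≤ Real.log ((83 / 10) ^ 83) :=
    Real.log_le_log (by norm_num) (by norm_num)
  rw [Real.log_pow, Real.log_pow] at h
  push_cast at h
  exact h

theorem ZD_lower (G : SimpleGraph V) {A : Finset V} (hA : A ∈ ind G) (hAB : (Aᶜ : Finset V).card ≤ A.card) :
    2 / 3 * A.card * Z G (73 / 10 : ℝ) ≤ ZD G (73 / 10) := by
  obtain ⟨L, hL⟩ : ∃ L, L = Real.log (83 / 10) := ⟨_, rfl⟩
  obtain ⟨c, hc⟩ : ∃ c, c = Real.log (365 / 33) := ⟨_, rfl⟩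
  obtain ⟨l, hl⟩ : ∃ l, l = Real.log (83 / 50) := ⟨_, rfl⟩
  have hLpos : 0 < L := by rw [hL]; exact Real.log_pos (by norm_num)
  have hn1 : 25 * l ≤ 6 * L := by rw [hl, hL]; exact mean_num1
  have hn2 : 73 * c ≤ 83 * L := by rw [hc, hL]; exact mean_num2
  obtain ⟨W, hW⟩ : ∃ W : Finset V → ℝ,
    W = fun T => (73 / 10 : ℝ) ^ T.card * (1 + 73 / 10) ^ av G A T := ⟨_, rfl⟩
  have hWpos : ∀ T, 0 < W T := by
    intro T
    rw [hW]
    positivity
  have hZ : Z G (73 / 10 : ℝ) = ∑ T ∈ indc G A, W T := by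
    rw [Z_deco G hA, hW]
  have hZD : ZD G (73 / 10) = ∑ T ∈ indc G A, W T * (T.card + 73 / 83 * av G A T) := by
    rw [ZD_deco G hA (by norm_num), hW]
    refine Finset.sum_congr rfl fun T _ => ?_
    have : (73 / 10 : ℝ) / (1 + 73 / 10) = 73 / 83 := by norm_num
    rw [this]
  obtain ⟨Y, hY⟩ : ∃ Y : Finset V → ℝ,
    Y = fun T => ((A.card : ℝ) - av G A T) * L - c * T.card := ⟨_, rfl⟩
  have hexp : ∀ T, W T * Real.exp (Y T) = (83 / 10) ^ A.card * (33 / 50) ^ T.card := by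
    intro T
    have e1 : Real.exp (A.card * L) = (83 / 10) ^ A.card := by
      rw [Real.exp_nat_mul, hL, Real.exp_log (by norm_num)]
    have e2 : Real.exp (av G A T * L) = (83 / 10) ^ av G A T := by
      rw [Real.exp_nat_mul, hL, Real.exp_log (by norm_num)]
    have e3 : Real.exp (T.card * c) = (365 / 33) ^ T.card := by
      rw [Real.exp_nat_mul, hc, Real.exp_log (by norm_num)]
    have e4 : Y T = A.card * L - av G A T * L - T.card * c := by
      rw [hY]
      ring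
    have e5 : W T = (73 / 10) ^ T.card * (83 / 10) ^ av G A T := by
      rw [hW]
      norm_num
    rw [e4, Real.exp_sub, Real.exp_sub, e1, e2, e3, e5]
    have e6 : (73 / 10 : ℝ) ^ T.card = (33 / 50) ^ T.card * (365 / 33) ^ T.card := by
      rw [← mul_pow]
      norm_num
    rw [e6]
    have e7 : (0 : ℝ) < (365 / 33) ^ T.card := by positivity
    have e8 : (0 : ℝ) < (83 / 10) ^ av G A T := by positivity
    field_simp
  have hAZ : (83 / 10 : ℝ) ^ A.card ≤ Z G (73 / 10 : ℝ) := by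
    obtain ⟨h1, h2⟩ := empty_mem_indc G A
    have h3 : W ∅ = (83 / 10 : ℝ) ^ A.card := by
      rw [hW]
      simp only [Finset.card_empty, pow_zero, one_mul, h2]
      norm_num
    rw [hZ, ← h3]
    exact Finset.single_le_sum (fun T _ => (hWpos T).le) h1
  have hZpos : 0 < Z G (73 / 10 : ℝ) := lt_of_lt_of_le (by positivity) hAZ
  obtain ⟨m, hm⟩ : ∃ m : ℝ, m = (Aᶜ : Finset V).card * l := ⟨_, rfl⟩
  have hexpm : Real.exp m = (83 / 50) ^ (Aᶜ : Finset V).card := by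
    rw [hm, Real.exp_nat_mul, hl, Real.exp_log (by norm_num)]
  have hsum : ∑ T ∈ indc G A, W T * Real.exp (Y T - m) ≤ Z G (73 / 10 : ℝ) := by
    have h1 : ∀ T, W T * Real.exp (Y T - m) =
        ((83 / 10) ^ A.card * (33 / 50) ^ T.card) / Real.exp m := by
      intro T
      rw [Real.exp_sub, ← mul_div_assoc, hexp]
    simp only [h1]
    rw [← Finset.sum_div, ← Finset.mul_sum, div_le_iff₀ (Real.exp_pos m), hexpm]
    have h2 := indc_sum_le G A (y := 33 / 50) (by norm_num)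
    have h3 : (1 + 33 / 50 : ℝ) = 83 / 50 := by norm_num
    rw [h3] at h2
    exact mul_le_mul hAZ h2 (Finset.sum_nonneg fun T _ => by positivity) hZpos.le
  have hWY : ∑ T ∈ indc G A, W T * Y T ≤ m * Z G (73 / 10 : ℝ) := by
    have h1 : ∑ T ∈ indc G A, W T * (1 + (Y T - m)) ≤
        ∑ T ∈ indc G A, W T * Real.exp (Y T - m) := by
      refine Finset.sum_le_sum fun T _ => mul_le_mul_of_nonneg_left ?_ (hWpos T).le
      have := Real.add_one_le_exp (Y T - m)
      linarith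
    have h2 : ∑ T ∈ indc G A, W T * (1 + (Y T - m)) =
        Z G (73 / 10 : ℝ) + ∑ T ∈ indc G A, W T * Y T - m * Z G (73 / 10 : ℝ) := by
      rw [hZ, Finset.mul_sum, ← Finset.sum_add_distrib, ← Finset.sum_sub_distrib]
      exact Finset.sum_congr rfl fun T _ => by ring
    linarith
  have hmain : ZD G (73 / 10) * L = 73 / 83 * A.card * L * Z G (73 / 10 : ℝ) -
      73 / 83 * (∑ T ∈ indc G A, W T * Y T) +
      (L - 73 / 83 * c) * ∑ T ∈ indc G A, W T * T.card := by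
    rw [hZD, hZ, Finset.mul_sum, Finset.mul_sum, Finset.mul_sum, Finset.sum_mul,
      ← Finset.sum_sub_distrib, ← Finset.sum_add_distrib]
    refine Finset.sum_congr rfl fun T _ => ?_
    rw [hY]
    ring
  have h1 : 0 ≤ (L - 73 / 83 * c) * ∑ T ∈ indc G A, W T * T.card :=
    mul_nonneg (by linarith) (Finset.sum_nonneg fun T _ =>
      mul_nonneg (hWpos T).le (Nat.cast_nonneg _))
  have h2 : m ≤ 6 / 25 * (A.card * L) := by
    rw [hm]
    have h3 : ((Aᶜ : Finset V).card : ℝ) ≤ A.card := by exact_mod_cast hAB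
    have h4 : ((Aᶜ : Finset V).card : ℝ) * l ≤ (Aᶜ : Finset V).card * (6 / 25 * L) :=
      mul_le_mul_of_nonneg_left (by linarith) (Nat.cast_nonneg _)
    have h5 : ((Aᶜ : Finset V).card : ℝ) * (6 / 25 * L) ≤ A.card * (6 / 25 * L) :=
      mul_le_mul_of_nonneg_right h3 (by positivity)
    linarith
  have h3 : m * Z G (73 / 10 : ℝ) ≤ 6 / 25 * (A.card * L) * Z G (73 / 10 : ℝ) :=
    mul_le_mul_of_nonneg_right h2 hZpos.le
  have h4 : 0 ≤ (A.card : ℝ) * L * Z G (73 / 10 : ℝ) := by positivity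
  have h5 : (2 / 3 * A.card * Z G (73 / 10 : ℝ)) * L ≤ ZD G (73 / 10) * L := by
    rw [hmain]
    nlinarith
  exact le_of_mul_le_mul_right h5 hLpos

end FU
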