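import Pool.Agent.Helper56.FU.Ind
import Pool.Agent.Helper56.FU.Leaf

/-!
# FU-G12 Small independent sets

`n = card V`.
* `cf k ≤ choose n k`.
* `cf k ≥ choose n k - n * choose (n-2) (k-2)` for `k ≥ 2`: a `k`-subset which is not independent contains both ends of one of the at most
  `n` edges (`card_edges`-type bound: an acyclic graph has at most `n` edges, see `Leaf.lean`; for instance `∑_v` of the edges to a
  fixed larger ... or directly `SimpleGraph.IsTree.card_edgeFinset` for a tree containing `G`).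
* Put `C = choose n k`, `n choose (n-2) (k-2) = C k (k-1)/(n-1)`.  So `cf k ≥ C (1 - k^2/(n-1))`, and
  `choose n (k-1) * choose n (k+1) = C^2 k (n-k) / ((k+1)(n-k+1)) ≤ C^2 k/(k+1)`.
* For `n - 1 ≥ 2 k^2 (k+1)`: `(1 - k^2/(n-1))^2 ≥ 1 - 2k^2/(n-1) ≥ k/(k+1)`.  So `n₀ = 2 K^2 (K+1) + 2` works (`k ≤ K`).
-/

set_option autoImplicit false

namespace FU

private theorem Smal_card_two {V : Type} [Fintype V] [DecidableEq V] (a b : V) (hab : a ≠ b) (k : ℕ)
    (hk : 2 ≤ k) : (Finset.univ.filter fun S : Finset V => S.card = k ∧ a ∈ S ∧ b ∈ S).card ≤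
      (Fintype.card V - 2).choose (k - 2) := by
  have h1 : (Fintype.card V - 2).choose (k - 2) =
      (Finset.powersetCard (k - 2) ((Finset.univ.erase a).erase b)).card := by
    rw [Finset.card_powersetCard, Finset.card_erase_of_mem, Finset.card_erase_of_mem (Finset.mem_univ a),
      Finset.card_univ]
    · rfl
    · exact Finset.mem_erase.2 ⟨hab.symm, Finset.mem_univ b⟩
  rw [h1]
  refine Finset.card_le_card_of_injOn (fun S => (S.erase a).erase b) ?_ ?_
  · intro S hS
    rw [Finset.mem_coe, Finset.mem_filter] at hS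
    obtain ⟨-, hc, ha, hb⟩ := hS
    rw [Finset.mem_coe, Finset.mem_powersetCard]
    refine ⟨Finset.erase_subset_erase _ (Finset.erase_subset_erase _ (Finset.subset_univ S)), ?_⟩
    rw [Finset.card_erase_of_mem (Finset.mem_erase.2 ⟨hab.symm, hb⟩), Finset.card_erase_of_mem ha, hc]
    rfl
  · intro S hS T hT h
    rw [Finset.mem_coe, Finset.mem_filter] at hS hT
    obtain ⟨-, -, ha, hb⟩ := hS
    obtain ⟨-, -, ha', hb'⟩ := hT
    have h' : (S.erase a).erase b = (T.erase a).erase b := h
    have h2 : S.erase a = T.erase a := by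
      rw [← Finset.insert_erase (Finset.mem_erase.2 ⟨hab.symm, hb⟩), h',
        Finset.insert_erase (Finset.mem_erase.2 ⟨hab.symm, hb'⟩)]
    rw [← Finset.insert_erase ha, h2, Finset.insert_erase ha']

private theorem Smal_le {V : Type} [Fintype V] [DecidableEq V] (G : SimpleGraph V) (k : ℕ) :
    cf G k ≤ (Fintype.card V).choose k := by
  classical
  unfold cf
  rw [← Finset.card_univ, ← Finset.card_powersetCard]
  refine Finset.card_le_card fun S hS => ?_
  rw [Finset.mem_filter] at hS
  exact Finset.mem_powersetCard.2 ⟨Finset.subset_univ S, hS.2⟩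

private theorem Smal_ge {V : Type} [Fintype V] [DecidableEq V] (G : SimpleGraph V) (hG : G.IsAcyclic)
    [Nonempty V] (k : ℕ) (hk : 2 ≤ k) :
    (Fintype.card V).choose k ≤ cf G k + Fintype.card V * (Fintype.card V - 2).choose (k - 2) := by
  classical
  obtain ⟨T, hGT, -, hT⟩ := SimpleGraph.Connected.exists_isTree_le_of_le_of_isAcyclic
    (SimpleGraph.connected_top (V := V)) (le_top : G ≤ ⊤) hG
  have hcard : T.edgeFinset.card ≤ Fintype.card V := by
    have := hT.card_edgeFinset
    omega
  set B : Finset (Finset V) := T.edgeFinset.biUnion fun e =>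
    Finset.univ.filter fun S : Finset V => S.card = k ∧ ∀ v ∈ e, v ∈ S with hB
  have hBcard : B.card ≤ Fintype.card V * (Fintype.card V - 2).choose (k - 2) := by
    calc B.card ≤ T.edgeFinset.card * (Fintype.card V - 2).choose (k - 2) := by
          refine Finset.card_biUnion_le_card_mul _ _ _ ?_
          intro e he
          induction e using Sym2.ind with
          | _ a b =>
            have hab : a ≠ b := by
              rw [SimpleGraph.mem_edgeFinset, SimpleGraph.mem_edgeSet] at he
              exact he.ne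
            refine le_trans (Finset.card_le_card fun S hS => ?_) (Smal_card_two a b hab k hk)
            rw [Finset.mem_filter] at hS ⊢
            exact ⟨Finset.mem_univ _, hS.2.1, hS.2.2 a (Sym2.mem_mk_left a b),
              hS.2.2 b (Sym2.mem_mk_right a b)⟩
      _ ≤ _ := Nat.mul_le_mul_right _ hcard
  have hsub : Finset.powersetCard k (Finset.univ : Finset V) ⊆
      ((ind G).filter fun S => S.card = k) ∪ B := by
    intro S hS
    have hSk := (Finset.mem_powersetCard.1 hS).2
    rw [Finset.mem_union]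
    by_cases h : S ∈ ind G
    · exact Or.inl (Finset.mem_filter.2 ⟨h, hSk⟩)
    · right
      rw [mem_ind] at h
      push Not at h
      obtain ⟨a, ha, b, hb, hab⟩ := h
      rw [hB, Finset.mem_biUnion]
      refine ⟨s(a, b), ?_, ?_⟩
      · rw [SimpleGraph.mem_edgeFinset, SimpleGraph.mem_edgeSet]
        exact hGT hab
      · rw [Finset.mem_filter]
        refine ⟨Finset.mem_univ _, hSk, fun v hv => ?_⟩
        rcases Sym2.mem_iff.1 hv with rfl | rfl
        · exact ha
        · exact hb
  have h1 := Finset.card_le_card hsub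
  rw [Finset.card_powersetCard, Finset.card_univ] at h1
  have h2 := Finset.card_union_le ((ind G).filter fun S => S.card = k) B
  unfold cf
  omega

theorem small_logConc (K : ℕ) (V : Type) [Fintype V] [DecidableEq V] (G : SimpleGraph V)
    (hG : G.IsAcyclic) (hn : 2 * K ^ 2 * (K + 1) + 2 ≤ Fintype.card V) (k : ℕ) (hk1 : 1 ≤ k) (hkK : k ≤ K) :
    cf G (k - 1) * cf G (k + 1) ≤ cf G k ^ 2 := by
  classical
  set n := Fintype.card V with hn'
  have hV : Nonempty V := by
    rw [← Fintype.card_pos_iff]; omega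
  have hKn : 2 * k ^ 2 * (k + 1) + 2 ≤ n := by
    have h1 : 2 * k ^ 2 * (k + 1) ≤ 2 * K ^ 2 * (K + 1) := by gcongr
    omega
  rcases Nat.lt_or_ge k 2 with hk2 | hk2
  · have hk : k = 1 := by omega
    subst hk
    have h1 : n ≤ cf G 1 := by
      rw [hn', ← Finset.card_univ (α := V)]
      unfold cf
      refine Finset.card_le_card_of_injOn (fun v => {v}) ?_ ?_
      · intro v _
        rw [Finset.mem_coe, Finset.mem_filter, mem_ind]
        refine ⟨?_, Finset.card_singleton v⟩
        intro a ha b hb hab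
        rw [Finset.mem_singleton] at ha hb
        rw [ha, hb] at hab
        exact G.loopless.irrefl v hab
      · intro v _ w _ h
        exact Finset.singleton_injective h
    have h2 := Smal_le G 0
    have h3 := Smal_le G 2
    rw [Nat.choose_zero_right] at h2
    have h4 : (Fintype.card V).choose 2 ≤ n ^ 2 := by
      rw [← hn', Nat.choose_two_right]
      refine le_trans (Nat.div_le_self _ _) ?_
      rw [pow_two]
      exact Nat.mul_le_mul_left _ (Nat.sub_le _ _)
    calc cf G (1 - 1) * cf G (1 + 1) ≤ 1 * n ^ 2 := Nat.mul_le_mul h2 (le_trans h3 h4)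
      _ ≤ cf G 1 ^ 2 := by rw [one_mul]; exact Nat.pow_le_pow_left h1 2
  · have hge := Smal_ge G hG k hk2
    have hle1 := Smal_le G (k - 1)
    have hle2 := Smal_le G (k + 1)
    rw [← hn'] at hge hle1 hle2
    obtain ⟨j, rfl⟩ : ∃ j, k = j + 2 := ⟨k - 2, by omega⟩
    obtain ⟨m, hm⟩ : ∃ m, n = m + 2 := ⟨n - 2, by omega⟩
    rw [hm] at hge hle1 hle2 hKn
    have hjm : j + 2 ≤ m := by nlinarith
    -- identities of binomial coefficients
    have e1 : (m + 2).choose (j + 2) * (j + 2) = (m + 2).choose (j + 1) * (m + 2 - (j + 1)) :=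
      Nat.choose_succ_right_eq (m + 2) (j + 1)
    have e2 : (m + 2).choose (j + 3) * (j + 3) = (m + 2).choose (j + 2) * (m + 2 - (j + 2)) :=
      Nat.choose_succ_right_eq (m + 2) (j + 2)
    have e3 : (m + 1) * m.choose j = (m + 1).choose (j + 1) * (j + 1) := Nat.add_one_mul_choose_eq m j
    have e4 : (m + 2) * (m + 1).choose (j + 1) = (m + 2).choose (j + 2) * (j + 2) :=
      Nat.add_one_mul_choose_eq (m + 1) (j + 1)
    simp only [Nat.add_sub_cancel] at hge
    rw [show j + 2 - 1 = j + 1 by omega] at hle1 ⊢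
    set C := ((m + 2).choose (j + 2) : ℝ) with hC
    set P := ((m + 2).choose (j + 1) : ℝ) with hP
    set Q := ((m + 2).choose (j + 3) : ℝ) with hQ
    set R := (m.choose j : ℝ) with hR
    set S := ((m + 1).choose (j + 1) : ℝ) with hS
    have r1 : C * (j + 2) = P * ((m : ℝ) - j + 1) := by
      have : ((m + 2 - (j + 1) : ℕ) : ℝ) = (m : ℝ) - j + 1 := by
        rw [Nat.cast_sub (by omega)]; push_cast; ring
      rw [hC, hP, ← this]
      exact_mod_cast e1
    have r2 : Q * (j + 3) = C * ((m : ℝ) - j) := by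
      have : ((m + 2 - (j + 2) : ℕ) : ℝ) = (m : ℝ) - j := by
        rw [Nat.cast_sub (by omega)]; push_cast; ring
      rw [hC, hQ, ← this]
      exact_mod_cast e2
    have r3 : ((m : ℝ) + 1) * R = S * (j + 1) := by rw [hR, hS]; exact_mod_cast e3
    have r4 : ((m : ℝ) + 2) * S = C * (j + 2) := by rw [hS, hC]; exact_mod_cast e4
    have hjm' : (j : ℝ) + 2 ≤ m := by exact_mod_cast hjm
    have hj0 : (0 : ℝ) ≤ j := Nat.cast_nonneg j
    have hC0 : 0 ≤ C := by rw [hC]; positivity
    have hKn' : 2 * ((j : ℝ) + 2) ^ 2 * (j + 2 + 1) + 2 ≤ (m : ℝ) + 2 := by exact_mod_cast hKn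
    have hge' : C ≤ (cf G (j + 2) : ℝ) + ((m : ℝ) + 2) * R := by
      rw [hC, hR]; exact_mod_cast hge
    have hR' : ((m : ℝ) + 2) * R = C * ((j + 2) * (j + 1) / (m + 1)) := by
      have : ((m : ℝ) + 1) ≠ 0 := by positivity
      field_simp
      linear_combination ((m : ℝ) + 2) * r3 + ((j : ℝ) + 1) * r4
    set ε := ((j : ℝ) + 2) * (j + 1) / (m + 1) with hε
    have hε0 : 0 ≤ ε := by positivity
    have hε1 : 2 * ε ≤ 1 / (j + 3) := by
      rw [hε, mul_div_assoc', div_le_div_iff₀ (by positivity) (by positivity)]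
      nlinarith
    have hlow : C * (1 - ε) ≤ cf G (j + 2) := by
      have : C * (1 - ε) = C - ((m : ℝ) + 2) * R := by rw [hR']; ring
      rw [this]; linarith
    have hε2 : 0 ≤ 1 - ε := by
      have : 1 / ((j : ℝ) + 3) ≤ 1 := by
        rw [div_le_one (by positivity)]; linarith
      linarith
    have hPQ : P * Q ≤ C ^ 2 * ((j + 2) / (j + 3)) := by
      have h1 : 0 < (m : ℝ) - j + 1 := by linarith
      have hP' : P = C * (j + 2) / ((m : ℝ) - j + 1) := by rw [r1]; field_simp
      have hQ' : Q = C * ((m : ℝ) - j) / (j + 3) := by rw [← r2]; field_simp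
      rw [hP', hQ']
      rw [show C * (↑j + 2) / (↑m - ↑j + 1) * (C * (↑m - ↑j) / (↑j + 3)) =
        C ^ 2 * (((j : ℝ) + 2) / (j + 3)) * (((m : ℝ) - j) / (m - j + 1)) by
          field_simp]
      have h2 : ((m : ℝ) - j) / (m - j + 1) ≤ 1 := by
        rw [div_le_one h1]; linarith
      have h3 : 0 ≤ C ^ 2 * (((j : ℝ) + 2) / (j + 3)) := by positivity
      exact mul_le_of_le_one_right h3 h2
    have hfin : P * Q ≤ (cf G (j + 2) : ℝ) ^ 2 := by
      calc P * Q ≤ C ^ 2 * ((j + 2) / (j + 3)) := hPQ
        _ ≤ C ^ 2 * (1 - ε) ^ 2 := by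
          refine mul_le_mul_of_nonneg_left ?_ (by positivity)
          have h4 : ((j : ℝ) + 2) / (j + 3) = 1 - 1 / (j + 3) := by field_simp; ring
          rw [h4]
          nlinarith [sq_nonneg ε]
        _ = (C * (1 - ε)) ^ 2 := by ring
        _ ≤ (cf G (j + 2) : ℝ) ^ 2 := pow_le_pow_left₀ (mul_nonneg hC0 hε2) hlow 2
    have : (cf G (j + 1) : ℝ) * cf G (j + 3) ≤ P * Q := by
      refine mul_le_mul ?_ ?_ (by positivity) (by rw [hP]; positivity)
      · rw [hP]; exact_mod_cast hle1
      · rw [hQ]; exact_mod_cast hle2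
    exact_mod_cast this.trans hfin

end FU
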