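import Pool.Agent.Helper56.FU.Lowe

/-!
# FU-G09 Decay of the characteristic function

TO PROVE (in place).  `exists_color` gives `A`, `B = Aᶜ`.  Let `n = card V`, `W T = x^|T| (1+x)^(av T)`, `Z = ∑_T W T`,
`ρ = ‖1 + x e^{iθ}‖ / (1+x) ≤ 1`.  By `Z_deco` `‖Z G (x e^{iθ})‖ ≤ ∑_T x^|T| ‖1 + x e^{iθ}‖^(av T) = ∑_T W T ρ^(av T)`.
Let `κ = x n / 200` and `s = (1 - cos θ) / (2 (1+x)^2) ∈ [0, 1]`.
* `ρ ≤ (1+x)^(-s)`: `ρ^2 = 1 - 2x(1 - cos θ)/(1+x)^2 ≤ exp (-2x(1 - cos θ)/(1+x)^2) ≤ exp (-2 s x) ≤ exp (-2 s log (1+x))`.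
  So `ρ^(av T) ≤ (w T)^s`, `w T = (1+x)^(-av T)`.
* `∑_T W T * w T = ∑_T x^|T| ≤ (1+x)^|B| ≤ Z exp (-κ)` (`indc_sum_le`, `Z_lower`).
* Bernoulli: for `t ≥ 0`: `(t exp κ)^s ≤ 1 + s (t exp κ - 1)` (`Real.rpow_one_add_le_one_add_mul_self`), so
  `t^s ≤ exp (-s κ) (1 + s (t exp κ - 1))`; with `t = w T`: `∑ W T (w T)^s ≤ exp (-s κ) (Z + s (exp κ ∑ W w - Z)) ≤ exp (-s κ) Z`.
* `1 - cos θ ≥ 2 θ^2 / π^2` for `|θ| ≤ π` and `(1+x)^2 ≤ (83/10)^2`, `π^2 ≤ 10`, so `s ≥ (θ^2/5) / (2 * 6889/100) ≥ θ^2/700` and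
  `s κ ≥ x n θ^2 / 140000`.
-/

set_option autoImplicit false

namespace FU

variable {V : Type*} [Fintype V] [DecidableEq V]

private theorem norm_one_add_le {x : ℝ} (hx : 0 < x) (θ : ℝ) :
    ‖1 + (x : ℂ) * Complex.exp (θ * Complex.I)‖ ≤
      (1 + x) * Real.exp (-((1 - Real.cos θ) / (2 * (1 + x) ^ 2) * Real.log (1 + x))) := by
  have h1x : 0 < 1 + x := by linarith
  have hc : 0 ≤ 1 - Real.cos θ := by linarith [Real.cos_le_one θ]
  set s : ℝ := (1 - Real.cos θ) / (2 * (1 + x) ^ 2) with hs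
  have hs0 : 0 ≤ s := by positivity
  have hlog : Real.log (1 + x) ≤ x := by
    have := Real.log_le_sub_one_of_pos h1x
    linarith
  have hlog0 : 0 ≤ Real.log (1 + x) := Real.log_nonneg (by linarith)
  refine abs_le_of_sq_le_sq' ?_ (by positivity) |>.2
  have hsq : ‖1 + (x : ℂ) * Complex.exp (θ * Complex.I)‖ ^ 2 =
      (1 + x) ^ 2 - 2 * x * (1 - Real.cos θ) := by
    rw [Complex.exp_mul_I, ← Complex.ofReal_cos, ← Complex.ofReal_sin, ← Complex.normSq_eq_norm_sq,
      Complex.normSq_apply]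
    simp only [Complex.add_re, Complex.one_re, Complex.mul_re, Complex.ofReal_re, Complex.I_re,
      mul_zero, Complex.ofReal_im, Complex.I_im, Complex.mul_im, Complex.add_im, Complex.one_im,
      zero_mul, sub_zero, mul_one, add_zero, zero_add]
    nlinarith [Real.sin_sq_add_cos_sq θ]
  rw [hsq, mul_pow, ← Real.exp_nat_mul]
  have h2 : (1 + x) ^ 2 - 2 * x * (1 - Real.cos θ) = (1 + x) ^ 2 * (1 - 4 * s * x) := by
    rw [hs]
    field_simp
    ring
  rw [h2]
  refine mul_le_mul_of_nonneg_left ?_ (by positivity)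
  calc 1 - 4 * s * x ≤ Real.exp (-(4 * s * x)) := by
        have := Real.add_one_le_exp (-(4 * s * x))
        linarith
    _ ≤ _ := by
        refine Real.exp_le_exp.2 ?_
        push_cast
        have h3 : s * Real.log (1 + x) ≤ s * x := mul_le_mul_of_nonneg_left hlog hs0
        have h4 : 0 ≤ s * x := by positivity
        nlinarith

private theorem bern {s a : ℝ} (hs0 : 0 ≤ s) (hs1 : s ≤ 1) :
    Real.exp (s * a) ≤ 1 - s + s * Real.exp a := by
  have h := rpow_one_add_le_one_add_mul_self (s := Real.exp a - 1) (p := s)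
    (by linarith [Real.exp_pos a]) hs0 hs1
  rw [show (1 + (Real.exp a - 1) : ℝ) = Real.exp a by ring, ← Real.exp_mul] at h
  rw [mul_comm s a]
  linarith

theorem Z_tail {G : SimpleGraph V} (hG : G.IsAcyclic) {x : ℝ} (hx : 0 < x) (hx1 : x ≤ 73 / 10) {θ : ℝ}
    (hθ : |θ| ≤ Real.pi) :
    ‖Z G ((x : ℂ) * Complex.exp (θ * Complex.I))‖ ≤
      Z G x * Real.exp (-(1 / 140000 * (x * Fintype.card V) * θ ^ 2)) := by
  obtain ⟨A, hA0, hB0, hAB⟩ := exists_color hG
  have hA : A ∈ ind G := (mem_ind G A).2 hA0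
  have hB : (Aᶜ : Finset V) ∈ ind G := (mem_ind G _).2 hB0
  have h1x : 0 < 1 + x := by linarith
  have hc : 0 ≤ 1 - Real.cos θ := by linarith [Real.cos_le_one θ]
  have hc2 : 1 - Real.cos θ ≤ 2 := by linarith [Real.neg_one_le_cos θ]
  set s : ℝ := (1 - Real.cos θ) / (2 * (1 + x) ^ 2) with hs
  set κ : ℝ := x * Fintype.card V / 200 with hκ
  have hκ0 : 0 ≤ κ := by positivity
  have hs0 : 0 ≤ s := by positivity
  have hs1 : s ≤ 1 := by
    rw [hs, div_le_one (by positivity)]
    nlinarith [sq_nonneg x]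
  set z : ℂ := (x : ℂ) * Complex.exp (θ * Complex.I) with hz
  have hnz : ‖z‖ = x := by
    rw [hz, norm_mul, Complex.norm_exp_ofReal_mul_I, mul_one, Complex.norm_real, Real.norm_eq_abs,
      abs_of_pos hx]
  have hZ := Z_deco G hA x
  have hlow := Z_lower hG hA hB hAB hx hx1
  have hsum := indc_sum_le G A hx.le
  have hmain : ‖Z G z‖ ≤ Real.exp (-(s * κ)) * Z G x := by
    rw [Z_deco G hA z]
    calc ‖∑ T ∈ indc G A, z ^ T.card * (1 + z) ^ av G A T‖
        ≤ ∑ T ∈ indc G A, ‖z ^ T.card * (1 + z) ^ av G A T‖ := norm_sum_le _ _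
      _ ≤ ∑ T ∈ indc G A, Real.exp (-(s * κ)) * ((1 - s) * (x ^ T.card * (1 + x) ^ av G A T) +
            s * Real.exp κ * x ^ T.card) := by
          refine Finset.sum_le_sum fun T _ => ?_
          rw [norm_mul, norm_pow, norm_pow, hnz]
          have hn := norm_one_add_le hx θ
          rw [← hs, ← hz] at hn
          have hn2 : ‖1 + z‖ ^ av G A T ≤
              (1 + x) ^ av G A T * Real.exp (-(s * (av G A T * Real.log (1 + x)))) := by
            calc ‖1 + z‖ ^ av G A T ≤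
                ((1 + x) * Real.exp (-(s * Real.log (1 + x)))) ^ av G A T :=
                  pow_le_pow_left₀ (norm_nonneg _) hn _
              _ = _ := by
                  rw [mul_pow, ← Real.exp_nat_mul]
                  congr 2
                  ring
          have hb := bern (a := κ - av G A T * Real.log (1 + x)) hs0 hs1
          have he : Real.exp (-(s * (av G A T * Real.log (1 + x)))) =
              Real.exp (-(s * κ)) * Real.exp (s * (κ - av G A T * Real.log (1 + x))) := by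
            rw [← Real.exp_add]
            congr 1
            ring
          have hpw : (1 + x) ^ av G A T * Real.exp (κ - av G A T * Real.log (1 + x)) =
              Real.exp κ := by
            rw [sub_eq_add_neg, Real.exp_add, Real.exp_neg, Real.exp_nat_mul, Real.exp_log h1x]
            field_simp
          have hxT : 0 ≤ x ^ T.card := by positivity
          have hW : 0 ≤ (1 + x) ^ av G A T := by positivity
          calc x ^ T.card * ‖1 + z‖ ^ av G A T ≤ x ^ T.card * ((1 + x) ^ av G A T *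
                (Real.exp (-(s * κ)) * (1 - s + s * Real.exp (κ - av G A T * Real.log (1 + x))))) := by
                refine mul_le_mul_of_nonneg_left (hn2.trans ?_) hxT
                rw [he]
                exact mul_le_mul_of_nonneg_left
                  (mul_le_mul_of_nonneg_left hb (Real.exp_pos _).le) hW
            _ = Real.exp (-(s * κ)) * ((1 - s) * (x ^ T.card * (1 + x) ^ av G A T) +
                s * ((1 + x) ^ av G A T * Real.exp (κ - av G A T * Real.log (1 + x))) *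
                  x ^ T.card) := by ring
            _ = _ := by rw [hpw]
      _ = Real.exp (-(s * κ)) * ((1 - s) * Z G x + s * (Real.exp κ * ∑ T ∈ indc G A, x ^ T.card)) := by
          rw [hZ, ← Finset.mul_sum, Finset.sum_add_distrib, ← Finset.mul_sum, ← Finset.mul_sum]
          ring
      _ ≤ Real.exp (-(s * κ)) * ((1 - s) * Z G x + s * Z G x) := by
          refine mul_le_mul_of_nonneg_left ?_ (Real.exp_pos _).le
          refine add_le_add le_rfl (mul_le_mul_of_nonneg_left ?_ hs0)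
          calc Real.exp κ * ∑ T ∈ indc G A, x ^ T.card ≤ Real.exp κ * (1 + x) ^ (Aᶜ : Finset V).card :=
                mul_le_mul_of_nonneg_left hsum (Real.exp_pos _).le
            _ ≤ Z G x := by rw [mul_comm]; exact hlow
      _ = Real.exp (-(s * κ)) * Z G x := by ring
  refine hmain.trans ?_
  rw [mul_comm]
  refine mul_le_mul_of_nonneg_left (Real.exp_le_exp.2 (neg_le_neg ?_)) (Z_pos G hx).le
  have hcos := Real.cos_le_one_sub_mul_cos_sq hθ
  have hpi : Real.pi ^ 2 ≤ 10 := by nlinarith [Real.pi_lt_d2, Real.pi_pos]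
  have hc3 : θ ^ 2 / 5 ≤ 1 - Real.cos θ := by
    have h1 : (1 : ℝ) / 5 ≤ 2 / Real.pi ^ 2 := by
      rw [div_le_div_iff₀ (by norm_num) (by positivity)]
      linarith
    have h2 : 1 / 5 * θ ^ 2 ≤ 2 / Real.pi ^ 2 * θ ^ 2 := mul_le_mul_of_nonneg_right h1 (sq_nonneg _)
    linarith
  have hs7 : θ ^ 2 / 700 ≤ s := by
    rw [hs, div_le_div_iff₀ (by norm_num) (by positivity)]
    have h1 : (1 + x) ^ 2 ≤ 6889 / 100 := by nlinarith
    have h2 : θ ^ 2 * (2 * (1 + x) ^ 2) ≤ θ ^ 2 * (2 * (6889 / 100)) :=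
      mul_le_mul_of_nonneg_left (by linarith) (sq_nonneg _)
    nlinarith [sq_nonneg θ]
  have hn0 : (0 : ℝ) ≤ x * Fintype.card V := by positivity
  calc 1 / 140000 * (x * Fintype.card V) * θ ^ 2 = θ ^ 2 / 700 * κ := by rw [hκ]; ring
    _ ≤ s * κ := mul_le_mul_of_nonneg_right hs7 hκ0

end FU
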