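import Mathlib

/-!
# FU-G13 Unimodality from log-concavity and the tail

TO PROVE (in place).  `m` = the least `k` with `a (k+1) < a k` (exists: `a (α + 1) = 0 < a α`).  For `i < m` the claim is clear.  For
`i ≥ m` induction on `i`: `i = m` is clear; for `i > m`: if `2 α ≤ 3 i + 1` use `h2`; otherwise `1 ≤ i`, `3 i ≤ 2 α`, so
`a (i-1) a (i+1) ≤ a i ^ 2 ≤ a i a (i-1)` by `h1` and the induction hypothesis, and `a (i-1) > 0`.
-/

set_option autoImplicit false

namespace FU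

theorem unimodal_of {a : ℕ → ℕ} {α : ℕ} (hpos : ∀ k, k ≤ α → 0 < a k) (hzero : ∀ k, α < k → a k = 0)
    (h1 : ∀ k, 1 ≤ k → 3 * k ≤ 2 * α → a (k - 1) * a (k + 1) ≤ a k ^ 2)
    (h2 : ∀ k, 2 * α ≤ 3 * k + 1 → a (k + 1) ≤ a k) :
    ∃ m, (∀ i, i < m → a i ≤ a (i + 1)) ∧ ∀ i, m ≤ i → a (i + 1) ≤ a i := by
  classical
  have hex : ∃ k, a (k + 1) < a k := ⟨α, by rw [hzero (α + 1) (by omega)]; exact hpos α le_rfl⟩
  refine ⟨Nat.find hex, fun i hi => not_lt.1 (Nat.find_min hex hi), fun i hi => ?_⟩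
  induction i, hi using Nat.le_induction with
  | base => exact (Nat.find_spec hex).le
  | succ i hi ih =>
    by_cases hc : 2 * α ≤ 3 * (i + 1) + 1
    · exact h2 (i + 1) hc
    · have h3 := h1 (i + 1) (by omega) (by omega)
      rw [Nat.add_sub_cancel] at h3
      have hp : 0 < a i := hpos i (by omega)
      have h4 : a i * a (i + 1 + 1) ≤ a i * a (i + 1) := by
        calc a i * a (i + 1 + 1) ≤ a (i + 1) ^ 2 := h3
          _ = a (i + 1) * a (i + 1) := sq _
          _ ≤ a i * a (i + 1) := Nat.mul_le_mul_right _ ih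
      exact Nat.le_of_mul_le_mul_left h4 hp

end FU
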