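import Pool.Agent.Helper56.FU.LogC
import Pool.Agent.Helper56.FU.Brid
import Pool.Agent.Helper56.FU.Tail
import Pool.Agent.Helper56.FU.Mean
import Pool.Agent.Helper56.FU.LevM
import Pool.Agent.Helper56.FU.Smal
import Pool.Agent.Helper56.FU.Unim

/-!
# All sufficiently large forests
-/

set_option autoImplicit false

namespace FU

open Polynomial in
theorem eval_Z {V : Type*} [Fintype V] [DecidableEq V] (G : SimpleGraph V) (x : ℝ) :
    (Z G (X : ℝ[X])).eval x = Z G x := by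
  have h := map_Z G (Polynomial.evalRingHom x) (X : ℝ[X])
  simpa using h

open Polynomial in
theorem aeval_Z {V : Type*} [Fintype V] [DecidableEq V] (G : SimpleGraph V) (z : ℂ) :
    Polynomial.aeval z (Z G (X : ℝ[X])) = Z G z := by
  have h := map_Z G (Polynomial.aeval (R := ℝ) z).toRingHom (X : ℝ[X])
  have h2 : (Polynomial.aeval (R := ℝ) z).toRingHom (X : ℝ[X]) = z := by simp
  rw [h2] at h
  exact h

theorem card_compl_le {V : Type*} [Fintype V] [DecidableEq V] {G : SimpleGraph V} (hG : G.IsAcyclic)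
    {A : Finset V} (hA : A.card = alp G) : (Aᶜ : Finset V).card ≤ A.card := by
  obtain ⟨B, hB1, _, hB3⟩ := exists_color hG
  have h1 : B.card ≤ alp G := le_alp G ((mem_ind G B).2 hB1)
  have h2 := Finset.card_add_card_compl A
  have h3 := Finset.card_add_card_compl B
  omega

theorem exists_x {V : Type*} [Fintype V] [DecidableEq V] {G : SimpleGraph V} (hG : G.IsAcyclic) {k : ℕ}
    (hk : 1 ≤ k) (hk2 : 3 * k ≤ 2 * alp G) :
    ∃ x : ℝ, 0 < x ∧ x ≤ 73 / 10 ∧ ZD G x = k * Z G x := by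
  obtain ⟨A, hA, hAc⟩ := exists_max G
  have h1 := ZD_lower G hA (card_compl_le hG hAc)
  have hcont : ContinuousOn (fun x : ℝ => ZD G x - k * Z G x) (Set.Icc 0 (73 / 10)) := by
    unfold ZD Z
    fun_prop
  have h0 : ZD G 0 - k * Z G (0 : ℝ) ≤ 0 := by
    have hz : ZD G 0 = 0 := by
      unfold ZD
      refine Finset.sum_eq_zero fun S _ => ?_
      rcases Nat.eq_zero_or_pos S.card with h | h
      · simp [h]
      · rw [zero_pow (by omega), mul_zero]
    have hz2 : 0 ≤ Z G (0 : ℝ) := Finset.sum_nonneg fun S _ => by positivity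
    rw [hz]
    have : (0 : ℝ) ≤ k * Z G (0 : ℝ) := by positivity
    linarith
  have hZ := Z_pos G (show (0 : ℝ) < 73 / 10 by norm_num)
  have h2 : 0 ≤ ZD G (73 / 10) - k * Z G (73 / 10 : ℝ) := by
    have h3 : (k : ℝ) ≤ 2 / 3 * A.card := by
      rw [hAc]
      have : (3 : ℝ) * k ≤ 2 * alp G := by exact_mod_cast hk2
      linarith
    nlinarith
  obtain ⟨x, hx, hx2⟩ := intermediate_value_Icc (by norm_num) hcont (⟨h0, h2⟩ :
    (0 : ℝ) ∈ Set.Icc (ZD G 0 - k * Z G (0 : ℝ)) (ZD G (73 / 10) - k * Z G (73 / 10 : ℝ)))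
  have hx3 : ZD G x - k * Z G x = 0 := hx2
  refine ⟨x, ?_, hx.2, by linarith⟩
  rcases hx.1.eq_or_lt with h | h
  · exfalso
    rw [← h] at hx3
    have hz : ZD G 0 = 0 := by
      unfold ZD
      refine Finset.sum_eq_zero fun S _ => ?_
      rcases Nat.eq_zero_or_pos S.card with h | h
      · simp [h]
      · rw [zero_pow (by omega), mul_zero]
    have hz2 : 1 ≤ Z G (0 : ℝ) := by
      unfold Z
      have he : (∅ : Finset V) ∈ ind G := (mem_ind G ∅).2 (by simp)
      refine le_trans ?_ (Finset.single_le_sum (f := fun S : Finset V => (0 : ℝ) ^ S.card)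
        (fun S _ => by positivity) he)
      simp
    have hk' : (1 : ℝ) ≤ k := by exact_mod_cast hk
    nlinarith
  · exact h

/-- the number of vertices from which on the theorem is proved -/
def n0 : ℕ := 10 ^ 1000000

theorem big_le_n0 : 2 * big ^ 2 * (big + 1) + 2 ≤ n0 := by
  have h1 : n0 = big ^ 10 := by
    unfold n0 big
    rw [← pow_mul]
  have h2 : 4 ≤ big := by
    unfold big
    calc 4 ≤ 10 ^ 1 := by norm_num
      _ ≤ 10 ^ 100000 := Nat.pow_le_pow_right (by norm_num) (by norm_num)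
  rw [h1]
  generalize big = b at h2
  have h3 : 2 * b ^ 2 * (b + 1) + 2 ≤ 6 * b ^ 3 := by
    have h4 : b ^ 2 ≤ b ^ 3 := Nat.pow_le_pow_right (by omega) (by norm_num)
    have h5 : 1 ≤ b ^ 3 := Nat.one_le_pow _ _ (by omega)
    nlinarith
  have h6 : 6 * b ^ 3 ≤ b ^ 10 := by
    calc 6 * b ^ 3 ≤ 4 ^ 7 * b ^ 3 := by nlinarith [Nat.zero_le (b ^ 3)]
      _ ≤ b ^ 7 * b ^ 3 := Nat.mul_le_mul_right _ (Nat.pow_le_pow_left h2 7)
      _ = b ^ 10 := by ring
  exact h3.trans h6

theorem main (V : Type) [Fintype V] [DecidableEq V] (G : SimpleGraph V) (hG : G.IsAcyclic)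
    (hn : n0 ≤ Fintype.card V) :
    (∀ k, 1 ≤ k → 3 * k ≤ 2 * alp G → cf G (k - 1) * cf G (k + 1) ≤ cf G k ^ 2) ∧
    (∀ k, 2 * alp G ≤ 3 * k + 1 → cf G (k + 1) ≤ cf G k) ∧
    (∃ m, (∀ i, i < m → cf G i ≤ cf G (i + 1)) ∧ ∀ i, m ≤ i → cf G (i + 1) ≤ cf G i) := by
  have h1 : ∀ k, 1 ≤ k → 3 * k ≤ 2 * alp G → cf G (k - 1) * cf G (k + 1) ≤ cf G k ^ 2 := by
    intro k hk hk2
    rcases le_or_gt k big with h | h
    · exact small_logConc big V G hG (big_le_n0.trans hn) k hk h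
    obtain ⟨x, hx, hx1, hxk⟩ := exists_x hG hk hk2
    obtain ⟨F, hF1, hF2⟩ := exists_Fo hG
    have hIZ : I x F = Z G x := by rw [← eval_I, ← hF2, eval_Z]
    have hZ := Z_pos G hx
    have hmu : mu x F = k := by
      have h2 := mu_eq hx F
      rw [← hF2, ← ZD_deriv, hxk, hIZ] at h2
      exact (mul_right_cancel₀ hZ.ne' h2).symm
    have hkN : (k : ℝ) ≤ x * F.sz := by
      have h2 := ZD_le G hx
      rw [hxk, ← hF1] at h2
      exact le_of_mul_le_mul_right h2 hZ
    have hNN : (big : ℝ) ≤ x * F.sz := by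
      refine le_trans ?_ hkN
      exact_mod_cast h.le
    have h3 := logc x hx hx1 F hNN k hk hmu (fun j => by rw [← hF2, coeff_Z]; positivity) (fun θ hθ => by
      have h4 := Z_tail hG hx hx1 hθ
      rw [← aeval_I, ← hF2, aeval_Z, hIZ, hF1]
      exact h4)
    rw [← hF2, coeff_Z, coeff_Z, coeff_Z] at h3
    exact_mod_cast h3
  have h2 : ∀ k, 2 * alp G ≤ 3 * k + 1 → cf G (k + 1) ≤ cf G k := by
    intro k hk
    rcases le_or_gt k (alp G) with h | h
    · have h3 := levM hG h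
      have h4 : 2 * (alp G - k) ≤ k + 1 := by omega
      have h5 : (k + 1) * cf G (k + 1) ≤ (k + 1) * cf G k := h3.trans (Nat.mul_le_mul_right _ h4)
      exact Nat.le_of_mul_le_mul_left h5 (by omega)
    · rw [cf_zero_of_lt G (by omega : alp G < k + 1)]
      exact Nat.zero_le _
  exact ⟨h1, h2, unimodal_of (fun k hk => cf_pos G hk) (fun k hk => cf_zero_of_lt G hk) h1 h2⟩

end FU
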