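import Pool.Agent.Helper56.FU.EllB

/-!
# FU-A08 The quadratic bound for `Lam`

TO PROVE (in place).  Prove by structural induction
`(1/9) ‖Lam x u F - u mu‖ + (8/9) ‖ell x u F - u d‖ ≤ 8 ‖u‖^2 Tot x F`.
For `cons c r` let `lam` be the logarithm of the vertex, `g = ‖ell x u c - u d x c‖`.  Then
`‖lam - u p (1 - d x c)‖ ≤ ‖lam - p (u - ell x u c)‖ + p g ≤ 8 ‖u‖^2 y + p g`, where `y = phf x (q x c) * (1 + H x c)^rr`, by `vertex`
and `(1 + H)^2 ≤ (1 + H)^rr` (`rr ≥ 2`, `1 + H ≥ 1`).  With `p ≤ 8/9` (`p_le'`):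
`(1/9) ‖Lam - u mu‖ + (8/9) ‖ell - u d‖` for `cons c r` is at most
`(8 ‖u‖^2 y + p g) + (1/9) ‖Lam c - u mu c‖ + [(1/9) ‖Lam r - u mu r‖ + (8/9) ‖ell r - u d r‖]`,
`≤ 8 ‖u‖^2 y + [(8/9) g + (1/9) ‖Lam c - u mu c‖] + [...] ≤ 8 ‖u‖^2 (y + Tot c + Tot r)`.
Then `Tot_le`: `‖Lam - u mu‖ ≤ 72 * 6000 * (x sz) ‖u‖^2 ≤ 500000 N ‖u‖^2`.
-/

set_option autoImplicit false

namespace FU

theorem quad_aux {x N U : ℝ} (hx : 0 < x) (hx1 : x ≤ 73 / 10) (hA : Adm N U) {u : ℂ} (hu : ‖u‖ ≤ U)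
    (F : Fo) (hN : x * F.sz ≤ N) :
    1 / 9 * ‖Lam x u F - u * (mu x F : ℂ)‖ + 8 / 9 * ‖ell x u F - u * (d x F : ℂ)‖ ≤
      8 * ‖u‖ ^ 2 * Tot x F := by
  induction F with
  | nil =>
    change 1 / 9 * ‖(0 : ℂ) - u * ((0 : ℝ) : ℂ)‖ + 8 / 9 * ‖(0 : ℂ) - u * ((0 : ℝ) : ℂ)‖ ≤
      8 * ‖u‖ ^ 2 * 0
    simp
  | cons c r ihc ihr =>
    obtain ⟨hc, hr⟩ := ellB_sz hx hN
    have ihc := ihc hc
    have ihr := ihr hr
    obtain ⟨-, hv⟩ := vertex hx hx1 hA hu c hc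
    have hp0 := p_pos hx c
    have hp1 := p_le' hx hx1 c
    have hpf := phf_nonneg hx (q_pos hx c)
    have hH := H_nonneg hx c
    set lam := Complex.log (1 + (p x c : ℂ) * (Complex.exp (u - ell x u c) - 1)) with hlam
    set y := phf x (q x c) * (1 + H x c) ^ rr with hy
    set g := ‖ell x u c - u * (d x c : ℂ)‖ with hg
    have h1 : ‖lam - u * ((p x c * (1 - d x c) : ℝ) : ℂ)‖ ≤ 8 * ‖u‖ ^ 2 * y + p x c * g := by
      have h2 : lam - u * ((p x c * (1 - d x c) : ℝ) : ℂ) =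
          (lam - (p x c : ℂ) * (u - ell x u c)) - (p x c : ℂ) * (ell x u c - u * (d x c : ℂ)) := by
        push_cast
        ring
      rw [h2]
      refine (norm_sub_le _ _).trans ?_
      have h3 : ‖(p x c : ℂ) * (ell x u c - u * (d x c : ℂ))‖ = p x c * g := by
        rw [norm_mul, Complex.norm_real, Real.norm_of_nonneg hp0.le]
      rw [h3]
      have h4 : 8 * phf x (q x c) * (‖u‖ * (1 + H x c)) ^ 2 ≤ 8 * ‖u‖ ^ 2 * y := by
        have h5 : (1 + H x c) ^ (2 : ℕ) ≤ (1 + H x c) ^ rr := by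
          rw [← Real.rpow_natCast]
          exact Real.rpow_le_rpow_of_exponent_le (by linarith) (by unfold rr; norm_num)
        have h6 : phf x (q x c) * (1 + H x c) ^ 2 ≤ y := mul_le_mul_of_nonneg_left h5 hpf
        have h7 : 0 ≤ 8 * ‖u‖ ^ 2 := by positivity
        calc 8 * phf x (q x c) * (‖u‖ * (1 + H x c)) ^ 2 =
              8 * ‖u‖ ^ 2 * (phf x (q x c) * (1 + H x c) ^ 2) := by ring
          _ ≤ _ := mul_le_mul_of_nonneg_left h6 h7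
      linarith
    have hL : ‖Lam x u (.cons c r) - u * (mu x (.cons c r) : ℂ)‖ ≤
        ‖lam - u * ((p x c * (1 - d x c) : ℝ) : ℂ)‖ + ‖Lam x u c - u * (mu x c : ℂ)‖ +
          ‖Lam x u r - u * (mu x r : ℂ)‖ := by
      have h2 : Lam x u (.cons c r) - u * (mu x (.cons c r) : ℂ) =
          (lam - u * ((p x c * (1 - d x c) : ℝ) : ℂ)) + (Lam x u c - u * (mu x c : ℂ)) +
            (Lam x u r - u * (mu x r : ℂ)) := by
        change (lam + Lam x u c + Lam x u r) -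
          u * ((p x c * (1 - d x c) + mu x c + mu x r : ℝ) : ℂ) = _
        push_cast
        ring
      rw [h2]
      exact norm_add₃_le
    have hE : ‖ell x u (.cons c r) - u * (d x (.cons c r) : ℂ)‖ ≤
        ‖lam - u * ((p x c * (1 - d x c) : ℝ) : ℂ)‖ + ‖ell x u r - u * (d x r : ℂ)‖ := by
      have h2 : ell x u (.cons c r) - u * (d x (.cons c r) : ℂ) =
          (lam - u * ((p x c * (1 - d x c) : ℝ) : ℂ)) + (ell x u r - u * (d x r : ℂ)) := by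
        change (lam + ell x u r) - u * ((p x c * (1 - d x c) + d x r : ℝ) : ℂ) = _
        push_cast
        ring
      rw [h2]
      exact norm_add_le _ _
    have hg0 : 0 ≤ g := norm_nonneg _
    have h8 : p x c * g ≤ 8 / 9 * g := mul_le_mul_of_nonneg_right hp1 hg0
    have hT : Tot x (.cons c r) = y + Tot x c + Tot x r := rfl
    rw [hT]
    have h9 : 8 * ‖u‖ ^ 2 * (y + Tot x c + Tot x r) =
        8 * ‖u‖ ^ 2 * y + 8 * ‖u‖ ^ 2 * Tot x c + 8 * ‖u‖ ^ 2 * Tot x r := by ring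
    rw [h9]
    linarith

theorem Lam_le {x N U : ℝ} (hx : 0 < x) (hx1 : x ≤ 73 / 10) (hA : Adm N U) {u : ℂ} (hu : ‖u‖ ≤ U)
    (F : Fo) (hN : x * F.sz ≤ N) : ‖Lam x u F - u * (mu x F : ℂ)‖ ≤ 500000 * N * ‖u‖ ^ 2 := by
  have h1 := quad_aux hx hx1 hA hu F hN
  have h2 := Tot_le hx hx1 F
  have h3 : 0 ≤ ‖ell x u F - u * (d x F : ℂ)‖ := norm_nonneg _
  have h4 : 0 ≤ ‖u‖ ^ 2 := by positivity
  have h5 : 8 * ‖u‖ ^ 2 * Tot x F ≤ 8 * ‖u‖ ^ 2 * (6000 * N) :=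
    mul_le_mul_of_nonneg_left (h2.trans (by linarith)) (by positivity)
  have hN0 : 0 ≤ N := hA.2.1
  have h6 : 0 ≤ N * ‖u‖ ^ 2 := mul_nonneg hN0 h4
  nlinarith

end FU
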