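import Pool.Agent.Helper56.FU.Hold

/-!
# FU-A05 The bound for `Tot` and for `H`

TO PROVE (in place).

* `Tot_le`: prove `Tot x F / 25 + (24/25) * Y x F ≤ 210 * x * F.sz` by structural induction.  For `cons c r` put
  `y = phf x (q x c) * (1 + H x c)^rr`.  `one_add_rpow_le` with `τ = 1/100`:
  `(1 + H)^rr ≤ (1/100)^(1-rr) + (99/100)^(1-rr) H^rr`, `(1/100)^(1-rr) = 100^(101/100) ≤ 105`,
  `(99/100)^(1-rr) = (100/99)^(101/100) ≤ 10103/10000` (for instance `(100/99)^101 ≤ (10103/10000)^100`, `100^101 ≤ 105^100`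
  by `norm_num`, and monotonicity of powers).  With `phf ≤ 2 x`, `H_rpow_le` for `c`, and `pot`:
  `y ≤ 210 x + (10103/10000) * phf * (-log q)^(rr-1) * Y x c ≤ 210 x + (10103/10000)(19/20) Y x c ≤ 210 x + (24/25) Y x c`.
  Now `Tot (cons c r) / 25 + (24/25) Y (cons c r) = y + Tot c / 25 + (Tot r / 25 + (24/25) Y r)
  ≤ 210 x + ((24/25) Y c + Tot c / 25) + ... ≤ 210 x (1 + sz c + sz r)`.
  Hence `Tot ≤ 25 * 210 * x * sz` (`Y_nonneg`).
* `H_le`: `H^rr ≤ L^(rr-1) Y ≤ (1+L)^rr * (6000 N)`, `L = -log q ≥ 0`; take the power `1/rr`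
  (`Real.rpow_le_rpow`, `Real.mul_rpow`, `Real.rpow_mul`).
-/

set_option autoImplicit false

namespace FU

private theorem totB_c1 : (1 / 100 : ℝ) ^ (1 - rr) ≤ 105 := by
  have h1 : (1 / 100 : ℝ) ^ (1 - rr) = (100 : ℝ) ^ (101 / 100 : ℝ) := by
    rw [one_div, Real.inv_rpow (by norm_num), ← Real.rpow_neg (by norm_num)]
    congr 1
    unfold rr
    norm_num
  rw [h1]
  have h2 : ((100 : ℝ) ^ (101 / 100 : ℝ)) ^ (100 : ℕ) ≤ (105 : ℝ) ^ (100 : ℕ) := by
    rw [← Real.rpow_natCast, ← Real.rpow_mul (by norm_num)]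
    have h3 : (101 / 100 : ℝ) * ((100 : ℕ) : ℝ) = ((101 : ℕ) : ℝ) := by norm_num
    rw [h3, Real.rpow_natCast]
    norm_num
  exact le_of_pow_le_pow_left₀ (by norm_num) (by norm_num) h2

private theorem totB_c2 : (1 - 1 / 100 : ℝ) ^ (1 - rr) ≤ 10103 / 10000 := by
  have h1 : (1 - 1 / 100 : ℝ) ^ (1 - rr) = (100 / 99 : ℝ) ^ (101 / 100 : ℝ) := by
    have h0 : (1 - 1 / 100 : ℝ) = (100 / 99 : ℝ)⁻¹ := by norm_num
    rw [h0, Real.inv_rpow (by norm_num), ← Real.rpow_neg (by norm_num)]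
    congr 1
    unfold rr
    norm_num
  rw [h1]
  have h2 : ((100 / 99 : ℝ) ^ (101 / 100 : ℝ)) ^ (100 : ℕ) ≤ (10103 / 10000 : ℝ) ^ (100 : ℕ) := by
    rw [← Real.rpow_natCast, ← Real.rpow_mul (by norm_num)]
    have h3 : (101 / 100 : ℝ) * ((100 : ℕ) : ℝ) = ((101 : ℕ) : ℝ) := by norm_num
    rw [h3, Real.rpow_natCast]
    norm_num
  exact le_of_pow_le_pow_left₀ (by norm_num) (by norm_num) h2

private theorem totB_y {x : ℝ} (hx : 0 < x) (hx1 : x ≤ 73 / 10) (c : Fo) :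
    phf x (q x c) * (1 + H x c) ^ rr ≤ 210 * x + 24 / 25 * Y x c := by
  have hH := H_nonneg hx c
  have hq := q_pos hx c
  have hq1 := q_le_one hx c
  have hph := phf_nonneg hx hq
  have hL := neg_log_q_nonneg hx c
  have hY := Y_nonneg hx c
  have hrr : (1 : ℝ) ≤ rr := by unfold rr; norm_num
  have h1 := one_add_rpow_le (τ := 1 / 100) hrr (by norm_num) (by norm_num) hH
  have h2 := H_rpow_le hx c
  have h3 := pot hx hx1 hq hq1
  have h4 := phf_le hx hq hq1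
  have hHr : 0 ≤ H x c ^ rr := Real.rpow_nonneg hH _
  have h5 : (1 + H x c) ^ rr ≤ 105 + 10103 / 10000 * H x c ^ rr := by
    refine h1.trans (add_le_add totB_c1 (mul_le_mul_of_nonneg_right totB_c2 hHr))
  have hLr : 0 ≤ (-Real.log (q x c)) ^ (rr - 1) := Real.rpow_nonneg hL _
  calc phf x (q x c) * (1 + H x c) ^ rr
      ≤ phf x (q x c) * (105 + 10103 / 10000 * H x c ^ rr) := mul_le_mul_of_nonneg_left h5 hph
    _ = 105 * phf x (q x c) + 10103 / 10000 * (phf x (q x c) * H x c ^ rr) := by ring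
    _ ≤ 105 * (2 * x) + 10103 / 10000 * (phf x (q x c) * ((-Real.log (q x c)) ^ (rr - 1) * Y x c)) := by
        gcongr
    _ = 210 * x + 10103 / 10000 * ((phf x (q x c) * (-Real.log (q x c)) ^ (rr - 1)) * Y x c) := by
        ring
    _ ≤ 210 * x + 10103 / 10000 * ((19 / 20) * Y x c) := by gcongr
    _ ≤ 210 * x + 24 / 25 * Y x c := by nlinarith

private theorem totB_ind {x : ℝ} (hx : 0 < x) (hx1 : x ≤ 73 / 10) (F : Fo) :
    Tot x F / 25 + 24 / 25 * Y x F ≤ 210 * x * F.sz := by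
  induction F with
  | nil => simp [Tot, Y, Fo.sz]
  | cons c r ihc ihr =>
    have h1 := totB_y hx hx1 c
    simp only [Tot, Y, Fo.sz]
    push_cast
    nlinarith

theorem Tot_le {x : ℝ} (hx : 0 < x) (hx1 : x ≤ 73 / 10) (F : Fo) : Tot x F ≤ 6000 * (x * F.sz) := by
  have h1 := totB_ind hx hx1 F
  have h2 := Y_nonneg hx F
  have h3 : 0 ≤ x * F.sz := by positivity
  nlinarith

theorem H_le {x N : ℝ} (hx : 0 < x) (hx1 : x ≤ 73 / 10) (F : Fo) (hN : x * F.sz ≤ N) :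
    H x F ≤ (1 + -Real.log (q x F)) * (6000 * N) ^ (1 / rr) := by
  have hH := H_nonneg hx F
  have hL := neg_log_q_nonneg hx F
  have hY := Y_nonneg hx F
  have hrr : (0 : ℝ) < rr := by unfold rr; norm_num
  have hrr1 : (1 : ℝ) ≤ rr := by unfold rr; norm_num
  have hN0 : 0 ≤ N := le_trans (by positivity) hN
  have h1 : H x F ^ rr ≤ (1 + -Real.log (q x F)) ^ rr * (6000 * N) := by
    refine (H_rpow_le hx F).trans ?_
    have h2 : (-Real.log (q x F)) ^ (rr - 1) ≤ (1 + -Real.log (q x F)) ^ rr := by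
      calc (-Real.log (q x F)) ^ (rr - 1) ≤ (1 + -Real.log (q x F)) ^ (rr - 1) :=
            Real.rpow_le_rpow hL (by linarith) (by linarith)
        _ ≤ (1 + -Real.log (q x F)) ^ rr :=
            Real.rpow_le_rpow_of_exponent_le (by linarith) (by linarith)
    have h3 : Y x F ≤ 6000 * N := by
      refine (Y_le_Tot hx F).trans ((Tot_le hx hx1 F).trans ?_)
      linarith
    exact mul_le_mul h2 h3 hY (Real.rpow_nonneg (by linarith) _)
  have h4 : (H x F ^ rr) ^ (1 / rr) ≤ ((1 + -Real.log (q x F)) ^ rr * (6000 * N)) ^ (1 / rr) :=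
    Real.rpow_le_rpow (Real.rpow_nonneg hH _) h1 (by positivity)
  have h5 : rr * (1 / rr) = 1 := by field_simp
  rw [← Real.rpow_mul hH, h5, Real.rpow_one,
    Real.mul_rpow (Real.rpow_nonneg (by linarith) _) (by linarith),
    ← Real.rpow_mul (by linarith : (0 : ℝ) ≤ 1 + -Real.log (q x F)), h5, Real.rpow_one] at h4
  exact h4

end FU
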